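import Pool.Agent.H566.KMs
import Pool.Graph.R_pool_sql_team_seeded_1acbe0a2.Y547.CS.CS
import Pool.Graph.R_pool_sql_team_seeded_1acbe0a2.Y836.CS.MZ
import Pool.Graph.R_pool_sql_team_seeded_1acbe0a2.Y455.CS.Chg
import Pool.Graph.R_pool_sql_team_seeded_1acbe0a2.Y162.CS.CHD
import Pool.Graph.R_pool_sql_team_seeded_1acbe0a2.Y369.CS.Fou

/-!
# Project KM (helper566): task AP (helper441)
-/

set_option autoImplicit false

namespace Pool.Agent.H441.KM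

open Finset Pool.Agent.TH858 Pool.Agent.TH858.GP Pool.Agent.Y881.CS
open scoped Pointwise

section general

set_option linter.unusedSectionVars false

variable {N : ℕ} [NeZero N]

/-- proportion of the pairs -/
noncomputable def PP (A₁ A₂ B : Finset (ZMod N)) (y : ZMod N) : ℝ :=
  (((A₁ ×ˢ A₂).filter fun q => y + q.1 - q.2 ∈ B).card : ℝ) / (A₁.card * A₂.card)

lemma card_prod_filter (A₁ A₂ B : Finset (ZMod N)) (y : ZMod N) :
    ((A₁ ×ˢ A₂).filter fun q => y + q.1 - q.2 ∈ B).card =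
      ∑ a ∈ A₁, (A₂.filter fun b => y + a - b ∈ B).card := by
  rw [card_filter, sum_product]
  refine sum_congr rfl fun a _ => ?_
  rw [card_filter]

lemma gg_neg (A B : Finset (ZMod N)) (z : ZMod N) :
    gg (-A) B z = ((A.filter fun b => z - b ∈ B).card : ℝ) / A.card := by
  unfold gg
  rw [card_neg]
  congr 2
  refine card_bij' (fun a _ => -a) (fun b _ => -b) ?_ ?_ ?_ ?_
  · intro a ha
    simp only [mem_filter, mem_neg'] at ha ⊢
    refine ⟨ha.1, ?_⟩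
    rw [sub_neg_eq_add, add_comm]
    exact ha.2
  · intro b hb
    simp only [mem_filter, mem_neg'] at hb ⊢
    refine ⟨by rw [neg_neg]; exact hb.1, ?_⟩
    rw [neg_add_eq_sub]
    exact hb.2
  · intro a _
    exact neg_neg a
  · intro b _
    exact neg_neg b

lemma PP_eq (A₁ A₂ B : Finset (ZMod N)) (y : ZMod N) :
    PP A₁ A₂ B y = ∑ a ∈ A₁, (1 / (A₁.card : ℝ)) * gg (-A₂) B (y + a) := by
  unfold PP
  rw [card_prod_filter, ← mul_sum]
  have h : ∀ a ∈ A₁, gg (-A₂) B (y + a) =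
      ((A₂.filter fun b => y + a - b ∈ B).card : ℝ) / A₂.card := fun a _ => gg_neg A₂ B (y + a)
  rw [sum_congr rfl h, ← sum_div]
  push_cast
  rw [div_mul_div_comm, one_mul]

/-- Fourier coefficients -/
noncomputable def c3 (A₁ A₂ B : Finset (ZMod N)) (g : ZMod N) : ℂ :=
  ((∑ a ∈ A₁, ψ (g * a)) * ∑ b ∈ A₂, ψ (g * (-b))) * ∑ v ∈ B, ψ (g * (-v))

lemma PP_expand (A₁ A₂ B : Finset (ZMod N)) (h₁ : A₁.Nonempty) (h₂ : A₂.Nonempty) (y : ZMod N) :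
    ((N * ((A₁.card : ℝ) * A₂.card) * PP A₁ A₂ B y : ℝ) : ℂ) =
      ∑ g : ZMod N, ψ (g * y) * c3 A₁ A₂ B g := by
  have hp₁ : (A₁.card : ℝ) ≠ 0 := by exact_mod_cast h₁.card_pos.ne'
  have hp₂ : (A₂.card : ℝ) ≠ 0 := by exact_mod_cast h₂.card_pos.ne'
  have e1 : N * ((A₁.card : ℝ) * A₂.card) * PP A₁ A₂ B y =
      N * (((A₁ ×ˢ A₂).filter fun q => y + q.1 - q.2 ∈ B).card : ℝ) := by
    unfold PP
    field_simp
  have e2 : (((A₁ ×ˢ A₂).filter fun q => y + q.1 - q.2 ∈ B).card : ℂ) =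
      ∑ q ∈ A₁ ×ˢ A₂, ∑ v ∈ B, (if y + q.1 - q.2 - v = 0 then (1 : ℂ) else 0) := by
    rw [card_filter]
    push_cast
    apply sum_congr rfl
    intro q _
    simp only [sub_eq_zero]
    rw [sum_ite_eq B (y + q.1 - q.2) (fun _ => (1 : ℂ))]
  have e3 : ((N * ((A₁.card : ℝ) * A₂.card) * PP A₁ A₂ B y : ℝ) : ℂ) =
      (N : ℂ) * ∑ q ∈ A₁ ×ˢ A₂, ∑ v ∈ B, (if y + q.1 - q.2 - v = 0 then (1 : ℂ) else 0) := by
    rw [e1, ← e2]
    push_cast
    rfl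
  rw [e3, mul_sum]
  have e4 : ∀ q ∈ A₁ ×ˢ A₂, (N : ℂ) * ∑ v ∈ B, (if y + q.1 - q.2 - v = 0 then (1 : ℂ) else 0) =
      ∑ g : ZMod N, ∑ v ∈ B, ψ (g * (y + q.1 - q.2 - v)) := by
    intro q _
    rw [sum_comm, mul_sum]
    apply sum_congr rfl
    intro v _
    rw [Pool.Agent.Y369.CS.delta]
    split_ifs <;> simp
  rw [sum_congr rfl e4, sum_comm]
  apply sum_congr rfl
  intro g _
  have h5 : (∑ a ∈ A₁, ψ (g * a)) * ∑ b ∈ A₂, ψ (g * (-b)) =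
      ∑ q ∈ A₁ ×ˢ A₂, ψ (g * q.1) * ψ (g * (-q.2)) := by
    rw [sum_mul_sum, sum_product]
  unfold c3
  rw [h5, sum_mul_sum, mul_sum]
  apply sum_congr rfl
  intro q _
  rw [mul_sum]
  apply sum_congr rfl
  intro v _
  rw [← ψ_add, ← ψ_add, ← ψ_add]
  congr 1
  ring

lemma norm_sq_eq (A : Finset (ZMod N)) (g : ZMod N) : ‖∑ a ∈ A, ψ (g * (-a))‖ ^ 2 = wt A g := by
  unfold wt
  have h : ∑ a ∈ A, ψ (g * (-a)) = (starRingEnd ℂ) (∑ a ∈ A, ψ (g * a)) := by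
    rw [map_sum]
    refine sum_congr rfl fun a _ => ?_
    rw [← ψ_neg]
    congr 1
    ring
  rw [h, RCLike.norm_conj]

lemma c3_norm (A₁ A₂ B : Finset (ZMod N)) (M : ℝ) (hM : 0 < M) (g : ZMod N) :
    ‖c3 A₁ A₂ B g‖ ≤ A₂.card * ((M * wt A₁ g + wt B g / M) / 2) := by
  unfold c3
  rw [norm_mul, norm_mul]
  have h1 : ‖∑ b ∈ A₂, ψ (g * (-b))‖ ≤ A₂.card := by
    refine (norm_sum_le _ _).trans ?_
    simp
  have h2 : ‖∑ a ∈ A₁, ψ (g * a)‖ * ‖∑ v ∈ B, ψ (g * (-v))‖ ≤ (M * wt A₁ g + wt B g / M) / 2 := by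
    rw [← norm_sq_eq B g]
    unfold wt
    set u := ‖∑ a ∈ A₁, ψ (g * a)‖
    set v := ‖∑ v ∈ B, ψ (g * (-v))‖
    have h3 : 0 ≤ (M * u - v) ^ 2 / M := by positivity
    have h4 : (M * u - v) ^ 2 / M = M * u ^ 2 + v ^ 2 / M - 2 * (u * v) := by
      field_simp
      ring
    linarith
  calc ‖∑ a ∈ A₁, ψ (g * a)‖ * ‖∑ b ∈ A₂, ψ (g * (-b))‖ * ‖∑ v ∈ B, ψ (g * (-v))‖
      = ‖∑ b ∈ A₂, ψ (g * (-b))‖ * (‖∑ a ∈ A₁, ψ (g * a)‖ * ‖∑ v ∈ B, ψ (g * (-v))‖) := by ring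
    _ ≤ _ := mul_le_mul h1 h2 (by positivity) (by positivity)

lemma c3_sum (A₁ A₂ B : Finset (ZMod N)) (M : ℝ) (hM : 1 ≤ M) (hB : (B.card : ℝ) ≤ M * A₁.card) :
    ∑ g : ZMod N, ‖c3 A₁ A₂ B g‖ ≤ N * ((A₁.card : ℝ) * A₂.card) * M := by
  have hM0 : 0 < M := by linarith
  refine (sum_le_sum fun g _ => c3_norm A₁ A₂ B M hM0 g).trans ?_
  rw [← mul_sum, ← sum_div, sum_add_distrib, ← mul_sum, ← sum_div, sum_wt, sum_wt]
  have h1 : (N : ℝ) * B.card / M ≤ N * A₁.card := by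
    rw [div_le_iff₀ hM0]
    have : (0 : ℝ) ≤ N := Nat.cast_nonneg _
    nlinarith
  have h2 : (N : ℝ) * A₁.card ≤ M * (N * A₁.card) := by
    have : (0 : ℝ) ≤ N * A₁.card := by positivity
    nlinarith
  have h3 : (M * (N * A₁.card) + (N : ℝ) * B.card / M) / 2 ≤ M * (N * A₁.card) := by linarith
  calc (A₂.card : ℝ) * ((M * (N * A₁.card) + (N : ℝ) * B.card / M) / 2)
      ≤ A₂.card * (M * (N * A₁.card)) := mul_le_mul_of_nonneg_left h3 (by positivity)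
    _ = _ := by ring

lemma av_expand' (k : ℕ) (T : Finset (ZMod N)) (f : ZMod N → ℝ) (K : ℝ) (c : ZMod N → ℂ)
    (hf : ∀ y, ((K * f y : ℝ) : ℂ) = ∑ g : ZMod N, ψ (g * y) * c g) (x : ZMod N) :
    ((K * ∑ s ∈ Fintype.piFinset (fun _ : Fin k => T ×ˢ T),
      f (x + ∑ i, ((s i).1 - (s i).2)) : ℝ) : ℂ) =
      ∑ g : ZMod N, ψ (g * x) * c g * ((wt T g : ℝ) : ℂ) ^ k := by
  rw [mul_sum, Complex.ofReal_sum]
  have h1 : ∀ s ∈ Fintype.piFinset (fun _ : Fin k => T ×ˢ T),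
      ((K * f (x + ∑ i, ((s i).1 - (s i).2)) : ℝ) : ℂ) =
      ∑ g : ZMod N, ψ (g * x) * c g * ∏ i, ψ (g * ((s i).1 - (s i).2)) := by
    intro s _
    rw [hf]
    apply sum_congr rfl
    intro g _
    have e : ψ (g * (x + ∑ i, ((s i).1 - (s i).2))) =
        ψ (g * x) * ∏ i, ψ (g * ((s i).1 - (s i).2)) := by
      rw [mul_add, ψ_add, mul_sum]
      congr 1
      exact Pool.Agent.Y369.CS.psi_sum _ _
    rw [e]
    ring
  rw [sum_congr rfl h1, sum_comm]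
  apply sum_congr rfl
  intro g _
  rw [← mul_sum]
  congr 1
  rw [sum_prod_piFinset (T ×ˢ T) (fun (_ : Fin k) p => ψ (g * (p.1 - p.2)))]
  rw [wt_expand]
  simp

lemma fou (k : ℕ) (T : Finset (ZMod N)) (hT : T.Nonempty) (f : ZMod N → ℝ) (K M δ : ℝ)
    (hK : 0 < K) (hδ : 0 ≤ δ) (c : ZMod N → ℂ)
    (hf : ∀ y, ((K * f y : ℝ) : ℂ) = ∑ g : ZMod N, ψ (g * y) * c g)
    (hc : ∑ g : ZMod N, ‖c g‖ ≤ K * M) (x : ZMod N)
    (hx : ∀ γ : ZMod N, (T.card : ℝ) ^ 2 ≤ 4 * wt T γ → ‖ψ (γ * x) - 1‖ ≤ δ) :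
    |av k T f x - av k T f 0| ≤ M * (δ + 2 / 4 ^ k) := by
  have hTp : (0 : ℝ) < T.card := by exact_mod_cast hT.card_pos
  set F : ZMod N → ℝ := fun y => ∑ s ∈ Fintype.piFinset (fun _ : Fin k => T ×ˢ T),
      f (y + ∑ i, ((s i).1 - (s i).2)) with hF
  have h1 : ((K * (F x - F 0) : ℝ) : ℂ) =
      ∑ g : ZMod N, (ψ (g * x) - 1) * c g * ((wt T g : ℝ) : ℂ) ^ k := by
    rw [mul_sub, Complex.ofReal_sub, av_expand' k T f K c hf x, av_expand' k T f K c hf 0,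
      ← sum_sub_distrib]
    apply sum_congr rfl
    intro g _
    rw [mul_zero, ψ_zero]
    ring
  obtain ⟨τ, hτ⟩ : ∃ τ : ℝ, τ = δ + 2 / 4 ^ k := ⟨_, rfl⟩
  have e2 : (0 : ℝ) ≤ 2 / 4 ^ k := by positivity
  have hτ0 : 0 ≤ τ := by rw [hτ]; positivity
  have h2 : ∀ g : ZMod N, ‖(ψ (g * x) - 1) * c g * ((wt T g : ℝ) : ℂ) ^ k‖ ≤
      ‖c g‖ * (((T.card : ℝ) ^ 2) ^ k * τ) := by
    intro g
    have hw := wt_nonneg T g
    rw [norm_mul, norm_mul, norm_pow, Complex.norm_real, Real.norm_of_nonneg hw]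
    have h3 : ‖ψ (g * x) - 1‖ * wt T g ^ k ≤ ((T.card : ℝ) ^ 2) ^ k * τ := by
      have e3 : 0 < ((T.card : ℝ) ^ 2) ^ k := by positivity
      by_cases hc : (T.card : ℝ) ^ 2 ≤ 4 * wt T g
      · calc ‖ψ (g * x) - 1‖ * wt T g ^ k ≤ δ * ((T.card : ℝ) ^ 2) ^ k :=
              mul_le_mul (hx g hc) (pow_le_pow_left₀ hw (Pool.Agent.Y369.CS.wt_le T g) k)
                (by positivity) hδ
          _ ≤ _ := by
              rw [hτ]
              nlinarith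
      · push Not at hc
        have h5 : wt T g ≤ (T.card : ℝ) ^ 2 / 4 := by linarith
        have h6 : ‖ψ (g * x) - 1‖ ≤ 2 := by
          calc ‖ψ (g * x) - 1‖ ≤ ‖ψ (g * x)‖ + ‖(1 : ℂ)‖ := norm_sub_le _ _
            _ = 2 := by rw [ψ_norm, norm_one]; norm_num
        calc ‖ψ (g * x) - 1‖ * wt T g ^ k ≤ 2 * ((T.card : ℝ) ^ 2 / 4) ^ k :=
              mul_le_mul h6 (pow_le_pow_left₀ hw h5 k) (by positivity) (by norm_num)
          _ = ((T.card : ℝ) ^ 2) ^ k * (2 / 4 ^ k) := by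
              rw [div_pow]; ring
          _ ≤ _ := by
              rw [hτ]
              nlinarith
    calc ‖ψ (g * x) - 1‖ * ‖c g‖ * wt T g ^ k =
        ‖c g‖ * (‖ψ (g * x) - 1‖ * wt T g ^ k) := by ring
      _ ≤ _ := mul_le_mul_of_nonneg_left h3 (norm_nonneg _)
  have h3 : K * |F x - F 0| ≤ (K * M) * (((T.card : ℝ) ^ 2) ^ k * τ) := by
    have e1 : K * |F x - F 0| = ‖((K * (F x - F 0) : ℝ) : ℂ)‖ := by
      rw [Complex.norm_real, Real.norm_eq_abs, abs_mul, abs_of_pos hK]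
    rw [e1, h1]
    refine (norm_sum_le _ _).trans ((sum_le_sum fun g _ => h2 g).trans ?_)
    rw [← sum_mul]
    exact mul_le_mul_of_nonneg_right hc (by positivity)
  have h4 : av k T f x - av k T f 0 = (F x - F 0) / ((T.card : ℝ) ^ 2) ^ k := by
    unfold av
    rw [← sub_div]
  rw [h4, abs_div, abs_of_pos (show (0 : ℝ) < ((T.card : ℝ) ^ 2) ^ k by positivity),
    div_le_iff₀ (by positivity), ← hτ]
  have h5 : K * |F x - F 0| ≤ K * (M * τ * ((T.card : ℝ) ^ 2) ^ k) := by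
    calc K * |F x - F 0| ≤ (K * M) * (((T.card : ℝ) ^ 2) ^ k * τ) := h3
      _ = _ := by ring
  exact le_of_mul_le_mul_left h5 hK

lemma tele (k : ℕ) (T : Finset (ZMod N)) (hT : T.Nonempty) (p : ZMod N → ℝ) (η : ℝ)
    (hTT : ∀ t ∈ T, ∀ t' ∈ T, ∀ v, |p (v + t - t') - p v| ≤ η) (v : ZMod N) :
    |av k T p v - p v| ≤ k * η := by
  have hTc : (0 : ℝ) < T.card := by exact_mod_cast hT.card_pos
  have ha : ∀ s ∈ Fintype.piFinset (fun _ : Fin k => T ×ˢ T), ∀ v : ZMod N,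
      ∀ I : Finset (Fin k), |p (v + ∑ i ∈ I, ((s i).1 - (s i).2)) - p v| ≤ I.card * η := by
    intro s hs v I
    rw [Fintype.mem_piFinset] at hs
    induction I using Finset.induction_on with
    | empty => simp
    | insert i I hi ih =>
      rw [Finset.sum_insert hi, Finset.card_insert_of_notMem hi]
      have h1 := hs i
      rw [Finset.mem_product] at h1
      have h2 := hTT _ h1.1 _ h1.2 (v + ∑ i ∈ I, ((s i).1 - (s i).2))
      have h3 : v + ((s i).1 - (s i).2 + ∑ i ∈ I, ((s i).1 - (s i).2)) =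
          v + ∑ i ∈ I, ((s i).1 - (s i).2) + (s i).1 - (s i).2 := by abel
      rw [h3]
      have h4 := abs_add_le (p (v + ∑ i ∈ I, ((s i).1 - (s i).2) + (s i).1 - (s i).2) -
        p (v + ∑ i ∈ I, ((s i).1 - (s i).2))) (p (v + ∑ i ∈ I, ((s i).1 - (s i).2)) - p v)
      rw [sub_add_sub_cancel] at h4
      push_cast
      linarith
  have hD : (0 : ℝ) < ((T.card : ℝ) ^ 2) ^ k := by positivity
  have hcard : ((Fintype.piFinset (fun _ : Fin k => T ×ˢ T)).card : ℝ) =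
      ((T.card : ℝ) ^ 2) ^ k := by
    rw [Fintype.card_piFinset]
    simp [Finset.card_product, sq]
  have h1 : av k T p v - p v = (∑ s ∈ Fintype.piFinset (fun _ : Fin k => T ×ˢ T),
      (p (v + ∑ i, ((s i).1 - (s i).2)) - p v)) / ((T.card : ℝ) ^ 2) ^ k := by
    unfold av
    rw [Finset.sum_sub_distrib, Finset.sum_const, nsmul_eq_mul, hcard, sub_div,
      mul_div_cancel_left₀ _ hD.ne']
  rw [h1, abs_div, abs_of_pos hD, div_le_iff₀ hD]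
  refine (Finset.abs_sum_le_sum_abs _ _).trans ?_
  have h2 : ∑ s ∈ Fintype.piFinset (fun _ : Fin k => T ×ˢ T),
      |p (v + ∑ i, ((s i).1 - (s i).2)) - p v| ≤
      ∑ s ∈ Fintype.piFinset (fun _ : Fin k => T ×ˢ T), (k * η) := by
    refine Finset.sum_le_sum fun s hs => ?_
    refine (ha s hs v univ).trans (le_of_eq ?_)
    rw [Finset.card_univ, Fintype.card_fin]
  refine h2.trans (le_of_eq ?_)
  rw [Finset.sum_const, nsmul_eq_mul, hcard, mul_comm]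

lemma ct_eq (X : Finset (ZMod N)) (x : ZMod N) : Pool.Agent.H566.KM.ct X x = cnt X x := by
  unfold Pool.Agent.H566.KM.ct cnt
  refine card_bij' (fun t _ => (t, t + x)) (fun p _ => p.1) ?_ ?_ ?_ ?_
  · intro t ht
    rw [mem_filter] at ht
    rw [mem_filter, mem_product]
    refine ⟨⟨ht.1, ht.2⟩, ?_⟩
    ring
  · intro p hp
    rw [mem_filter, mem_product] at hp
    rw [mem_filter]
    refine ⟨hp.1.1, ?_⟩
    have : p.1 + x = p.2 := by
      have := hp.2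
      linear_combination this
    rw [this]
    exact hp.1.2
  · intro t _
    rfl
  · intro p hp
    rw [mem_filter, mem_product] at hp
    have : p.1 + x = p.2 := by
      have := hp.2
      linear_combination this
    exact Prod.ext rfl this

end general

/-- almost periods of `PP` -/
lemma per {N : ℕ} [NeZero N] (A₁ A₂ X B : Finset (ZMod N)) (ℓ k : ℕ) (hℓ : 1 ≤ ℓ) (hk : 1 ≤ k)
    (h₁ : A₁.Nonempty) (h₂ : A₂.Nonempty) (hX : X.Nonempty)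
    (hB : (B.card : ℝ) ≤ 2 ^ ℓ * A₁.card) (hXA : ((X - A₂).card : ℝ) ≤ 2 ^ ℓ * A₂.card) :
    ∃ T ⊆ X, T.Nonempty ∧ (X.card : ℝ) ≤ 2 * (2 ^ ℓ) ^ (24 * ℓ * (2 ^ 12 * k) ^ 2) * T.card ∧
      ∀ t ∈ T, ∀ t' ∈ T, ∀ v, |PP A₁ A₂ B (v + t - t') - PP A₁ A₂ B v| ≤ 1 / (2 ^ 11 * k) := by
  obtain ⟨n, hn⟩ : ∃ n : ℕ, n = 24 * ℓ * (2 ^ 12 * k) ^ 2 := ⟨_, rfl⟩
  obtain ⟨ε, hε⟩ : ∃ ε : ℝ, ε = 1 / (2 ^ 12 * k) := ⟨_, rfl⟩
  have hk' : (1 : ℝ) ≤ k := by exact_mod_cast hk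
  have hε0 : 0 < ε := by rw [hε]; positivity
  have hcs := Pool.Agent.Y547.CS.t_CS Pool.Agent.Y836.CS.t_MZ (ZMod N) (-A₂) X B (2 ^ ℓ) ε n ℓ
    h₂.neg hX (one_le_pow₀ (by norm_num)) (by
      rw [card_neg]
      have e : -A₂ + X = X - A₂ := by rw [sub_eq_add_neg, add_comm]
      rw [e]
      exact hXA) hℓ (by
      rw [hn]
      have h1 : 1 ≤ (2 ^ 12 * k) ^ 2 := Nat.one_le_pow _ _ (by positivity)
      nlinarith) hε0 (by
      rw [hn, hε]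
      push_cast
      apply le_of_eq
      field_simp
      norm_num)
  obtain ⟨T, hTX, hXT, hTT⟩ := hcs
  have hXc : (0 : ℝ) < X.card := by exact_mod_cast hX.card_pos
  refine ⟨T, hTX, ?_, by rw [← hn]; exact hXT, ?_⟩
  · rw [Finset.nonempty_iff_ne_empty]
    rintro rfl
    have h1 : (X.card : ℝ) ≤ 0 := by simpa using hXT
    linarith
  · intro t ht t' ht' v
    have hAc : (0 : ℝ) < A₁.card := by exact_mod_cast h₁.card_pos
    let u : ZMod N → ℝ := fun a => |gg (-A₂) B (v + a + t - t') - gg (-A₂) B (v + a)|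
    have hu0 : ∀ a', 0 ≤ u a' := fun a' => abs_nonneg _
    have h1 : |PP A₁ A₂ B (v + t - t') - PP A₁ A₂ B v| ≤ ∑ a ∈ A₁, (1 / (A₁.card : ℝ)) * u a := by
      rw [PP_eq, PP_eq, ← sum_sub_distrib]
      refine (Finset.abs_sum_le_sum_abs _ _).trans (le_of_eq (Finset.sum_congr rfl fun a _ => ?_))
      rw [← mul_sub, abs_mul, abs_of_pos (by positivity : (0 : ℝ) < 1 / A₁.card)]
      show _ = 1 / (A₁.card : ℝ) * |gg (-A₂) B (v + a + t - t') - gg (-A₂) B (v + a)|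
      congr 4
      abel
    have h2 : (∑ a ∈ A₁, (1 / (A₁.card : ℝ)) * u a) ^ (2 * ℓ) ≤
        ∑ a ∈ A₁, (1 / (A₁.card : ℝ)) * u a ^ (2 * ℓ) := by
      refine Real.pow_arith_mean_le_arith_mean_pow A₁ (fun _ => 1 / (A₁.card : ℝ)) u
        (fun _ _ => by positivity) ?_ (fun a' _ => hu0 a') _
      rw [Finset.sum_const, nsmul_eq_mul, mul_one_div, div_self hAc.ne']
    have h3 : ∑ a ∈ A₁, u a ^ (2 * ℓ) ≤ ε ^ (2 * ℓ) * B.card := by
      refine le_trans ?_ (hTT t ht t' ht')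
      have h4 : ∑ a ∈ A₁, u a ^ (2 * ℓ) =
          ∑ z ∈ A₁.image (fun a => v + a), |gg (-A₂) B (z + t - t') - gg (-A₂) B z| ^ (2 * ℓ) := by
        rw [Finset.sum_image]
        intro a _ b _ hab
        exact add_right_injective v hab
      rw [h4]
      exact Finset.sum_le_sum_of_subset_of_nonneg (Finset.subset_univ _)
        (fun _ _ _ => by positivity)
    have h6 : |PP A₁ A₂ B (v + t - t') - PP A₁ A₂ B v| ^ (2 * ℓ) ≤
        (1 / (2 ^ 11 * (k : ℝ))) ^ (2 * ℓ) := by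
      calc |PP A₁ A₂ B (v + t - t') - PP A₁ A₂ B v| ^ (2 * ℓ)
          ≤ (∑ a ∈ A₁, (1 / (A₁.card : ℝ)) * u a) ^ (2 * ℓ) :=
            pow_le_pow_left₀ (abs_nonneg _) h1 _
        _ ≤ (1 / (A₁.card : ℝ)) * (ε ^ (2 * ℓ) * B.card) := by
            refine h2.trans ?_
            rw [← Finset.mul_sum]
            exact mul_le_mul_of_nonneg_left h3 (by positivity)
        _ ≤ (1 / (A₁.card : ℝ)) * (ε ^ (2 * ℓ) * (2 ^ ℓ * A₁.card)) := by gcongr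
        _ = ε ^ (2 * ℓ) * 2 ^ ℓ := by field_simp
        _ ≤ ε ^ (2 * ℓ) * 4 ^ ℓ := by gcongr; norm_num
        _ = (1 / (2 ^ 11 * (k : ℝ))) ^ (2 * ℓ) := by
            rw [pow_mul, pow_mul, ← mul_pow, hε]
            congr 1
            field_simp
            norm_num
    exact (pow_le_pow_iff_left₀ (abs_nonneg _) (by positivity) (by omega)).1 h6

theorem t_AP : Pool.Agent.H566.KM.S_AP := by
  obtain ⟨C₁, hC₁⟩ : ∃ C₁ : ℕ, C₁ = 2401 * 2 ^ 24 := ⟨_, rfl⟩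
  refine ⟨24 * C₁ + 100, ?_⟩
  intro N _ A₁ A₂ X B ℓ hℓ h₁ h₂ hX hB hXA
  obtain ⟨k, hk⟩ : ∃ k : ℕ, k = 2 * ℓ + 8 := ⟨_, rfl⟩
  obtain ⟨T, hTX, hT, hXT, hTT⟩ := per A₁ A₂ X B ℓ k hℓ (by omega) h₁ h₂ hX hB hXA
  obtain ⟨n, hn⟩ : ∃ n : ℕ, n = 24 * ℓ * (2 ^ 12 * k) ^ 2 := ⟨_, rfl⟩
  rw [← hn] at hXT
  obtain ⟨q, hq⟩ : ∃ q : ℕ, q = 1 + n * ℓ := ⟨_, rfl⟩
  obtain ⟨L, hL⟩ : ∃ L : ℕ, L = ℓ ^ 4 := ⟨_, rfl⟩
  have hL1 : 1 ≤ L := by rw [hL]; exact Nat.one_le_pow _ _ hℓ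
  have hℓL : ℓ ≤ L := by rw [hL]; exact Nat.le_self_pow (by norm_num) _
  have hqC : q ≤ C₁ * L := by
    have h1 : k ≤ 10 * ℓ := by omega
    have h2 : n * ℓ ≤ 24 * ℓ * (2 ^ 12 * (10 * ℓ)) ^ 2 * ℓ := by
      rw [hn]
      gcongr
    have h3 : 24 * ℓ * (2 ^ 12 * (10 * ℓ)) ^ 2 * ℓ = 2400 * 2 ^ 24 * L := by
      rw [hL]
      ring
    rw [h3] at h2
    rw [hq, hC₁]
    omega
  have hTc : (0 : ℝ) < T.card := by exact_mod_cast hT.card_pos
  have hXc : (0 : ℝ) < X.card := by exact_mod_cast hX.card_pos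
  have hexp : (X.card : ℝ) ≤ Real.exp (q : ℝ) * T.card := by
    refine hXT.trans (mul_le_mul_of_nonneg_right ?_ hTc.le)
    have h1 : (2 : ℝ) * (2 ^ ℓ) ^ n = 2 ^ q := by
      rw [hq, ← pow_mul, pow_add, pow_one, mul_comm ℓ n]
    have h2 : Real.exp (q : ℝ) = Real.exp 1 ^ q := by
      rw [← Real.exp_nat_mul, mul_one]
    rw [h1, h2]
    have := Real.exp_one_gt_d9
    exact pow_le_pow_left₀ (by norm_num) (by linarith) _
  obtain ⟨Λ, hΛ, hΛ2⟩ := Pool.Agent.Y455.CS.t_CHG Pool.Agent.Y162.CS.t_CHD N X T (q : ℝ)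
    (Nat.cast_nonneg _) hTX hT hexp
  have hΛc : Λ.card ≤ 8 * (C₁ + 1) * L := by
    have h1 : Λ.card ≤ 8 * (q + 1) := by exact_mod_cast hΛ
    nlinarith
  rw [← hL]
  refine ⟨Λ, ?_, ?_⟩
  · refine hΛc.trans (Nat.mul_le_mul_right _ ?_)
    omega
  intro x hx hcx
  rw [ct_eq] at hcx
  have h₁c : (0 : ℝ) < A₁.card := by exact_mod_cast h₁.card_pos
  have h₂c : (0 : ℝ) < A₂.card := by exact_mod_cast h₂.card_pos
  have hNp : (0 : ℝ) < N := Nat.cast_pos.mpr (NeZero.pos N)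
  have hexps : 2 * (8 * q + 9) + 1 + (ℓ + 12) ≤ (24 * C₁ + 100) * L := by nlinarith
  have hexps2 : 8 * (C₁ + 1) * L + (ℓ + 12) ≤ (24 * C₁ + 100) * L := by nlinarith
  obtain ⟨W, hW⟩ : ∃ W : ℕ, W = (24 * C₁ + 100) * L := ⟨_, rfl⟩
  rw [← hW] at hx hcx hexps hexps2
  have hstar : ∀ γ : ZMod N, (T.card : ℝ) ^ 2 ≤ 4 * wt T γ →
      ‖ψ (γ * x) - 1‖ ≤ 1 / 2 ^ (ℓ + 11) := by
    intro γ hγ
    obtain ⟨e, he, he2⟩ := hΛ2 γ hγ
    set r : ZMod N := γ - ∑ l ∈ Λ, (e l : ZMod N) * l with hr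
    have g1 : ‖ψ (r * x) - 1‖ ≤ 1 / 2 ^ (ℓ + 12) := by
      have h2 := shift X r x
      have h3 : Real.exp (-(8 * q + 9)) * X.card * ‖ψ (r * x) - 1‖ ≤
          2 * (1 / 2 ^ W * X.card) := by
        calc _ ≤ ‖∑ y ∈ X, ψ (r * y)‖ * ‖ψ (r * x) - 1‖ :=
              mul_le_mul_of_nonneg_right he2 (norm_nonneg _)
          _ ≤ _ := h2
          _ ≤ _ := by linarith
      have h4 : (1 / 4 ^ (8 * q + 9) : ℝ) ≤ Real.exp (-(8 * q + 9)) := by
        rw [Real.exp_neg, one_div]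
        apply inv_anti₀ (Real.exp_pos _)
        have h5 : Real.exp (8 * q + 9) = Real.exp 1 ^ (8 * q + 9) := by
          rw [← Real.exp_nat_mul, mul_one]
          push_cast
          rfl
        rw [h5]
        have := Real.exp_one_lt_d9
        exact pow_le_pow_left₀ (Real.exp_pos _).le (by linarith) _
      have h5 : (1 / 4 ^ (8 * q + 9) : ℝ) * ‖ψ (r * x) - 1‖ ≤ 2 * (1 / 2 ^ W) := by
        have h6 : ((1 / 4 ^ (8 * q + 9) : ℝ) * ‖ψ (r * x) - 1‖) * X.card ≤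
            (2 * (1 / 2 ^ W)) * X.card := by
          calc ((1 / 4 ^ (8 * q + 9) : ℝ) * ‖ψ (r * x) - 1‖) * X.card
              ≤ (Real.exp (-(8 * q + 9)) * ‖ψ (r * x) - 1‖) * X.card := by gcongr
            _ = Real.exp (-(8 * q + 9)) * X.card * ‖ψ (r * x) - 1‖ := by ring
            _ ≤ _ := h3
            _ = _ := by ring
        exact le_of_mul_le_mul_right h6 hXc
      have h7 : ‖ψ (r * x) - 1‖ ≤ 4 ^ (8 * q + 9) * (2 * (1 / 2 ^ W)) := by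
        have h8 : ‖ψ (r * x) - 1‖ = 4 ^ (8 * q + 9) * ((1 / 4 ^ (8 * q + 9) : ℝ) * ‖ψ (r * x) - 1‖) := by
          field_simp
        rw [h8]
        exact mul_le_mul_of_nonneg_left h5 (by positivity)
      refine h7.trans ?_
      have h9 : (4 : ℝ) ^ (8 * q + 9) * (2 * (1 / 2 ^ W)) = 2 ^ (2 * (8 * q + 9) + 1) / 2 ^ W := by
        have h10 : (2 : ℝ) ^ (2 * (8 * q + 9) + 1) = 4 ^ (8 * q + 9) * 2 := by
          rw [pow_add, pow_mul, pow_one]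
          norm_num
        rw [h10]
        ring
      rw [h9, div_le_div_iff₀ (by positivity) (by positivity), ← pow_add, one_mul]
      exact pow_le_pow_right₀ (by norm_num) hexps
    have g2 : ∑ l ∈ Λ, ‖ψ ((e l : ZMod N) * l * x) - 1‖ ≤ 1 / 2 ^ (ℓ + 12) := by
      have h3 : ∀ l ∈ Λ, ‖ψ ((e l : ZMod N) * l * x) - 1‖ ≤ 1 / 2 ^ W := by
        intro l hl'
        refine le_trans ?_ (hx l hl')
        have hcase : e l = -1 ∨ e l = 0 ∨ e l = 1 := by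
          have := abs_le.1 (he l)
          omega
        rcases hcase with h | h | h
        · rw [h]
          have : ((-1 : ℤ) : ZMod N) * l * x = -(l * x) := by push_cast; ring
          rw [this, norm_ψ_sub_one_neg]
        · rw [h]
          have : ((0 : ℤ) : ZMod N) * l * x = 0 := by push_cast; ring
          rw [this, ψ_zero, sub_self, norm_zero]
          exact norm_nonneg _
        · rw [h]
          have : ((1 : ℤ) : ZMod N) * l * x = l * x := by push_cast; ring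
          rw [this]
      refine (Finset.sum_le_sum h3).trans ?_
      rw [Finset.sum_const, nsmul_eq_mul]
      have h4 : (Λ.card : ℝ) ≤ 2 ^ (8 * (C₁ + 1) * L) := by
        have h5 : Λ.card ≤ 2 ^ (8 * (C₁ + 1) * L) := hΛc.trans Nat.lt_two_pow_self.le
        exact_mod_cast h5
      calc (Λ.card : ℝ) * (1 / 2 ^ W) ≤ 2 ^ (8 * (C₁ + 1) * L) * (1 / 2 ^ W) := by gcongr
        _ = 2 ^ (8 * (C₁ + 1) * L) / 2 ^ W := by ring
        _ ≤ 1 / 2 ^ (ℓ + 12) := by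
          rw [div_le_div_iff₀ (by positivity) (by positivity), ← pow_add, one_mul]
          exact pow_le_pow_right₀ (by norm_num) hexps2
    have g3 : γ * x = r * x + ∑ l ∈ Λ, (e l : ZMod N) * l * x := by
      rw [hr, sub_mul, Finset.sum_mul]
      ring
    rw [g3]
    refine (norm_ψ_sub_one_add _ _).trans ?_
    have g4 := (norm_ψ_sub_one_sum Λ fun l => (e l : ZMod N) * l * x).trans g2
    have g5 : (1 : ℝ) / 2 ^ (ℓ + 11) = 1 / 2 ^ (ℓ + 12) + 1 / 2 ^ (ℓ + 12) := by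
      rw [pow_succ _ (ℓ + 11)]
      field_simp
      norm_num
    rw [g5]
    exact add_le_add g1 g4
  have hK : 0 < N * ((A₁.card : ℝ) * A₂.card) := by positivity
  have hfou := fou k T hT (PP A₁ A₂ B) (N * ((A₁.card : ℝ) * A₂.card)) (2 ^ ℓ) (1 / 2 ^ (ℓ + 11))
    hK (by positivity) (c3 A₁ A₂ B) (PP_expand A₁ A₂ B h₁ h₂)
    (c3_sum A₁ A₂ B (2 ^ ℓ) (one_le_pow₀ (by norm_num)) hB) x hstar
  have hb := tele k T hT (PP A₁ A₂ B) (1 / (2 ^ 11 * k)) hTT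
  have hk0 : (0 : ℝ) < k := by
    have : 0 < k := by omega
    exact_mod_cast this
  have hkη : (k : ℝ) * (1 / (2 ^ 11 * k)) = 1 / 2048 := by
    field_simp
    norm_num
  rw [hkη] at hb
  have hnum : (2 : ℝ) ^ ℓ * (1 / 2 ^ (ℓ + 11) + 2 / 4 ^ k) ≤ 1 / 1024 := by
    have ha : (1 : ℝ) ≤ 2 ^ ℓ := one_le_pow₀ (by norm_num)
    have h1 : (4 : ℝ) ^ k = (2 ^ ℓ) ^ 4 * 2 ^ 16 := by
      rw [hk, show (4 : ℝ) = 2 ^ 2 by norm_num, ← pow_mul, ← pow_mul, ← pow_add]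
      congr 1
      ring
    have h2 : (2 : ℝ) ^ (ℓ + 11) = 2 ^ ℓ * 2 ^ 11 := pow_add _ _ _
    rw [h1, h2]
    obtain ⟨a, hadef⟩ : ∃ a : ℝ, a = 2 ^ ℓ := ⟨_, rfl⟩
    rw [← hadef] at ha ⊢
    have ha0 : 0 < a := by linarith
    have h3 : a * (1 / (a * 2 ^ 11) + 2 / (a ^ 4 * 2 ^ 16)) = 1 / 2 ^ 11 + 1 / (2 ^ 15 * a ^ 3) := by
      field_simp
    rw [h3]
    have h4 : (1 : ℝ) ≤ a ^ 3 := one_le_pow₀ ha
    have h5 : 1 / (2 ^ 15 * a ^ 3) ≤ 1 / (2 ^ 15 : ℝ) := by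
      apply one_div_le_one_div_of_le (by norm_num)
      nlinarith
    norm_num at h5 ⊢
    linarith
  have hfin : PP A₁ A₂ B x ≤ PP A₁ A₂ B 0 + 1 / 256 := by
    have h1 := hb x
    have h2 := hb 0
    have h3 := hfou.trans hnum
    rw [abs_le] at h1 h2 h3
    linarith [h1.1, h1.2, h2.1, h2.2, h3.1, h3.2]
  have hmul := mul_le_mul_of_nonneg_right hfin (by positivity : (0 : ℝ) ≤ A₁.card * A₂.card)
  unfold PP at hmul
  rw [add_mul, div_mul_cancel₀ _ (by positivity), div_mul_cancel₀ _ (by positivity)] at hmul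
  simpa using hmul

end Pool.Agent.H441.KM
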