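import Pool.Agent.H566.KTs

/-!
FC: Fourier comparison of a function and its smoothing.
-/

set_option autoImplicit false
set_option linter.unusedSectionVars false

namespace Pool.Agent.H289.KM

open Finset Pool.Agent.H566.KM

section

variable {N : ℕ} [NeZero N]

theorem ψ_norm (c : ZMod N) : ‖ψ c‖ = 1 := AddChar.norm_apply _ _

theorem ψ_add (a b : ZMod N) : ψ (a + b) = ψ a * ψ b := AddChar.map_add_eq_mul _ _ _

theorem ψ_neg (a : ZMod N) : ψ (-a) = (starRingEnd ℂ) (ψ a) := AddChar.map_neg_eq_conj _ _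

theorem ψ_zero : ψ (0 : ZMod N) = 1 := AddChar.map_zero_eq_one _

theorem ψ_orth (z : ZMod N) : ∑ γ : ZMod N, ψ (γ * z) = if z = 0 then (N : ℂ) else 0 := by
  have h := AddChar.sum_mulShift (R := ZMod N) (R' := ℂ) z (ZMod.isPrimitive_stdAddChar N)
  rw [ZMod.card] at h
  exact_mod_cast h

/-- the transform of the doubled set -/
noncomputable def SS (A : Finset (ZMod N)) (γ : ZMod N) : ℂ := ∑ m ∈ A, ψ (-(γ * (m + m)))

/-- the transform of the measure on `B` -/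
noncomputable def mu (B : Finset (ZMod N)) (γ : ZMod N) : ℂ :=
  (∑ b ∈ B, ψ (-(γ * b))) / (B.card : ℂ)

theorem inv_form (g : ZMod N → ℝ) (A : Finset (ZMod N)) :
    (N : ℂ) * ((∑ m ∈ A, cvl g (m + m) : ℝ) : ℂ) = ∑ γ, fh g γ ^ 2 * SS A γ := by
  have h1 : ∀ γ : ZMod N, fh g γ ^ 2 * SS A γ =
      ∑ m ∈ A, ∑ s, ∑ t, ((g s : ℂ) * (g t : ℂ)) * ψ (γ * (s + t - (m + m))) := by
    intro γ
    unfold fh SS
    rw [sq, Finset.sum_mul_sum, Finset.mul_sum]
    refine Finset.sum_congr rfl fun m _ => ?_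
    rw [Finset.sum_mul]
    refine Finset.sum_congr rfl fun s _ => ?_
    rw [Finset.sum_mul]
    refine Finset.sum_congr rfl fun t _ => ?_
    have e : γ * (s + t - (m + m)) = γ * s + (γ * t + -(γ * (m + m))) := by ring
    rw [e, ψ_add, ψ_add]
    ring
  rw [Finset.sum_congr rfl fun γ _ => h1 γ, Finset.sum_comm]
  push_cast
  rw [Finset.mul_sum]
  refine Finset.sum_congr rfl fun m _ => ?_
  rw [Finset.sum_comm]
  unfold cvl
  push_cast
  rw [Finset.mul_sum]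
  refine Finset.sum_congr rfl fun s _ => ?_
  rw [Finset.sum_comm]
  have h2 : ∀ t : ZMod N, ∑ γ : ZMod N, ((g s : ℂ) * (g t : ℂ)) * ψ (γ * (s + t - (m + m))) =
      if t = m + m - s then ((g s : ℂ) * (g t : ℂ)) * N else 0 := by
    intro t
    rw [← Finset.mul_sum, ψ_orth]
    have : s + t - (m + m) = 0 ↔ t = m + m - s := by
      constructor
      · intro h
        have h3 : t = (s + t - (m + m)) + (m + m - s) := by ring
        rw [h3, h, zero_add]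
      · intro h
        rw [h]; ring
    simp only [this]
    split_ifs <;> simp
  rw [Finset.sum_congr rfl fun t _ => h2 t, Finset.sum_ite_eq' univ (m + m - s),
    if_pos (Finset.mem_univ _)]
  ring

theorem fh_shift (g : ZMod N → ℝ) (γ c : ZMod N) :
    ∑ z, (g (z + c) : ℂ) * ψ (γ * z) = fh g γ * ψ (-(γ * c)) := by
  unfold fh
  rw [Finset.sum_mul]
  refine Fintype.sum_equiv (Equiv.addRight c) _ _ fun z => ?_
  simp only [Equiv.coe_addRight]
  have e : γ * z = γ * (z + c) + -(γ * c) := by ring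
  rw [e, ψ_add]
  ring

theorem fh_smo (B : Finset (ZMod N)) (g : ZMod N → ℝ) (γ : ZMod N) :
    fh (smo B g) γ = fh g γ * mu B γ ^ 2 := by
  have h1 : fh (smo B g) γ =
      (∑ b ∈ B, ∑ b' ∈ B, ∑ z, (g (z + (b + b')) : ℂ) * ψ (γ * z)) / (B.card : ℂ) ^ 2 := by
    have e1 : fh (smo B g) γ = ∑ z, (∑ b ∈ B, ∑ b' ∈ B, (g (z + (b + b')) : ℂ) * ψ (γ * z)) /
        (B.card : ℂ) ^ 2 := by
      unfold fh smo
      refine Finset.sum_congr rfl fun z _ => ?_
      push_cast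
      rw [div_mul_eq_mul_div, Finset.sum_mul]
      congr 1
      refine Finset.sum_congr rfl fun b _ => ?_
      rw [Finset.sum_mul]
      refine Finset.sum_congr rfl fun b' _ => ?_
      rw [add_assoc]
    rw [e1, ← Finset.sum_div]
    congr 1
    rw [Finset.sum_comm]
    refine Finset.sum_congr rfl fun b _ => ?_
    rw [Finset.sum_comm]
  have h2 : ∀ b ∈ B, ∀ b' ∈ B, ∑ z, (g (z + (b + b')) : ℂ) * ψ (γ * z) =
      fh g γ * (ψ (-(γ * b)) * ψ (-(γ * b'))) := by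
    intro b _ b' _
    rw [fh_shift, ← ψ_add]
    congr 2
    ring
  have h3 : ∑ b ∈ B, ∑ b' ∈ B, ∑ z, (g (z + (b + b')) : ℂ) * ψ (γ * z) =
      fh g γ * (∑ b ∈ B, ψ (-(γ * b))) ^ 2 := by
    rw [sq, Finset.sum_mul_sum, Finset.mul_sum]
    refine Finset.sum_congr rfl fun b hb => ?_
    rw [Finset.mul_sum]
    exact Finset.sum_congr rfl fun b' hb' => h2 b hb b' hb'
  rw [h1, h3]
  unfold mu
  rw [div_pow, mul_div_assoc]

theorem mu_le (B : Finset (ZMod N)) (hB : B.Nonempty) (γ : ZMod N) : ‖mu B γ‖ ≤ 1 := by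
  have hc : (0 : ℝ) < B.card := by exact_mod_cast hB.card_pos
  unfold mu
  rw [norm_div, Complex.norm_natCast, div_le_one hc]
  refine (norm_sum_le _ _).trans ?_
  rw [Finset.sum_congr rfl fun b _ => ψ_norm _]
  simp

theorem mu_near (B : Finset (ZMod N)) (hB : B.Nonempty) (γ : ZMod N) (ε : ℝ)
    (h : ∀ b ∈ B, ‖ψ (γ * b) - 1‖ ≤ ε) : ‖1 - mu B γ‖ ≤ ε := by
  have hc : (0 : ℝ) < B.card := by exact_mod_cast hB.card_pos
  have hc' : (B.card : ℂ) ≠ 0 := by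
    have : B.card ≠ 0 := hB.card_pos.ne'
    exact_mod_cast this
  have e : 1 - mu B γ = (∑ b ∈ B, (1 - ψ (-(γ * b)))) / (B.card : ℂ) := by
    unfold mu
    rw [Finset.sum_sub_distrib, Finset.sum_const, nsmul_eq_mul, mul_one, sub_div, div_self hc']
  rw [e, norm_div, Complex.norm_natCast, div_le_iff₀ hc]
  refine (norm_sum_le _ _).trans ?_
  have h2 : ∀ b ∈ B, ‖1 - ψ (-(γ * b))‖ ≤ ε := by
    intro b hb
    have h3 : 1 - ψ (-(γ * b)) = (starRingEnd ℂ) (1 - ψ (γ * b)) := by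
      rw [map_sub, map_one, ψ_neg]
    rw [h3, RCLike.norm_conj, norm_sub_rev]
    exact h b hb
  refine (Finset.sum_le_card_nsmul _ _ _ h2).trans ?_
  rw [nsmul_eq_mul, mul_comm]

theorem one_sub_four (w : ℂ) (hw : ‖w‖ ≤ 1) : ‖1 - w ^ 4‖ ≤ 4 * ‖1 - w‖ ∧ ‖1 - w ^ 4‖ ≤ 2 := by
  constructor
  · have e : 1 - w ^ 4 = (1 - w) * (1 + w + w ^ 2 + w ^ 3) := by ring
    rw [e, norm_mul, mul_comm]
    apply mul_le_mul_of_nonneg_right _ (norm_nonneg _)
    have h1 : ‖w ^ 2‖ ≤ 1 := by rw [norm_pow]; exact pow_le_one₀ (norm_nonneg _) hw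
    have h2 : ‖w ^ 3‖ ≤ 1 := by rw [norm_pow]; exact pow_le_one₀ (norm_nonneg _) hw
    have h3 := norm_add_le (1 + w + w ^ 2) (w ^ 3)
    have h4 := norm_add_le (1 + w) (w ^ 2)
    have h5 := norm_add_le 1 w
    rw [norm_one] at h5
    linarith
  · have h1 : ‖w ^ 4‖ ≤ 1 := by rw [norm_pow]; exact pow_le_one₀ (norm_nonneg _) hw
    have h2 := norm_sub_le 1 (w ^ 4)
    rw [norm_one] at h2
    linarith

theorem SS_le (A : Finset (ZMod N)) (γ : ZMod N) : ‖SS A γ‖ ≤ N := by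
  unfold SS
  refine (norm_sum_le _ _).trans ?_
  rw [Finset.sum_congr rfl fun b _ => ψ_norm _]
  have h1 : A.card ≤ N := by
    have := Finset.card_le_univ A
    rwa [ZMod.card] at this
  simp only [Finset.sum_const, nsmul_eq_mul, mul_one]
  exact_mod_cast h1

theorem double_inj (hN : Odd N) {m m' : ZMod N} (h : m + m = m' + m') : m = m' := by
  have h2 : IsUnit ((2 : ℕ) : ZMod N) := by
    rw [ZMod.isUnit_iff_coprime]
    exact hN.coprime_two_left
  have h3 : ((2 : ℕ) : ZMod N) * m = ((2 : ℕ) : ZMod N) * m' := by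
    push_cast
    rw [two_mul, two_mul]
    exact h
  exact h2.mul_left_cancel h3

theorem SS_sum (hN : Odd N) (A : Finset (ZMod N)) : ∑ γ, ‖SS A γ‖ ^ 2 ≤ (N : ℝ) ^ 2 := by
  have h1 : ((∑ γ, ‖SS A γ‖ ^ 2 : ℝ) : ℂ) = (N : ℂ) * A.card := by
    push_cast
    have h2 : ∀ γ : ZMod N, ((‖SS A γ‖ : ℂ)) ^ 2 =
        ∑ m ∈ A, ∑ m' ∈ A, ψ (γ * (m' + m' - (m + m))) := by
      intro γ
      rw [← Complex.mul_conj']
      unfold SS
      rw [map_sum, Finset.sum_mul_sum]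
      refine Finset.sum_congr rfl fun m _ => ?_
      refine Finset.sum_congr rfl fun m' _ => ?_
      rw [← ψ_neg, ← ψ_add]
      congr 1
      ring
    rw [Finset.sum_congr rfl fun γ _ => h2 γ, Finset.sum_comm]
    have h3 : ∀ m ∈ A, ∑ γ : ZMod N, ∑ m' ∈ A, ψ (γ * (m' + m' - (m + m))) = N := by
      intro m hm
      rw [Finset.sum_comm]
      have h4 : ∀ m' ∈ A, ∑ γ : ZMod N, ψ (γ * (m' + m' - (m + m))) =
          if m' = m then (N : ℂ) else 0 := by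
        intro m' _
        rw [ψ_orth]
        have : m' + m' - (m + m) = 0 ↔ m' = m := by
          rw [sub_eq_zero]
          exact ⟨double_inj hN, fun h => by rw [h]⟩
        simp only [this]
      rw [Finset.sum_congr rfl h4, Finset.sum_ite_eq', if_pos hm]
    rw [Finset.sum_congr rfl h3]
    simp [mul_comm]
  have h2 : (∑ γ, ‖SS A γ‖ ^ 2 : ℝ) = (N : ℝ) * A.card := by exact_mod_cast h1
  rw [h2, sq]
  have h3 : A.card ≤ N := by
    have := Finset.card_le_univ A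
    rwa [ZMod.card] at this
  have h4 : (A.card : ℝ) ≤ N := by exact_mod_cast h3
  exact mul_le_mul_of_nonneg_left h4 (Nat.cast_nonneg _)

/-- the pointwise inequality -/
theorem pt (u s n ε θ : ℝ) (hu : 0 ≤ u) (hs : 0 ≤ s) (hsn : s ≤ n) (hε : 0 < ε)
    (hθ0 : 0 ≤ θ) (h : θ ≤ 4 * ε ∨ (θ ≤ 2 ∧ u ≤ ε ^ 2 * n)) :
    u ^ 2 * θ * s ≤ 4 * ε * (u ^ 3 + n * s ^ 2) := by
  have hn : 0 ≤ n := hs.trans hsn
  rcases h with h | ⟨h, h'⟩
  · have h1 : u ^ 2 * s ≤ u ^ 3 + s ^ 3 := by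
      rcases le_total u s with h2 | h2
      · have : u ^ 2 * s ≤ s ^ 2 * s := by gcongr
        have : 0 ≤ u ^ 3 := by positivity
        nlinarith
      · have : u ^ 2 * s ≤ u ^ 2 * u := by gcongr
        have : 0 ≤ s ^ 3 := by positivity
        nlinarith
    have h2 : s ^ 3 ≤ n * s ^ 2 := by
      have : s * s ^ 2 ≤ n * s ^ 2 := mul_le_mul_of_nonneg_right hsn (by positivity)
      nlinarith
    calc u ^ 2 * θ * s = θ * (u ^ 2 * s) := by ring
      _ ≤ (4 * ε) * (u ^ 3 + n * s ^ 2) :=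
        mul_le_mul h (by linarith) (by positivity) (by positivity)
  · have h1 : (u ^ 2 * s) ^ 2 ≤ (ε * ((u ^ 3 + n * s ^ 2) / 2)) ^ 2 := by
      have e1 : (u ^ 2 * s) ^ 2 = u * (u ^ 3 * s ^ 2) := by ring
      rw [e1]
      have h2 : u * (u ^ 3 * s ^ 2) ≤ (ε ^ 2 * n) * (u ^ 3 * s ^ 2) :=
        mul_le_mul_of_nonneg_right h' (by positivity)
      have h3 : u ^ 3 * (n * s ^ 2) ≤ ((u ^ 3 + n * s ^ 2) / 2) ^ 2 := by
        nlinarith [sq_nonneg (u ^ 3 - n * s ^ 2)]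
      have h4 : ε ^ 2 * (u ^ 3 * (n * s ^ 2)) ≤ ε ^ 2 * ((u ^ 3 + n * s ^ 2) / 2) ^ 2 :=
        mul_le_mul_of_nonneg_left h3 (by positivity)
      calc u * (u ^ 3 * s ^ 2) ≤ (ε ^ 2 * n) * (u ^ 3 * s ^ 2) := h2
        _ = ε ^ 2 * (u ^ 3 * (n * s ^ 2)) := by ring
        _ ≤ ε ^ 2 * ((u ^ 3 + n * s ^ 2) / 2) ^ 2 := h4
        _ = _ := by ring
    have h5 : 0 ≤ ε * ((u ^ 3 + n * s ^ 2) / 2) := by positivity
    have h6 := abs_le_of_sq_le_sq h1 h5
    rw [abs_of_nonneg (by positivity)] at h6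
    calc u ^ 2 * θ * s = θ * (u ^ 2 * s) := by ring
      _ ≤ 2 * (ε * ((u ^ 3 + n * s ^ 2) / 2)) := mul_le_mul h h6 (by positivity) (by norm_num)
      _ ≤ _ := by
        have : 0 ≤ ε * (u ^ 3 + n * s ^ 2) := by positivity
        linarith

end

theorem t_FC : S_FC := by
  intro N _ a Γ A ε C₀ hN ha hε hε1 hC0 hsum hΓ
  have hN0 : (0 : ℝ) < N := by exact_mod_cast Nat.pos_of_ne_zero (NeZero.ne N)
  set B := Bo Γ ε with hB
  have hBmem : ∀ b ∈ B, ∀ γ ∈ Γ, ‖ψ (γ * b) - 1‖ ≤ ε := by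
    intro b hb γ hγ
    rw [hB] at hb
    unfold Bo at hb
    rw [Finset.mem_filter] at hb
    exact hb.2 γ hγ
  have hBne : B.Nonempty := by
    refine ⟨0, ?_⟩
    rw [hB]
    unfold Bo
    rw [Finset.mem_filter]
    refine ⟨Finset.mem_univ _, fun l _ => ?_⟩
    rw [mul_zero, ψ_zero, sub_self, norm_zero]
    exact hε.le
  have h1 := inv_form (smo B a) A
  have h2 := inv_form a A
  set X := ∑ m ∈ A, cvl (smo B a) (m + m) with hX
  set Y := ∑ m ∈ A, cvl a (m + m) with hY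
  have h3 : (N : ℂ) * ((X - Y : ℝ) : ℂ) = ∑ γ, fh a γ ^ 2 * (mu B γ ^ 4 - 1) * SS A γ := by
    push_cast
    rw [mul_sub, h1, h2, ← Finset.sum_sub_distrib]
    refine Finset.sum_congr rfl fun γ _ => ?_
    rw [fh_smo]
    ring
  have h4 : (N : ℝ) * |X - Y| ≤ ∑ γ, 4 * ε * (‖fh a γ‖ ^ 3 + N * ‖SS A γ‖ ^ 2) := by
    have e1 : (N : ℝ) * |X - Y| = ‖(N : ℂ) * ((X - Y : ℝ) : ℂ)‖ := by
      rw [norm_mul, Complex.norm_natCast, Complex.norm_real, Real.norm_eq_abs]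
    rw [e1, h3]
    refine (norm_sum_le _ _).trans (Finset.sum_le_sum fun γ _ => ?_)
    rw [norm_mul, norm_mul, norm_pow, norm_sub_rev]
    have h5 := one_sub_four (mu B γ) (mu_le B hBne γ)
    refine pt _ _ _ _ _ (norm_nonneg _) (norm_nonneg _) (SS_le A γ) hε (norm_nonneg _) ?_
    by_cases hγ : γ ∈ Γ
    · left
      have h6 := mu_near B hBne γ ε fun b hb => hBmem b hb γ hγ
      linarith [h5.1]
    · right
      refine ⟨h5.2, ?_⟩
      by_contra hcon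
      push Not at hcon
      exact hγ (hΓ γ hcon.le)
  have h5 : ∑ γ, 4 * ε * (‖fh a γ‖ ^ 3 + N * ‖SS A γ‖ ^ 2) ≤
      4 * ε * (C₀ * (N : ℝ) ^ 3 + N * (N : ℝ) ^ 2) := by
    rw [← Finset.mul_sum, Finset.sum_add_distrib, ← Finset.mul_sum]
    have h6 := mul_le_mul_of_nonneg_left (SS_sum hN A) hN0.le
    apply mul_le_mul_of_nonneg_left _ (by positivity)
    linarith
  have h6 : (N : ℝ) * |X - Y| ≤ N * (5 * ε * (C₀ + 1) * (N : ℝ) ^ 2) := by
    refine (h4.trans h5).trans ?_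
    have : 0 ≤ ε * (C₀ + 1) * (N : ℝ) ^ 3 := by positivity
    nlinarith
  exact le_of_mul_le_mul_left h6 hN0

end Pool.Agent.H289.KM
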