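import Pool.Agent.H566.KTs

/-!
# Project KM (helper566): task FIN (helper441)
-/

set_option autoImplicit false

namespace Pool.Agent.H441.KM

open Finset Pool.Agent.H566.KM
open scoped Pointwise

lemma psi_norm {N : ℕ} [NeZero N] (a : ZMod N) : ‖ψ a‖ = 1 := by
  unfold ψ
  rw [ZMod.stdAddChar_apply]
  exact Circle.norm_coe _

lemma Bo_two {N : ℕ} [NeZero N] (Γ : Finset (ZMod N)) : Bo Γ 2 = univ := by
  ext x
  simp only [Bo, mem_filter, mem_univ, true_and, iff_true]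
  intro l _
  calc ‖ψ (l * x) - 1‖ ≤ ‖ψ (l * x)‖ + ‖(1 : ℂ)‖ := norm_sub_le _ _
    _ = 2 := by rw [psi_norm, norm_one]; norm_num

lemma bohr_size (h5 : S_DBL) (N : ℕ) [NeZero N] (Γ : Finset (ZMod N)) (e R : ℕ) (hR : Γ.card ≤ R) :
    (N : ℝ) ≤ 2 ^ (7 * (e + 2) * (R + 1)) * (Bo Γ (1 / 2 ^ e)).card := by
  have h : ∀ i : ℕ, (Bo Γ 2).card ≤ (81 ^ Γ.card) ^ i * (Bo Γ (2 / 2 ^ i)).card := by
    intro i
    induction i with
    | zero => simp
    | succ i ih =>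
      refine ih.trans ?_
      have h6 := h5 N Γ (2 / 2 ^ (i + 1)) (by positivity)
      have h7 : (2 : ℝ) * (2 / 2 ^ (i + 1)) = 2 / 2 ^ i := by
        rw [pow_succ]
        field_simp
      rw [h7] at h6
      calc (81 ^ Γ.card) ^ i * (Bo Γ (2 / 2 ^ i)).card
          ≤ (81 ^ Γ.card) ^ i * (81 ^ Γ.card * (Bo Γ (2 / 2 ^ (i + 1))).card) :=
            Nat.mul_le_mul_left _ h6
        _ = _ := by rw [pow_succ]; ring
  have h1 := h (e + 1)
  rw [Bo_two, card_univ, ZMod.card] at h1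
  have h2 : (2 : ℝ) / 2 ^ (e + 1) = 1 / 2 ^ e := by
    rw [pow_succ]
    field_simp
  rw [h2] at h1
  have h3 : (81 ^ Γ.card) ^ (e + 1) ≤ 2 ^ (7 * (e + 2) * (R + 1)) := by
    calc (81 ^ Γ.card) ^ (e + 1) = 81 ^ (Γ.card * (e + 1)) := by rw [pow_mul]
      _ ≤ (2 ^ 7) ^ (Γ.card * (e + 1)) := Nat.pow_le_pow_left (by norm_num) _
      _ = 2 ^ (7 * (Γ.card * (e + 1))) := (pow_mul 2 7 _).symm
      _ ≤ 2 ^ (7 * (e + 2) * (R + 1)) := by
        apply Nat.pow_le_pow_right (by norm_num)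
        have : Γ.card * (e + 1) ≤ (R + 1) * (e + 2) := Nat.mul_le_mul (by omega) (by omega)
        nlinarith
  have h4 : N ≤ 2 ^ (7 * (e + 2) * (R + 1)) * (Bo Γ (1 / 2 ^ e)).card :=
    h1.trans (Nat.mul_le_mul_right _ h3)
  exact_mod_cast h4

lemma nW_nonneg (W b x : ℕ) : 0 ≤ nW W b x := by
  unfold nW
  split_ifs with h
  · have : (1 : ℝ) ≤ ((W * x + b : ℕ) : ℝ) := by exact_mod_cast h.one_lt.le
    have := Real.log_nonneg this
    positivity
  · simp

lemma nW_le (W b x : ℕ) (hW : 0 < W) (h : (W * x + b).Prime) :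
    nW W b x ≤ Real.log ((W * x + b : ℕ) : ℝ) := by
  unfold nW
  rw [if_pos h]
  have h1 : (1 : ℝ) ≤ ((W * x + b : ℕ) : ℝ) := by exact_mod_cast h.one_lt.le
  have h2 := Real.log_nonneg h1
  have h3 : (W.totient : ℝ) / W ≤ 1 := by
    rw [div_le_one (by exact_mod_cast hW)]
    exact_mod_cast Nat.totient_le W
  calc (W.totient : ℝ) / W * Real.log ((W * x + b : ℕ) : ℝ) ≤ 1 * Real.log ((W * x + b : ℕ) : ℝ) :=
        mul_le_mul_of_nonneg_right h3 h2
    _ = _ := one_mul _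

lemma nz_nonneg (W b L : ℕ) (z : ZMod (4 * L + 1)) : 0 ≤ nz W b L z := by
  unfold nz
  split_ifs
  · exact nW_nonneg _ _ _
  · exact le_refl _

/-- the coloured weights -/
noncomputable def aw {K : ℕ} (W b L : ℕ) (χ : ℕ → Fin K) (i : Fin K) (z : ZMod (4 * L + 1)) : ℝ :=
  if χ (W * z.val + b) = i then nz W b L z else 0

lemma aw_nonneg {K : ℕ} (W b L : ℕ) (χ : ℕ → Fin K) (i : Fin K) (z : ZMod (4 * L + 1)) :
    0 ≤ aw W b L χ i z := by
  unfold aw
  split_ifs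
  · exact nz_nonneg _ _ _ _
  · exact le_refl _

lemma aw_le {K : ℕ} (W b L : ℕ) (χ : ℕ → Fin K) (i : Fin K) (z : ZMod (4 * L + 1)) :
    aw W b L χ i z ≤ nz W b L z := by
  unfold aw
  split_ifs
  · exact le_refl _
  · exact nz_nonneg _ _ _ _

lemma aw_sum {K : ℕ} (W b L : ℕ) (χ : ℕ → Fin K) (z : ZMod (4 * L + 1)) :
    ∑ i, aw W b L χ i z = nz W b L z := by
  unfold aw
  rw [sum_ite_eq univ (χ (W * z.val + b)) (fun _ => nz W b L z)]
  simp

/-- what a positive weight means -/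
lemma aw_pos {K : ℕ} (W b L : ℕ) (χ : ℕ → Fin K) (i : Fin K) (z : ZMod (4 * L + 1))
    (h : aw W b L χ i z ≠ 0) : χ (W * z.val + b) = i ∧ L < z.val ∧ z.val ≤ L + L ∧
      (W * z.val + b).Prime := by
  unfold aw at h
  split_ifs at h with h1
  · refine ⟨h1, ?_⟩
    unfold nz at h
    split_ifs at h with h2
    · rw [mem_Ioc] at h2
      refine ⟨h2.1, h2.2, ?_⟩
      unfold nW at h
      by_contra hp
      rw [if_neg hp] at h
      simp at h
    · exact absurd rfl h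
  · exact absurd rfl h

lemma aw_ub {K : ℕ} (W b L : ℕ) (χ : ℕ → Fin K) (i : Fin K) (z : ZMod (4 * L + 1)) (hW : 0 < W)
    (hL : 3 ≤ L) (hL2 : 2 * W + b ≤ L) : aw W b L χ i z ≤ 2 * Real.log L := by
  have hL1 : (1 : ℝ) ≤ L := by exact_mod_cast (by omega : 1 ≤ L)
  have hlog : 0 ≤ Real.log L := Real.log_nonneg hL1
  by_cases h : aw W b L χ i z = 0
  · rw [h]
    linarith
  · obtain ⟨h1, h2, h3, h4⟩ := aw_pos W b L χ i z h
    have h5 : aw W b L χ i z = nW W b z.val := by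
      unfold aw nz
      rw [if_pos h1, if_pos (by rw [mem_Ioc]; exact ⟨h2, h3⟩)]
    rw [h5]
    refine (nW_le W b z.val hW h4).trans ?_
    have h6 : W * z.val + b ≤ L ^ 2 := by
      calc W * z.val + b ≤ W * (L + L) + b * L := by
            have : b ≤ b * L := Nat.le_mul_of_pos_right b (by omega)
            have := Nat.mul_le_mul_left W h3
            omega
        _ = (2 * W + b) * L := by ring
        _ ≤ L * L := Nat.mul_le_mul_right _ hL2
        _ = L ^ 2 := by ring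
    have h7 : ((W * z.val + b : ℕ) : ℝ) ≤ (L : ℝ) ^ 2 := by exact_mod_cast h6
    calc Real.log ((W * z.val + b : ℕ) : ℝ) ≤ Real.log ((L : ℝ) ^ 2) :=
          Real.log_le_log (by exact_mod_cast h4.pos) h7
      _ = 2 * Real.log L := by rw [Real.log_pow]; norm_num

/-- one good `m` gives many representations of `W s + 2 b`, `s = (m + m).val` -/
lemma one_m {K : ℕ} (W b L e : ℕ) (χ : ℕ → Fin K) (i : Fin K) (m : ZMod (4 * L + 1)) (hW : 0 < W)
    (hL : 3 ≤ L) (hL2 : 2 * W + b ≤ L)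
    (hm : ((4 * L + 1 : ℕ) : ℝ) / 2 ^ e ≤ cvl (aw W b L χ i) (m + m)) :
    (m + m).val ∈ Ioc (2 * L) (4 * L) ∧
      1 / 2 ^ e * (L : ℝ) / Real.log L ^ 2 ≤ (rp χ (W * (m + m).val + 2 * b) : ℝ) := by
  classical
  set a := aw W b L χ i with ha
  set S : Finset (ZMod (4 * L + 1)) := univ.filter fun t => a t ≠ 0 ∧ a (m + m - t) ≠ 0 with hS
  have hlogL : 0 < Real.log L := by
    apply Real.log_pos
    exact_mod_cast (by omega : 1 < L)
  -- the values
  have hval : ∀ t ∈ S, t.val + (m + m - t).val = (m + m).val ∧ 2 * L < (m + m).val ∧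
      (m + m).val ≤ 4 * L := by
    intro t ht
    rw [hS, mem_filter] at ht
    obtain ⟨_, ht1, ht2⟩ := ht
    obtain ⟨_, h1, h2, _⟩ := aw_pos W b L χ i t ht1
    obtain ⟨_, h3, h4, _⟩ := aw_pos W b L χ i _ ht2
    have h5 : (t + (m + m - t)).val = t.val + (m + m - t).val := by
      apply ZMod.val_add_of_lt
      omega
    have h6 : t + (m + m - t) = m + m := by abel
    rw [h6] at h5
    omega
  have hc : cvl a (m + m) = ∑ t ∈ S, a t * a (m + m - t) := by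
    unfold cvl
    rw [hS]
    symm
    apply sum_filter_of_ne
    intro t _ ht
    exact ⟨left_ne_zero_of_mul ht, right_ne_zero_of_mul ht⟩
  have hc2 : cvl a (m + m) ≤ S.card * (4 * Real.log L ^ 2) := by
    rw [hc]
    calc ∑ t ∈ S, a t * a (m + m - t) ≤ ∑ t ∈ S, (4 * Real.log L ^ 2) := by
          apply sum_le_sum
          intro t _
          have h1 := aw_ub W b L χ i t hW hL hL2
          have h2 := aw_ub W b L χ i (m + m - t) hW hL hL2
          have h3 := aw_nonneg W b L χ i (m + m - t)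
          calc a t * a (m + m - t) ≤ (2 * Real.log L) * (2 * Real.log L) :=
                mul_le_mul h1 h2 h3 (by positivity)
            _ = _ := by ring
      _ = _ := by rw [sum_const, nsmul_eq_mul]
  have hpos : (0 : ℝ) < ((4 * L + 1 : ℕ) : ℝ) / 2 ^ e := by positivity
  have hSne : S.Nonempty := by
    rw [Finset.nonempty_iff_ne_empty]
    intro h0
    rw [h0, card_empty, Nat.cast_zero, zero_mul] at hc2
    linarith
  obtain ⟨t₀, ht₀⟩ := hSne
  obtain ⟨_, hv1, hv2⟩ := hval t₀ ht₀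
  refine ⟨by rw [mem_Ioc]; exact ⟨hv1, hv2⟩, ?_⟩
  -- injection
  have hinj : S.card ≤ rp χ (W * (m + m).val + 2 * b) := by
    unfold rp
    refine card_le_card_of_injOn (fun t => (W * t.val + b, W * (m + m - t).val + b)) ?_ ?_
    · intro t ht
      have ht' : t ∈ S := ht
      have hv := hval t ht'
      rw [hS, mem_filter] at ht'
      obtain ⟨_, ht1, ht2⟩ := ht'
      obtain ⟨c1, _, _, p1⟩ := aw_pos W b L χ i t ht1
      obtain ⟨c2, _, _, p2⟩ := aw_pos W b L χ i _ ht2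
      rw [mem_coe, mem_filter, HasAntidiagonal.mem_antidiagonal]
      refine ⟨?_, p1, p2, ?_⟩
      · show W * t.val + b + (W * (m + m - t).val + b) = W * (m + m).val + 2 * b
        rw [← hv.1]
        ring
      · show χ (W * t.val + b) = χ (W * (m + m - t).val + b)
        rw [c1, c2]
    · intro t _ t' _ htt
      simp only [Prod.mk.injEq] at htt
      have h1 : W * t.val = W * t'.val := by omega
      exact ZMod.val_injective _ (Nat.eq_of_mul_eq_mul_left hW h1)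
  have hfin : ((4 * L + 1 : ℕ) : ℝ) / 2 ^ e ≤
      (rp χ (W * (m + m).val + 2 * b) : ℝ) * (4 * Real.log L ^ 2) := by
    refine (hm.trans hc2).trans (mul_le_mul_of_nonneg_right ?_ (by positivity))
    exact_mod_cast hinj
  rw [div_le_iff₀ (by positivity)]
  have h8 : (4 : ℝ) * L ≤ ((4 * L + 1 : ℕ) : ℝ) := by
    push_cast
    linarith
  have h9 : (4 : ℝ) * L / 2 ^ e ≤ ((4 * L + 1 : ℕ) : ℝ) / 2 ^ e := by gcongr
  have h10 : 1 / 2 ^ e * (L : ℝ) = (4 * L / 2 ^ e) / 4 := by ring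
  rw [h10]
  linarith

theorem t_FIN (h1 : S_TR) (h2 : S_H3) (h3 : S_RES) (h4 : S_MAS) (h5 : S_DBL) : S_FIN := by
  classical
  obtain ⟨C₁, hC₁, hH3⟩ := h2
  obtain ⟨C₂, hC₂, hRES⟩ := h3
  obtain ⟨C₀, hC₀⟩ : ∃ C₀ : ℝ, C₀ = max C₁ C₂ := ⟨_, rfl⟩
  have h01 : C₁ ≤ C₀ := by rw [hC₀]; exact le_max_left _ _
  have h02 : C₂ ≤ C₀ := by rw [hC₀]; exact le_max_right _ _
  have h00 : 1 ≤ C₀ := hC₁.trans h01
  obtain ⟨C, hTR⟩ := h1 C₀ h00
  obtain ⟨D, hD⟩ : ∃ D : ℕ, 128 * C₀ ≤ D := exists_nat_ge _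
  refine ⟨2 * C + 6 + D, by omega, ?_⟩
  intro ℓ hℓ
  obtain ⟨e, R, he, hR, hT⟩ := hTR ℓ hℓ
  obtain ⟨j, hj⟩ : ∃ j : ℕ, j = e + C * ℓ ^ C + 6 := ⟨_, rfl⟩
  obtain ⟨k, hk⟩ : ∃ k : ℕ, k = 7 * (e + 2) * (R + 1) := ⟨_, rfl⟩
  have hk1 : 1 ≤ k := by
    rw [hk]
    nlinarith [Nat.zero_le e, Nat.zero_le R, Nat.zero_le (e * R)]
  have hkw : k ≤ 2 ^ j := by
    rw [hk, hj]
    have e1 : e + 2 ≤ 2 ^ (e + 2) := Nat.lt_two_pow_self.le
    have e2 : R + 1 ≤ 2 ^ (C * ℓ ^ C + 1) := by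
      rw [pow_succ]
      have : 1 ≤ 2 ^ (C * ℓ ^ C) := Nat.one_le_two_pow
      omega
    calc 7 * (e + 2) * (R + 1) ≤ 2 ^ 3 * 2 ^ (e + 2) * 2 ^ (C * ℓ ^ C + 1) :=
          Nat.mul_le_mul (Nat.mul_le_mul (by norm_num) e1) e2
      _ = 2 ^ (e + C * ℓ ^ C + 6) := by
        rw [← pow_add, ← pow_add]
        congr 1
        ring
  refine ⟨j, by omega, ?_, 1 / 2 ^ e, by positivity, ?_⟩
  · have e1 : 1 ≤ ℓ ^ C := Nat.one_le_pow _ _ hℓ
    have e2 : ℓ ^ C ≤ ℓ ^ (2 * C + 6 + D) := Nat.pow_le_pow_right hℓ (by omega)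
    calc j ≤ (2 * C + 6) * ℓ ^ C := by
          rw [hj]
          nlinarith
      _ ≤ (2 * C + 6 + D) * ℓ ^ (2 * C + 6 + D) := Nat.mul_le_mul (by omega) e2
  intro b hb1 hb2
  obtain ⟨W, hW⟩ : ∃ W : ℕ, W = pW (2 ^ j) := ⟨_, rfl⟩
  obtain ⟨L1, hL1⟩ := hH3 (2 ^ j) b k hk1 hkw hb1 hb2
  obtain ⟨L2, hL2⟩ := hRES (2 ^ j) b hb1 hb2
  obtain ⟨L3, hL3⟩ := h4 (2 ^ j) b hb1 hb2
  rw [← hW] at hb1 hb2 hL1 hL2 hL3 ⊢
  have hW0 : 0 < W := by omega
  refine ⟨L1 + L2 + L3 + (2 * W + b) + 3, ?_⟩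
  intro L hL K χ hK
  have hN0 : NeZero (4 * L + 1) := ⟨by omega⟩
  have hNr : (0 : ℝ) < ((4 * L + 1 : ℕ) : ℝ) := by positivity
  have hres := hT (4 * L + 1) K (aw W b L χ) ⟨2 * L, by ring⟩ hK (fun i z => aw_nonneg W b L χ i z)
    (by
      rw [sum_comm]
      simp only [aw_sum]
      exact hL3 L (by omega))
    (by
      intro i
      refine (hL2 L (by omega) (aw W b L χ i) (fun z => aw_nonneg W b L χ i z)
        (fun z => aw_le W b L χ i z)).trans ?_
      gcongr)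
    (by
      intro Γ hΓ
      have hb := bohr_size h5 (4 * L + 1) Γ e R hΓ
      rw [← hk] at hb
      simp only [aw_sum]
      refine (hL1 L (by omega) _ hb).trans ?_
      gcongr)
  set G : Finset (ZMod (4 * L + 1)) := univ.filter fun m : ZMod (4 * L + 1) =>
    ∃ i, ((4 * L + 1 : ℕ) : ℝ) / 2 ^ e ≤ cvl (aw W b L χ i) (m + m) with hG
  have hcard : G.card ≤ ((Ioc (2 * L) (4 * L)).filter fun s =>
        1 / 2 ^ e * (L : ℝ) / Real.log L ^ 2 ≤ (rp χ (W * s + 2 * b) : ℝ)).card := by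
    refine card_le_card_of_injOn (fun m => (m + m).val) ?_ ?_
    · intro m hm
      have hm' : m ∈ G := hm
      rw [hG, mem_filter] at hm'
      obtain ⟨_, i, hi⟩ := hm'
      have h := one_m W b L e χ i m hW0 (by omega) (by omega) hi
      rw [mem_coe, mem_filter]
      exact h
    · intro m _ m' _ hmm
      have h6 : m + m = m' + m' := ZMod.val_injective _ hmm
      have h7 : (2 : ZMod (4 * L + 1)) * (-(2 * (L : ZMod (4 * L + 1)))) = 1 := by
        have h8 : ((4 * L + 1 : ℕ) : ZMod (4 * L + 1)) = 0 := ZMod.natCast_self _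
        push_cast at h8
        linear_combination -h8
      have h9 : (2 : ZMod (4 * L + 1)) * (m - m') = 0 := by linear_combination h6
      have h10 : m - m' = 0 := by
        calc m - m' = (2 * (-(2 * (L : ZMod (4 * L + 1))))) * (m - m') := by rw [h7, one_mul]
          _ = (-(2 * (L : ZMod (4 * L + 1)))) * (2 * (m - m')) := by ring
          _ = 0 := by rw [h9, mul_zero]
      exact sub_eq_zero.1 h10
  have hcard' : (G.card : ℝ) ≤ (((Ioc (2 * L) (4 * L)).filter fun s =>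
        1 / 2 ^ e * (L : ℝ) / Real.log L ^ 2 ≤ (rp χ (W * s + 2 * b) : ℝ)).card : ℝ) := by
    exact_mod_cast hcard
  refine le_trans ?_ hcard'
  refine le_trans ?_ hres
  have h6 : (0 : ℝ) < 512 * C₀ := by linarith
  have h7 : (L : ℝ) / (((2 * C + 6 + D : ℕ)) : ℝ) ≤ L / (128 * C₀) := by
    apply div_le_div_of_nonneg_left (by positivity) (by linarith)
    push_cast
    have : (0 : ℝ) ≤ C := Nat.cast_nonneg _
    linarith
  refine h7.trans ?_
  have h8 : (L : ℝ) / (128 * C₀) = (4 * L) / (512 * C₀) := by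
    have : C₀ ≠ 0 := by linarith
    rw [div_eq_div_iff (by positivity) (by positivity)]
    ring
  rw [h8]
  apply div_le_div_of_nonneg_right _ h6.le
  push_cast
  linarith

end Pool.Agent.H441.KM
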