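import Mathlib
import Pool.Agent.H566.KTs

/-!
# Project KM (helper566): the lemma H3 (helper588)
-/

set_option autoImplicit false

namespace Pool.Agent.H588.KM

open Finset Pool.Agent.H566.KM

theorem GG_nonneg (w h : ℕ) : 0 ≤ GG w h := by
  unfold GG
  refine Finset.prod_nonneg fun p hp => inv_nonneg.2 ?_
  have hp1 : p.Prime := Nat.prime_of_mem_primeFactors (Finset.mem_filter.1 hp).1
  have h1 : (1 : ℝ) / p ≤ 1 := by
    rw [div_le_one (by exact_mod_cast hp1.pos)]
    exact_mod_cast hp1.one_lt.le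
  linarith

theorem nW_nonneg (W b x : ℕ) : 0 ≤ nW W b x := by
  unfold nW
  refine mul_nonneg (by positivity) ?_
  split_ifs with h
  · exact Real.log_nonneg (by exact_mod_cast h.one_lt.le)
  · exact le_rfl

theorem nW_le (W b x M : ℕ) (hM : W * x + b ≤ M) : nW W b x ≤ Real.log M := by
  unfold nW
  have h1 : ((W.totient : ℝ) / W) ≤ 1 :=
    div_le_one_of_le₀ (Nat.cast_le.2 (Nat.totient_le W)) (Nat.cast_nonneg W)
  have h2 : (if (W * x + b).Prime then Real.log ((W * x + b : ℕ) : ℝ) else 0) ≤ Real.log M := by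
    split_ifs with h
    · exact Real.log_le_log (by exact_mod_cast h.pos) (by exact_mod_cast hM)
    · exact Real.log_natCast_nonneg M
  have h3 : 0 ≤ (if (W * x + b).Prime then Real.log ((W * x + b : ℕ) : ℝ) else 0) := by
    split_ifs with h
    · exact Real.log_natCast_nonneg _
    · exact le_rfl
  calc _ ≤ 1 * (if (W * x + b).Prime then Real.log ((W * x + b : ℕ) : ℝ) else 0) :=
        mul_le_mul_of_nonneg_right h1 h3
    _ ≤ _ := by rw [one_mul]; exact h2

theorem nz_nonneg (W b L : ℕ) (z : ZMod (4 * L + 1)) : 0 ≤ nz W b L z := by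
  unfold nz
  split_ifs
  · exact nW_nonneg _ _ _
  · exact le_rfl

theorem sum_zmod (n : ℕ) (F : ℕ → ℝ) : ∑ z : ZMod (n + 1), F z.val = ∑ x ∈ range (n + 1), F x :=
  Fin.sum_univ_eq_sum_range F (n + 1)

theorem sum_ioc (L : ℕ) (F : ℕ → ℝ) :
    ∑ z : ZMod (4 * L + 1), (if z.val ∈ Ioc L (L + L) then F z.val else 0) =
      ∑ x ∈ Ioc L (L + L), F x := by
  rw [sum_zmod (4 * L) (fun x => if x ∈ Ioc L (L + L) then F x else 0), ← Finset.sum_filter]
  refine Finset.sum_congr ?_ fun _ _ => rfl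
  ext x
  simp only [Finset.mem_filter, Finset.mem_range, Finset.mem_Ioc]
  omega

theorem cor_neg (W b L : ℕ) (h : ZMod (4 * L + 1)) :
    cor (nz W b L) (-h) = cor (nz W b L) h := by
  unfold cor
  rw [← Equiv.sum_comp (Equiv.addRight h)]
  refine Finset.sum_congr rfl fun t _ => ?_
  rw [Equiv.coe_addRight, add_neg_cancel_right, mul_comm]

theorem cor_le (W b L : ℕ) (h : ZMod (4 * L + 1)) (hL : h.val < L) :
    cor (nz W b L) h ≤ ∑ x ∈ Ioc L (L + L), nW W b x * nW W b (x + h.val) := by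
  rw [← sum_ioc L (fun x => nW W b x * nW W b (x + h.val))]
  unfold cor
  refine Finset.sum_le_sum fun t _ => ?_
  unfold nz
  split_ifs with h1 h2 h2
  · rw [ZMod.val_add_of_lt (a := t) (b := h) (by
      rw [Finset.mem_Ioc] at h1
      omega)]
  · rw [mul_zero]
    exact mul_nonneg (nW_nonneg _ _ _) (nW_nonneg _ _ _)
  · rw [zero_mul]
  · rw [zero_mul]

theorem cor_zero (W b L : ℕ) (h : ZMod (4 * L + 1)) (h1 : L ≤ h.val)
    (h2 : L ≤ (-h).val) : cor (nz W b L) h = 0 := by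
  unfold cor
  refine Finset.sum_eq_zero fun t _ => ?_
  unfold nz
  split_ifs with h3 h4 h4
  · exfalso
    rw [Finset.mem_Ioc] at h3 h4
    have h5 : (t + h).val = (t.val + h.val) % (4 * L + 1) := ZMod.val_add t h
    have h6 : (-h).val = (4 * L + 1 - h.val) % (4 * L + 1) := ZMod.neg_val' h
    have h7 : h.val < 4 * L + 1 := ZMod.val_lt h
    have h8 : (-h).val ≤ 4 * L + 1 - h.val := by
      rw [h6]
      exact Nat.mod_le _ _
    rcases Nat.lt_or_ge (t.val + h.val) (4 * L + 1) with h9 | h9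
    · rw [Nat.mod_eq_of_lt h9] at h5
      omega
    · rw [Nat.mod_eq_sub_mod h9, Nat.mod_eq_of_lt (by omega)] at h5
      omega
  · rw [mul_zero]
  · rw [zero_mul]
  · rw [zero_mul]

theorem ct_neg {G : Type} [AddCommGroup G] [DecidableEq G] (B : Finset G) (h : G) :
    ct B (-h) = ct B h := by
  unfold ct
  refine Finset.card_bij (fun t _ => t + -h) ?_ ?_ ?_
  · intro t ht
    rw [Finset.mem_filter] at ht ⊢
    exact ⟨ht.2, by rw [neg_add_cancel_right]; exact ht.1⟩
  · intro t _ t' _ e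
    exact add_right_cancel e
  · intro t ht
    rw [Finset.mem_filter] at ht
    refine ⟨t + h, ?_, by rw [add_neg_cancel_right]⟩
    rw [Finset.mem_filter, add_neg_cancel_right]
    exact ⟨ht.2, ht.1⟩

theorem ct_le {G : Type} [AddCommGroup G] [DecidableEq G] (B : Finset G) (h : G) :
    ct B h ≤ B.card := Finset.card_filter_le _ _

theorem ct_zero {G : Type} [AddCommGroup G] [DecidableEq G] (B : Finset G) :
    ct B 0 = B.card := by
  unfold ct
  rw [Finset.filter_true_of_mem]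
  intro x hx
  rwa [add_zero]

theorem sum_ct {G : Type} [AddCommGroup G] [Fintype G] [DecidableEq G] (B : Finset G) :
    ∑ h, ct B h = B.card * B.card := by
  unfold ct
  simp_rw [Finset.card_filter]
  rw [Finset.sum_comm]
  have h1 : ∀ t ∈ B, ∑ h : G, (if t + h ∈ B then 1 else 0) = B.card := by
    intro t _
    rw [← Equiv.sum_comp (Equiv.addLeft (-t))]
    simp only [Equiv.coe_addLeft, add_neg_cancel_left]
    rw [Finset.sum_ite_mem, Finset.univ_inter, Finset.sum_const, smul_eq_mul, mul_one]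
  rw [Finset.sum_congr rfl h1, Finset.sum_const, smul_eq_mul]

/-- the weight -/
noncomputable def gw (w L j : ℕ) : ℝ := if j ∈ Ico 1 L then GG w j else 0

theorem gw_nonneg (w L j : ℕ) : 0 ≤ gw w L j := by
  unfold gw
  split_ifs
  · exact GG_nonneg _ _
  · exact le_rfl

/-- the mean of the weight -/
theorem sum_gw (h2 : S_GM) {w k L : ℕ} (hk : 1 ≤ k) (hkw : k ≤ w) (B : Finset (ZMod (4 * L + 1)))
    (hB : ((4 * L + 1 : ℕ) : ℝ) ≤ 2 ^ k * B.card) :
    ∑ h : ZMod (4 * L + 1), (ct B h : ℝ) * gw w L h.val ≤ 4 * (B.card : ℝ) ^ 2 := by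
  have hB0 : 0 < (B.card : ℝ) := by
    by_contra hne
    have h3 : (B.card : ℝ) = 0 := le_antisymm (not_lt.1 hne) (Nat.cast_nonneg _)
    rw [h3, mul_zero] at hB
    have h4 : (0 : ℝ) < ((4 * L + 1 : ℕ) : ℝ) := by exact_mod_cast Nat.succ_pos _
    linarith
  have h3 := Real.pow_arith_mean_le_arith_mean_pow Finset.univ
    (fun h : ZMod (4 * L + 1) => (ct B h : ℝ) / (B.card : ℝ) ^ 2) (fun h => gw w L h.val)
    (fun h _ => by positivity) (by
      rw [← Finset.sum_div, ← Nat.cast_sum, sum_ct, Nat.cast_mul, ← sq]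
      exact div_self (by positivity)) (fun h _ => gw_nonneg _ _ _) k
  have h4 : ∑ h : ZMod (4 * L + 1), (ct B h : ℝ) / (B.card : ℝ) ^ 2 * gw w L h.val ^ k ≤
      1 / (B.card : ℝ) * (8 * (L : ℝ)) := by
    calc ∑ h : ZMod (4 * L + 1), (ct B h : ℝ) / (B.card : ℝ) ^ 2 * gw w L h.val ^ k
        ≤ ∑ h : ZMod (4 * L + 1), 1 / (B.card : ℝ) * gw w L h.val ^ k := by
          refine Finset.sum_le_sum fun h _ => ?_
          refine mul_le_mul_of_nonneg_right ?_ (pow_nonneg (gw_nonneg _ _ _) _)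
          rw [div_le_div_iff₀ (by positivity) hB0, one_mul, sq]
          refine mul_le_mul_of_nonneg_right ?_ hB0.le
          exact_mod_cast ct_le B h
      _ = 1 / (B.card : ℝ) * ∑ x ∈ range (4 * L + 1), gw w L x ^ k := by
          rw [← Finset.mul_sum, sum_zmod (4 * L) (fun x => gw w L x ^ k)]
      _ ≤ 1 / (B.card : ℝ) * (8 * (L : ℝ)) := by
          refine mul_le_mul_of_nonneg_left ?_ (by positivity)
          refine le_trans ?_ (h2 w k L hk hkw)
          have h5 : ∀ x, gw w L x ^ k = if x ∈ Ico 1 L then GG w x ^ k else 0 := by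
            intro x
            unfold gw
            split_ifs
            · rfl
            · exact zero_pow (by omega)
          simp_rw [h5]
          rw [← Finset.sum_filter]
          refine Finset.sum_le_sum_of_subset_of_nonneg ?_ fun j _ _ => pow_nonneg (GG_nonneg _ _) _
          intro x hx
          simp only [Finset.mem_filter, Finset.mem_range, Finset.mem_Ico] at hx
          rw [Finset.mem_Icc]
          omega
  have h5 : 1 / (B.card : ℝ) * (8 * (L : ℝ)) ≤ (4 : ℝ) ^ k := by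
    rw [one_div, inv_mul_le_iff₀ hB0]
    have h6 : (4 : ℝ) ^ k = 2 ^ k * 2 ^ k := by
      rw [← mul_pow]
      norm_num
    have h7 : (2 : ℝ) ≤ 2 ^ k := by
      calc (2 : ℝ) = 2 ^ 1 := (pow_one _).symm
        _ ≤ 2 ^ k := pow_le_pow_right₀ (by norm_num) hk
    have h8 : ((4 * L + 1 : ℕ) : ℝ) = 4 * (L : ℝ) + 1 := by push_cast; ring
    rw [h8] at hB
    rw [h6]
    nlinarith [mul_le_mul_of_nonneg_left h7 (show (0 : ℝ) ≤ 2 ^ k * B.card by positivity)]
  have h6 : (∑ h : ZMod (4 * L + 1), (ct B h : ℝ) / (B.card : ℝ) ^ 2 * gw w L h.val) ^ k ≤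
      4 ^ k := h3.trans (h4.trans h5)
  have h7 : ∑ h : ZMod (4 * L + 1), (ct B h : ℝ) / (B.card : ℝ) ^ 2 * gw w L h.val ≤ 4 :=
    le_of_pow_le_pow_left₀ (by omega) (by norm_num) h6
  have h8 : ∑ h : ZMod (4 * L + 1), (ct B h : ℝ) / (B.card : ℝ) ^ 2 * gw w L h.val =
      (∑ h : ZMod (4 * L + 1), (ct B h : ℝ) * gw w L h.val) / (B.card : ℝ) ^ 2 := by
    rw [Finset.sum_div]
    exact Finset.sum_congr rfl fun h _ => by ring
  rw [h8, div_le_iff₀ (by positivity)] at h7
  exact h7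

theorem sum_gw_neg (h2 : S_GM) {w k L : ℕ} (hk : 1 ≤ k) (hkw : k ≤ w)
    (B : Finset (ZMod (4 * L + 1))) (hB : ((4 * L + 1 : ℕ) : ℝ) ≤ 2 ^ k * B.card) :
    ∑ h : ZMod (4 * L + 1), (ct B h : ℝ) * gw w L (-h).val ≤ 4 * (B.card : ℝ) ^ 2 := by
  rw [← Equiv.sum_comp (Equiv.neg (ZMod (4 * L + 1)))]
  simp only [Equiv.neg_apply, neg_neg, ct_neg]
  exact sum_gw h2 hk hkw B hB

theorem exists_log (W b k : ℕ) : ∃ L0 : ℕ, ∀ L : ℕ, L0 ≤ L →
    Real.log ((W * (L + L) + b : ℕ) : ℝ) ^ 2 * 2 ^ k ≤ L := by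
  have h1 := (Real.isLittleO_pow_log_id_atTop (n := 2))
  have hc : (0 : ℝ) < 1 / (2 ^ k * (2 * W + b + 1)) := by positivity
  have h2 := h1.def hc
  rw [Filter.eventually_atTop] at h2
  obtain ⟨x0, hx0⟩ := h2
  rcases Nat.eq_zero_or_pos W with hW | hW
  · refine ⟨⌈Real.log ((b : ℕ) : ℝ) ^ 2 * 2 ^ k⌉₊, fun L hL => ?_⟩
    subst hW
    rw [zero_mul, zero_add]
    exact (Nat.le_ceil _).trans (by exact_mod_cast hL)
  · refine ⟨max 1 ⌈x0⌉₊, fun L hL => ?_⟩
    have hL1 : 1 ≤ L := (le_max_left _ _).trans hL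
    have hL2 : x0 ≤ L := (Nat.le_ceil _).trans (by exact_mod_cast (le_max_right _ _).trans hL)
    have h3 : (L : ℝ) ≤ ((W * (L + L) + b : ℕ) : ℝ) := by
      have : L ≤ W * (L + L) + b := by nlinarith
      exact_mod_cast this
    have h4 := hx0 _ (hL2.trans h3)
    rw [Real.norm_of_nonneg (by positivity), id, Real.norm_of_nonneg (by positivity)] at h4
    have h5 : ((W * (L + L) + b : ℕ) : ℝ) ≤ (2 * W + b + 1) * L := by
      push_cast
      have : (1 : ℝ) ≤ L := by exact_mod_cast hL1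
      nlinarith [(Nat.cast_nonneg b : (0 : ℝ) ≤ b), (Nat.cast_nonneg W : (0 : ℝ) ≤ W)]
    calc Real.log ((W * (L + L) + b : ℕ) : ℝ) ^ 2 * 2 ^ k
        ≤ (1 / (2 ^ k * (2 * W + b + 1)) * ((2 * W + b + 1) * L)) * 2 ^ k := by
          refine mul_le_mul_of_nonneg_right (h4.trans ?_) (by positivity)
          exact mul_le_mul_of_nonneg_left h5 hc.le
      _ = L := by
          have h6 : (2 * (W : ℝ) + b + 1) ≠ 0 := by positivity
          field_simp

theorem t_H3 (h1 : S_PAIR) (h2 : S_GM) : S_H3 := by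
  obtain ⟨C, hC, hP⟩ := h1
  refine ⟨1 + 8 * C, by linarith, fun w b k hk hkw hb hbW => ?_⟩
  obtain ⟨L1, hL1⟩ := hP w b hb hbW
  obtain ⟨L2, hL2⟩ := exists_log (pW w) b k
  refine ⟨max L1 L2, fun L hL B hB => ?_⟩
  have hP1 := hL1 L ((le_max_left _ _).trans hL)
  have hlog := hL2 L ((le_max_right _ _).trans hL)
  have hB0 : 0 < (B.card : ℝ) := by
    by_contra hne
    have h3 : (B.card : ℝ) = 0 := le_antisymm (not_lt.1 hne) (Nat.cast_nonneg _)
    rw [h3, mul_zero] at hB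
    have h4 : (0 : ℝ) < ((4 * L + 1 : ℕ) : ℝ) := by exact_mod_cast Nat.succ_pos _
    linarith
  have hN : ((4 * L + 1 : ℕ) : ℝ) = 4 * (L : ℝ) + 1 := by push_cast; ring
  -- the diagonal term
  have hdiag : cor (nz (pW w) b L) 0 * (ct B 0 : ℝ) ≤
      ((4 * L + 1 : ℕ) : ℝ) * (B.card : ℝ) ^ 2 := by
    have h3 : cor (nz (pW w) b L) 0 ≤
        L * Real.log ((pW w * (L + L) + b : ℕ) : ℝ) ^ 2 := by
      have h4 := sum_ioc L (fun _ => Real.log ((pW w * (L + L) + b : ℕ) : ℝ) ^ 2)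
      rw [Finset.sum_const, Nat.card_Ioc, Nat.add_sub_cancel, nsmul_eq_mul] at h4
      rw [← h4]
      unfold cor
      refine Finset.sum_le_sum fun t _ => ?_
      rw [add_zero]
      unfold nz
      split_ifs with h5
      · have h6 : nW (pW w) b t.val ≤ Real.log ((pW w * (L + L) + b : ℕ) : ℝ) := by
          refine nW_le _ _ _ _ ?_
          have := (Finset.mem_Ioc.1 h5).2
          exact Nat.add_le_add_right (Nat.mul_le_mul_left _ this) _
        rw [sq]
        exact mul_self_le_mul_self (nW_nonneg _ _ _) h6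
      · rw [mul_zero]
    rw [ct_zero]
    have h5 : (L : ℝ) * Real.log ((pW w * (L + L) + b : ℕ) : ℝ) ^ 2 ≤
        ((4 * L + 1 : ℕ) : ℝ) * B.card := by
      have h6 : Real.log ((pW w * (L + L) + b : ℕ) : ℝ) ^ 2 ≤ B.card := by
        have h7 : (0 : ℝ) < 2 ^ k := by positivity
        have h8 : Real.log ((pW w * (L + L) + b : ℕ) : ℝ) ^ 2 * 2 ^ k ≤ B.card * 2 ^ k := by
          rw [hN] at hB
          linarith [(Nat.cast_nonneg L : (0 : ℝ) ≤ L)]
        exact le_of_mul_le_mul_right h8 h7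
      calc (L : ℝ) * Real.log ((pW w * (L + L) + b : ℕ) : ℝ) ^ 2 ≤ L * B.card :=
            mul_le_mul_of_nonneg_left h6 (Nat.cast_nonneg _)
        _ ≤ ((4 * L + 1 : ℕ) : ℝ) * B.card := by
            refine mul_le_mul_of_nonneg_right ?_ hB0.le
            rw [hN]
            linarith [(Nat.cast_nonneg L : (0 : ℝ) ≤ L)]
    calc cor (nz (pW w) b L) 0 * (B.card : ℝ) ≤ (((4 * L + 1 : ℕ) : ℝ) * B.card) * B.card :=
          mul_le_mul_of_nonneg_right (h3.trans h5) hB0.le
      _ = _ := by ring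
  -- the other terms
  have hoff : ∀ h : ZMod (4 * L + 1), h ≠ 0 → cor (nz (pW w) b L) h ≤
      C * L * (gw w L h.val + gw w L (-h).val) := by
    intro h hh
    have hv : 1 ≤ h.val := Nat.one_le_iff_ne_zero.2 fun e => hh ((ZMod.val_eq_zero h).1 e)
    have hv' : 1 ≤ (-h).val := Nat.one_le_iff_ne_zero.2 fun e =>
      hh (neg_eq_zero.1 ((ZMod.val_eq_zero (-h)).1 e))
    have hCL : 0 ≤ C * (L : ℝ) := mul_nonneg hC.le (Nat.cast_nonneg _)
    rcases Nat.lt_or_ge h.val L with h3 | h3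
    · have h4 := (cor_le (pW w) b L h h3).trans (hP1 h.val hv h3.le)
      have h5 : gw w L h.val = GG w h.val := by
        unfold gw
        rw [if_pos (Finset.mem_Ico.2 ⟨hv, h3⟩)]
      refine h4.trans (mul_le_mul_of_nonneg_left ?_ hCL)
      rw [h5]
      linarith [gw_nonneg w L (-h).val]
    · rcases Nat.lt_or_ge (-h).val L with h4 | h4
      · have h5 := (cor_le (pW w) b L (-h) h4).trans (hP1 (-h).val hv' h4.le)
        rw [cor_neg] at h5
        have h6 : gw w L (-h).val = GG w (-h).val := by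
          unfold gw
          rw [if_pos (Finset.mem_Ico.2 ⟨hv', h4⟩)]
        refine h5.trans (mul_le_mul_of_nonneg_left ?_ hCL)
        rw [h6]
        linarith [gw_nonneg w L h.val]
      · rw [cor_zero (pW w) b L h h3 h4]
        exact mul_nonneg hCL (add_nonneg (gw_nonneg _ _ _) (gw_nonneg _ _ _))
  have hrest : ∑ h ∈ Finset.univ.erase (0 : ZMod (4 * L + 1)),
      cor (nz (pW w) b L) h * (ct B h : ℝ) ≤ C * L * (8 * (B.card : ℝ) ^ 2) := by
    calc ∑ h ∈ Finset.univ.erase (0 : ZMod (4 * L + 1)), cor (nz (pW w) b L) h * (ct B h : ℝ)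
        ≤ ∑ h ∈ Finset.univ.erase (0 : ZMod (4 * L + 1)),
          C * L * ((ct B h : ℝ) * gw w L h.val + (ct B h : ℝ) * gw w L (-h).val) := by
          refine Finset.sum_le_sum fun h hh => ?_
          refine (mul_le_mul_of_nonneg_right (hoff h (Finset.ne_of_mem_erase hh))
            (Nat.cast_nonneg _)).trans (le_of_eq (by ring))
      _ ≤ ∑ h : ZMod (4 * L + 1),
          C * L * ((ct B h : ℝ) * gw w L h.val + (ct B h : ℝ) * gw w L (-h).val) := by
          refine Finset.sum_le_sum_of_subset_of_nonneg (Finset.erase_subset _ _) fun h _ _ => ?_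
          exact mul_nonneg (mul_nonneg hC.le (Nat.cast_nonneg _)) (add_nonneg
            (mul_nonneg (Nat.cast_nonneg _) (gw_nonneg _ _ _))
            (mul_nonneg (Nat.cast_nonneg _) (gw_nonneg _ _ _)))
      _ = C * L * (∑ h : ZMod (4 * L + 1), (ct B h : ℝ) * gw w L h.val +
          ∑ h : ZMod (4 * L + 1), (ct B h : ℝ) * gw w L (-h).val) := by
          rw [← Finset.mul_sum, Finset.sum_add_distrib]
      _ ≤ C * L * (8 * (B.card : ℝ) ^ 2) := by
          refine mul_le_mul_of_nonneg_left ?_ (mul_nonneg hC.le (Nat.cast_nonneg _))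
          linarith [sum_gw h2 hk hkw B hB, sum_gw_neg h2 hk hkw B hB]
  rw [← Finset.add_sum_erase _ _ (Finset.mem_univ (0 : ZMod (4 * L + 1)))]
  have hfin : C * L * (8 * (B.card : ℝ) ^ 2) ≤
      8 * C * ((4 * L + 1 : ℕ) : ℝ) * (B.card : ℝ) ^ 2 := by
    rw [hN]
    have h3 : 0 ≤ C * (B.card : ℝ) ^ 2 := by positivity
    nlinarith [mul_nonneg h3 (Nat.cast_nonneg (α := ℝ) L)]
  calc _ ≤ ((4 * L + 1 : ℕ) : ℝ) * (B.card : ℝ) ^ 2 + C * L * (8 * (B.card : ℝ) ^ 2) :=
        add_le_add hdiag hrest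
    _ ≤ ((4 * L + 1 : ℕ) : ℝ) * (B.card : ℝ) ^ 2 +
        8 * C * ((4 * L + 1 : ℕ) : ℝ) * (B.card : ℝ) ^ 2 := add_le_add le_rfl hfin
    _ = _ := by ring

end Pool.Agent.H588.KM
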