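import Pool.Agent.H566.KMs

/-!
# Project KM: density increment from sifting and almost periodicity
-/

set_option autoImplicit false

namespace Pool.Agent.H825.KM

open Finset Pool.Agent.H566.KM
open scoped Pointwise

theorem pow_small {Q : ℕ} (hQ : 240 ≤ Q) : 4 * (33 / 34 : ℝ) ^ Q ≤ 1 / 256 := by
  have h1 : (33 / 34 : ℝ) ^ Q ≤ (33 / 34) ^ 240 :=
    pow_le_pow_of_le_one (by norm_num) (by norm_num) hQ
  have h2 : (33 / 34 : ℝ) ^ 240 = ((33 / 34) ^ 24) ^ 10 := by rw [← pow_mul]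
  have h3 : (33 / 34 : ℝ) ^ 24 ≤ 1 / 2 := by norm_num
  have h4 : ((33 / 34 : ℝ) ^ 24) ^ 10 ≤ (1 / 2) ^ 10 := pow_le_pow_left₀ (by positivity) h3 10
  have h5 : (1 / 2 : ℝ) ^ 10 = 1 / 1024 := by norm_num
  rw [h2] at h1
  rw [h5] at h4
  linarith

theorem incr {G : Type} [AddCommGroup G] [DecidableEq G] (A₁ A₂ A T : Finset G)
    (θ : ℝ) (hθ : 0 ≤ θ) (hA₁ : A₁.Nonempty) (hA₂ : A₂.Nonempty) (hA : A.Nonempty)
    (hbad : ∀ x ∈ T, (((A₁ ×ˢ A₂).filter fun q => (ct A (x + q.1 - q.2) : ℝ) < θ).card : ℝ) ≤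
      1 / 128 * (A₁.card * A₂.card)) :
    ∃ t : G, 127 / 128 * θ * T.card ≤ A.card * ((A.filter fun a => a - t ∈ T).card : ℝ) := by
  classical
  -- a good pair
  have h1 : ∑ q ∈ A₁ ×ˢ A₂, ((T.filter fun x => (ct A (x + q.1 - q.2) : ℝ) < θ).card : ℝ) ≤
      ∑ q ∈ A₁ ×ˢ A₂, (1 / 128 * T.card : ℝ) := by
    have e1 : ∑ q ∈ A₁ ×ˢ A₂, ((T.filter fun x => (ct A (x + q.1 - q.2) : ℝ) < θ).card : ℝ) =
        ∑ x ∈ T, (((A₁ ×ˢ A₂).filter fun q => (ct A (x + q.1 - q.2) : ℝ) < θ).card : ℝ) := by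
      simp only [Finset.card_filter, Nat.cast_sum]
      exact Finset.sum_comm
    rw [e1]
    calc ∑ x ∈ T, (((A₁ ×ˢ A₂).filter fun q => (ct A (x + q.1 - q.2) : ℝ) < θ).card : ℝ)
        ≤ ∑ x ∈ T, (1 / 128 * (A₁.card * A₂.card) : ℝ) := Finset.sum_le_sum hbad
      _ = ∑ q ∈ A₁ ×ˢ A₂, (1 / 128 * T.card : ℝ) := by
        rw [Finset.sum_const, Finset.sum_const, Finset.card_product, nsmul_eq_mul, nsmul_eq_mul]
        push_cast
        ring
  obtain ⟨q, -, hq⟩ := Finset.exists_le_of_sum_le (hA₁.product hA₂) h1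
  -- many popular differences
  have h2 : 127 / 128 * θ * T.card ≤ ∑ x ∈ T, (ct A (x + q.1 - q.2) : ℝ) := by
    have h3 : ∑ x ∈ T, (θ - if (ct A (x + q.1 - q.2) : ℝ) < θ then θ else 0) ≤
        ∑ x ∈ T, (ct A (x + q.1 - q.2) : ℝ) := by
      refine Finset.sum_le_sum fun x _ => ?_
      split_ifs with h
      · rw [sub_self]; exact Nat.cast_nonneg _
      · rw [sub_zero]; exact not_lt.mp h
    refine le_trans ?_ h3
    rw [Finset.sum_sub_distrib, Finset.sum_const, nsmul_eq_mul, ← Finset.sum_filter,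
      Finset.sum_const, nsmul_eq_mul]
    have h4 := mul_le_mul_of_nonneg_right hq hθ
    nlinarith
  -- count by the first point
  have h5 : ∑ x ∈ T, (ct A (x + q.1 - q.2) : ℝ) =
      ∑ t ∈ A, ((A.filter fun a => a - (t + q.1 - q.2) ∈ T).card : ℝ) := by
    have e1 : ∀ t ∈ A, ((A.filter fun a => a - (t + q.1 - q.2) ∈ T).card : ℝ) =
        ((T.filter fun x => t + (x + q.1 - q.2) ∈ A).card : ℝ) := by
      intro t _
      congr 1
      refine Finset.card_bij' (fun a _ => a - (t + q.1 - q.2)) (fun x _ => t + (x + q.1 - q.2))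
        ?_ ?_ ?_ ?_
      · intro a ha
        rw [Finset.mem_filter] at ha ⊢
        refine ⟨ha.2, ?_⟩
        have : t + (a - (t + q.1 - q.2) + q.1 - q.2) = a := by abel
        rw [this]; exact ha.1
      · intro x hx
        rw [Finset.mem_filter] at hx ⊢
        refine ⟨hx.2, ?_⟩
        have : t + (x + q.1 - q.2) - (t + q.1 - q.2) = x := by abel
        rw [this]; exact hx.1
      · intro a _
        abel
      · intro x _
        abel
    rw [Finset.sum_congr rfl e1]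
    unfold ct
    simp only [Finset.card_filter, Nat.cast_sum]
    exact Finset.sum_comm
  have hA0 : (0 : ℝ) < A.card := by exact_mod_cast hA.card_pos
  have h6 : ∑ t ∈ A, (127 / 128 * θ * T.card / A.card : ℝ) ≤
      ∑ t ∈ A, ((A.filter fun a => a - (t + q.1 - q.2) ∈ T).card : ℝ) := by
    rw [← h5, Finset.sum_const, nsmul_eq_mul, mul_div_cancel₀ _ hA0.ne']
    exact h2
  obtain ⟨t, -, ht⟩ := Finset.exists_le_of_sum_le hA h6
  refine ⟨t + q.1 - q.2, ?_⟩
  rw [div_le_iff₀ hA0] at ht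
  linarith

theorem t_INC (h1 : S_SIFT) (h2 : S_AP) : S_INC := by
  obtain ⟨C, hC⟩ := h2
  refine ⟨C, ?_⟩
  intro N _ A D E X V α Q ℓ hα hα1 hA hD hE hX hV hℓ hQ h8 hDEV hXE hmom
  obtain ⟨w, A₁, A₂, hw, hA₂E, hA₁c, hA₂c, hbad⟩ := h1 (ZMod N) A D E α Q hα hA hD hE hmom
  have hαQ : 0 < α ^ Q := pow_pos hα Q
  have hDc : (0 : ℝ) < D.card := by exact_mod_cast hD.card_pos
  have hEc : (0 : ℝ) < E.card := by exact_mod_cast hE.card_pos
  have hAc : (0 : ℝ) < A.card := by exact_mod_cast hA.card_pos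
  have hA₁n : A₁.Nonempty := by
    rw [← Finset.card_pos]
    have : (0 : ℝ) < A₁.card := lt_of_lt_of_le (by positivity) hA₁c
    exact_mod_cast this
  have hA₂n : A₂.Nonempty := by
    rw [← Finset.card_pos]
    have : (0 : ℝ) < A₂.card := lt_of_lt_of_le (by positivity) hA₂c
    exact_mod_cast this
  have key : ∀ u v : ℝ, α ^ Q / 4 * u ≤ v → 0 ≤ u → 2 * u ≤ 2 ^ ℓ * v := by
    intro u v huv hu
    have e1 : (0 : ℝ) < 2 ^ ℓ := by positivity
    have e2 : 2 ^ ℓ * (α ^ Q / 4 * u) ≤ 2 ^ ℓ * v := mul_le_mul_of_nonneg_left huv e1.le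
    have e3 : 8 * (u / 4) ≤ α ^ Q * 2 ^ ℓ * (u / 4) :=
      mul_le_mul_of_nonneg_right h8 (by positivity)
    calc 2 * u = 8 * (u / 4) := by ring
      _ ≤ α ^ Q * 2 ^ ℓ * (u / 4) := e3
      _ = 2 ^ ℓ * (α ^ Q / 4 * u) := by ring
      _ ≤ _ := e2
  classical
  set B : Finset (ZMod N) := univ.filter fun x => x - w ∈ D - E + V ∧
    (ct A x : ℝ) < 33 / 32 * α * A.card with hB
  have hBc : (B.card : ℝ) ≤ 2 ^ ℓ * A₁.card := by
    have e1 : B.card ≤ (D - E + V).card := by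
      refine Finset.card_le_card_of_injOn (fun x => x - w) ?_ ?_
      · intro x hx
        have hx' : x ∈ B := hx
        rw [hB, Finset.mem_filter] at hx'
        exact hx'.2.1
      · intro x _ y _ hxy
        exact sub_left_injective hxy
    have e2 : (B.card : ℝ) ≤ ((D - E + V).card : ℝ) := by exact_mod_cast e1
    exact (e2.trans hDEV).trans (key _ _ hA₁c hDc.le)
  have hXc : ((X - A₂).card : ℝ) ≤ 2 ^ ℓ * A₂.card := by
    have e1 : (X - A₂).card ≤ (X - E).card := Finset.card_le_card (Finset.sub_subset_sub_left hA₂E)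
    have e2 : ((X - A₂).card : ℝ) ≤ ((X - E).card : ℝ) := by exact_mod_cast e1
    exact (e2.trans hXE).trans (key _ _ hA₂c hEc.le)
  obtain ⟨Λ, hΛ, hAP⟩ := hC N A₁ A₂ X B ℓ hℓ hA₁n hA₂n hX hBc hXc
  refine ⟨Λ, hΛ, ?_⟩
  intro T hT hTV hT1 hT2
  have hA₁₂ : (0 : ℝ) < A₁.card * A₂.card := by
    have e1 : (0 : ℝ) < A₁.card := by exact_mod_cast hA₁n.card_pos
    have e2 : (0 : ℝ) < A₂.card := by exact_mod_cast hA₂n.card_pos
    positivity
  have hθ : (0 : ℝ) ≤ 33 / 32 * α * A.card := by positivity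
  obtain ⟨t, ht⟩ := incr A₁ A₂ A T (33 / 32 * α * A.card) hθ hA₁n hA₂n hA (by
    intro x hx
    have e1 := hAP x (hT1 x hx) (hT2 x hx)
    have e2 : (((A₁ ×ˢ A₂).filter fun q => (ct A (x + q.1 - q.2) : ℝ) < 33 / 32 * α * A.card).card : ℝ) ≤
        (((A₁ ×ˢ A₂).filter fun q => x + q.1 - q.2 ∈ B).card : ℝ) := by
      have : ((A₁ ×ˢ A₂).filter fun q => (ct A (x + q.1 - q.2) : ℝ) < 33 / 32 * α * A.card).card ≤
          ((A₁ ×ˢ A₂).filter fun q => x + q.1 - q.2 ∈ B).card := by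
        apply Finset.card_le_card
        intro q hq
        rw [Finset.mem_filter] at hq ⊢
        refine ⟨hq.1, ?_⟩
        rw [hB, Finset.mem_filter]
        refine ⟨Finset.mem_univ _, ?_, hq.2⟩
        have e3 : x + q.1 - q.2 - w = (q.1 - w) - q.2 + x := by ring
        rw [e3]
        have hq1 := Finset.mem_product.mp hq.1
        exact Finset.add_mem_add (Finset.sub_mem_sub (hw _ hq1.1) (hA₂E hq1.2)) (hTV hx)
      exact_mod_cast this
    have e4 : (((A₁ ×ˢ A₂).filter fun q => q.1 - q.2 ∈ B).card : ℝ) ≤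
        (((A₁ ×ˢ A₂).filter fun q => (ct A (q.1 - q.2) : ℝ) < 33 / 32 * α * A.card).card : ℝ) := by
      have : ((A₁ ×ˢ A₂).filter fun q => q.1 - q.2 ∈ B).card ≤
          ((A₁ ×ˢ A₂).filter fun q => (ct A (q.1 - q.2) : ℝ) < 33 / 32 * α * A.card).card := by
        apply Finset.card_le_card
        intro q hq
        rw [Finset.mem_filter] at hq ⊢
        refine ⟨hq.1, ?_⟩
        have h := hq.2
        rw [hB, Finset.mem_filter] at h
        exact h.2.2
      exact_mod_cast this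
    have e5 := mul_le_mul_of_nonneg_right (pow_small hQ) hA₁₂.le
    linarith)
  refine ⟨t, ?_⟩
  have hTc : (0 : ℝ) ≤ T.card := Nat.cast_nonneg _
  have e1 : (A.card : ℝ) * (127 / 128 * (33 / 32) * α * T.card) ≤
      A.card * ((A.filter fun a => a - t ∈ T).card : ℝ) := by
    calc (A.card : ℝ) * (127 / 128 * (33 / 32) * α * T.card)
        = 127 / 128 * (33 / 32 * α * A.card) * T.card := by ring
      _ ≤ _ := ht
  have e2 := le_of_mul_le_mul_left e1 hAc
  have e3 : 0 ≤ α * T.card := by positivity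
  linarith

end Pool.Agent.H825.KM
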