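import Pool.Agent.H566.KMs

/-!
# KM-ITER: iteration
-/

set_option autoImplicit false

namespace Pool.Agent.H980.KM

open Finset Pool.Agent.H566.KM

variable {N : ℕ} [NeZero N]

theorem mem_Bo {Λ : Finset (ZMod N)} {ρ : ℝ} {x : ZMod N} :
    x ∈ Bo Λ ρ ↔ ∀ l ∈ Λ, ‖ψ (l * x) - 1‖ ≤ ρ := by
  unfold Bo
  simp

theorem zero_mem_Bo (Λ : Finset (ZMod N)) {ρ : ℝ} (hρ : 0 ≤ ρ) : (0 : ZMod N) ∈ Bo Λ ρ := by
  rw [mem_Bo]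
  intro l _
  rw [mul_zero]
  show ‖(ZMod.stdAddChar (0 : ZMod N) : ℂ) - 1‖ ≤ ρ
  rw [AddChar.map_zero_eq_one, sub_self, norm_zero]
  exact hρ

theorem Bo_two (Λ : Finset (ZMod N)) {ρ : ℝ} (hρ : 2 ≤ ρ) : Bo Λ ρ = univ := by
  rw [Finset.eq_univ_iff_forall]
  intro x
  rw [mem_Bo]
  intro l _
  refine le_trans (norm_sub_le _ _) ?_
  have h1 : ‖(ψ (l * x) : ℂ)‖ = 1 := AddChar.norm_apply _ _
  rw [h1, norm_one]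
  linarith

theorem Bo_empty (ρ : ℝ) : Bo (∅ : Finset (ZMod N)) ρ = univ := by
  rw [Finset.eq_univ_iff_forall]
  intro x
  rw [mem_Bo]
  intro l hl
  exact absurd hl (Finset.notMem_empty l)

theorem dbl_iter (h2 : S_DBL) (Λ : Finset (ZMod N)) (k : ℕ) {ρ : ℝ} (hρ : 0 < ρ) :
    (Bo Λ (2 ^ k * ρ)).card ≤ 81 ^ (Λ.card * k) * (Bo Λ ρ).card := by
  induction k with
  | zero => simp
  | succ k ih =>
    have h3 := h2 N Λ (2 ^ k * ρ) (by positivity)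
    have e : 2 * ((2 : ℝ) ^ k * ρ) = 2 ^ (k + 1) * ρ := by ring
    rw [e] at h3
    calc (Bo Λ (2 ^ (k + 1) * ρ)).card ≤ 81 ^ Λ.card * (Bo Λ (2 ^ k * ρ)).card := h3
      _ ≤ 81 ^ Λ.card * (81 ^ (Λ.card * k) * (Bo Λ ρ).card) := Nat.mul_le_mul_left _ ih
      _ = 81 ^ (Λ.card * (k + 1)) * (Bo Λ ρ).card := by ring

/-- the states of the iteration -/
def St (A : Finset (ZMod N)) (ℓ K : ℕ) (X : ℝ) (j : ℕ) : Prop :=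
  ∃ (Λ : Finset (ZMod N)) (ρ : ℝ) (t : ZMod N), Λ.card ≤ j * K ∧ 0 < ρ ∧ ρ ≤ 2 ∧
    1 ≤ X ^ j * ρ ∧ Rg Λ ρ (2 ^ (ℓ + 12)) ∧
    (1 + 1 / 1024) ^ j * (1 / 2 ^ ℓ) * ((Bo Λ ρ).card : ℝ) ≤
      ((A.filter fun a => a - t ∈ Bo Λ ρ).card : ℝ)

/-- the first alternative occurs -/
def Gd (A : Finset (ZMod N)) (ℓ K : ℕ) (X : ℝ) : Prop :=
  ∃ (Λ : Finset (ZMod N)) (ρ : ℝ), Λ.card ≤ 1024 * ℓ * K ∧ 0 < ρ ∧
    1 ≤ X ^ (1024 * ℓ + 1) * ρ ∧ ((Bo Λ ρ).card : ℝ) ^ 2 ≤ 2 ^ (8 * ℓ) * T3 A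

theorem St_zero {A : Finset (ZMod N)} {ℓ K : ℕ} {X : ℝ} (hA : (N : ℝ) ≤ 2 ^ ℓ * A.card) :
    St A ℓ K X 0 := by
  refine ⟨∅, 1, 0, by simp, one_pos, by norm_num, by simp, ?_, ?_⟩
  · unfold Rg
    rw [Bo_empty, Bo_empty]
    have h1 : (0 : ℝ) ≤ ((univ : Finset (ZMod N)).card : ℝ) := Nat.cast_nonneg _
    linarith
  · have h1 : A.filter (fun a => a - 0 ∈ Bo (∅ : Finset (ZMod N)) 1) = A := by
      apply Finset.filter_true_of_mem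
      intro a _
      rw [Bo_empty]
      exact Finset.mem_univ _
    rw [h1, Bo_empty, Finset.card_univ, ZMod.card, pow_zero, one_mul, one_div, inv_mul_le_iff₀
      (by positivity)]
    exact hA

theorem St_false {A : Finset (ZMod N)} {ℓ K : ℕ} {X : ℝ} (h : St A ℓ K X (1024 * ℓ + 1)) :
    False := by
  obtain ⟨Λ, ρ, t, -, hρ, -, -, -, hd⟩ := h
  have h1 : (A.filter fun a => a - t ∈ Bo Λ ρ).card ≤ (Bo Λ ρ).card := by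
    apply Finset.card_le_card_of_injOn (fun a => a - t)
    · intro a ha
      exact (Finset.mem_filter.1 ha).2
    · intro a _ b _ hab
      exact sub_left_injective hab
  have h2 : 0 < (Bo Λ ρ).card := Finset.card_pos.2 ⟨0, zero_mem_Bo Λ hρ.le⟩
  have h3 : (0 : ℝ) < ((Bo Λ ρ).card : ℝ) := by exact_mod_cast h2
  have h4 : ((A.filter fun a => a - t ∈ Bo Λ ρ).card : ℝ) ≤ ((Bo Λ ρ).card : ℝ) := by
    exact_mod_cast h1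
  have h5 : (1 + 1 / 1024 : ℝ) ^ (1024 * ℓ + 1) * (1 / 2 ^ ℓ) ≤ 1 := by
    by_contra hcon
    push Not at hcon
    have h6 := mul_lt_mul_of_pos_right hcon h3
    rw [one_mul] at h6
    linarith
  have h6 : (2 : ℝ) ^ ℓ ≤ (1 + 1 / 1024) ^ (1024 * ℓ) := by
    rw [pow_mul]
    apply pow_le_pow_left₀ (by norm_num)
    have h7 := one_add_mul_le_pow (a := (1 / 1024 : ℝ)) (by norm_num) 1024
    refine le_trans ?_ h7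
    norm_num
  have h7 : (2 : ℝ) ^ ℓ < (1 + 1 / 1024) ^ (1024 * ℓ + 1) := by
    rw [pow_succ]
    have h8 : (0 : ℝ) < 2 ^ ℓ := by positivity
    nlinarith
  rw [mul_one_div, div_le_one (by positivity)] at h5
  linarith

theorem St_step {c : ℕ} (hc : ∀ (N : ℕ) [NeZero N] (A Λ : Finset (ZMod N)) (ρ α : ℝ) (t : ZMod N)
    (ℓ : ℕ), Odd N → 1 ≤ ℓ → 0 < ρ → ρ ≤ 2 → 1 / 2 ^ ℓ ≤ α → Rg Λ ρ (2 ^ (ℓ + 12)) →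
    α * (Bo Λ ρ).card ≤ (A.filter fun a => a - t ∈ Bo Λ ρ).card →
    (∃ ρ' : ℝ, ρ ≤ 2 ^ (c * ℓ ^ 8) * ((Λ.card : ℝ) + 1) ^ c * ρ' ∧
      ((Bo Λ ρ').card : ℝ) ^ 2 ≤ 2 ^ (8 * ℓ) * T3 A) ∨
    ∃ (Λ' : Finset (ZMod N)) (ρ' : ℝ) (t' : ZMod N), Λ'.card ≤ Λ.card + c * ℓ ^ 8 ∧
      ρ ≤ 2 ^ (c * ℓ ^ 8) * ((Λ.card : ℝ) + 1) ^ c * ρ' ∧ ρ' ≤ 2 ∧ Rg Λ' ρ' (2 ^ (ℓ + 12)) ∧
      (1 + 1 / 1024) * α * (Bo Λ' ρ').card ≤ (A.filter fun a => a - t' ∈ Bo Λ' ρ').card)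
    {A : Finset (ZMod N)} {ℓ : ℕ} {X : ℝ} (hN : Odd N) (hℓ : 1 ≤ ℓ)
    (hX : X = 2 ^ (c * ℓ ^ 8) * ((1024 * ℓ * (c * ℓ ^ 8) : ℕ) + 1 : ℝ) ^ c) {j : ℕ}
    (hj : j ≤ 1024 * ℓ) (h : St A ℓ (c * ℓ ^ 8) X j) :
    Gd A ℓ (c * ℓ ^ 8) X ∨ St A ℓ (c * ℓ ^ 8) X (j + 1) := by
  obtain ⟨Λ, ρ, t, hΛ, hρ, hρ2, h1, hR, hd⟩ := h
  obtain ⟨K, hK⟩ : ∃ K : ℕ, K = c * ℓ ^ 8 := ⟨_, rfl⟩
  rw [← hK] at hX hΛ ⊢
  have hΛ2 : Λ.card ≤ 1024 * ℓ * K := hΛ.trans (Nat.mul_le_mul_right _ hj)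
  have hX1 : 1 ≤ X := by
    rw [hX]
    have h2 : (1 : ℝ) ≤ 2 ^ K := one_le_pow₀ (by norm_num)
    have h3 : (1 : ℝ) ≤ (((1024 * ℓ * K : ℕ) : ℝ) + 1) ^ c :=
      one_le_pow₀ (by
        have : (0 : ℝ) ≤ ((1024 * ℓ * K : ℕ) : ℝ) := Nat.cast_nonneg _
        linarith)
    calc (1 : ℝ) = 1 * 1 := by ring
      _ ≤ _ := mul_le_mul h2 h3 (by norm_num) (by positivity)
  have hX2 : 2 ^ K * ((Λ.card : ℝ) + 1) ^ c ≤ X := by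
    rw [hX]
    apply mul_le_mul_of_nonneg_left _ (by positivity)
    apply pow_le_pow_left₀ (by positivity)
    have h2 : (Λ.card : ℝ) ≤ ((1024 * ℓ * K : ℕ) : ℝ) := by exact_mod_cast hΛ2
    linarith
  have hY0 : 0 < 2 ^ K * ((Λ.card : ℝ) + 1) ^ c := by positivity
  have hpos : ∀ ρ' : ℝ, ρ ≤ 2 ^ K * ((Λ.card : ℝ) + 1) ^ c * ρ' →
      0 < ρ' ∧ 1 ≤ X ^ (j + 1) * ρ' := by
    intro ρ' h2
    have h3 : 0 < ρ' := by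
      by_contra hcon
      push Not at hcon
      have h4 : 2 ^ K * ((Λ.card : ℝ) + 1) ^ c * ρ' ≤ 0 :=
        mul_nonpos_of_nonneg_of_nonpos hY0.le hcon
      linarith
    refine ⟨h3, ?_⟩
    have h4 : ρ ≤ X * ρ' := h2.trans (mul_le_mul_of_nonneg_right hX2 h3.le)
    have h5 : X ^ j * ρ ≤ X ^ j * (X * ρ') :=
      mul_le_mul_of_nonneg_left h4 (pow_nonneg (by linarith) j)
    have h6 : X ^ j * (X * ρ') = X ^ (j + 1) * ρ' := by ring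
    linarith
  have hα : (1 : ℝ) / 2 ^ ℓ ≤ (1 + 1 / 1024) ^ j * (1 / 2 ^ ℓ) := by
    have h2 : (1 : ℝ) ≤ (1 + 1 / 1024) ^ j := one_le_pow₀ (by norm_num)
    have h3 : (0 : ℝ) < 1 / 2 ^ ℓ := by positivity
    nlinarith
  rcases hc N A Λ ρ ((1 + 1 / 1024) ^ j * (1 / 2 ^ ℓ)) t ℓ hN hℓ hρ hρ2 hα hR hd with
    ⟨ρ', h2, h3⟩ | ⟨Λ', ρ', t', h2, h3, h4, h5, h6⟩
  · left
    rw [← hK] at h2
    obtain ⟨h4, h5⟩ := hpos ρ' h2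
    refine ⟨Λ, ρ', hΛ2, h4, ?_, h3⟩
    refine h5.trans (mul_le_mul_of_nonneg_right ?_ h4.le)
    exact pow_le_pow_right₀ hX1 (by omega)
  · right
    rw [← hK] at h2 h3
    obtain ⟨h7, h8⟩ := hpos ρ' h3
    refine ⟨Λ', ρ', t', ?_, h7, h4, h8, h5, ?_⟩
    · calc Λ'.card ≤ Λ.card + K := h2
        _ ≤ j * K + K := Nat.add_le_add_right hΛ _
        _ = (j + 1) * K := by ring
    · have e : (1 + 1 / 1024 : ℝ) ^ (j + 1) * (1 / 2 ^ ℓ) =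
          (1 + 1 / 1024) * ((1 + 1 / 1024) ^ j * (1 / 2 ^ ℓ)) := by ring
      rw [e]
      exact h6

/-- the exponents -/
theorem expo {c ℓ : ℕ} (hℓ : 1 ≤ ℓ) :
    14 * (1024 * ℓ * (c * ℓ ^ 8)) *
      ((c * ℓ ^ 8 + c * (1024 * ℓ * (c * ℓ ^ 8) + 1)) * (1024 * ℓ + 1) + 1) + 8 * ℓ ≤
    (14 * 1024 * c * (1025 * (2 * c + 1024 * c ^ 2) + 1) + 8 + 19) *
      ℓ ^ (14 * 1024 * c * (1025 * (2 * c + 1024 * c ^ 2) + 1) + 8 + 19) := by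
  have hp : ∀ a b : ℕ, a ≤ b → ℓ ^ a ≤ ℓ ^ b := fun a b h => Nat.pow_le_pow_right hℓ h
  have h1 : c * ℓ ^ 8 + c * (1024 * ℓ * (c * ℓ ^ 8) + 1) ≤ (2 * c + 1024 * c ^ 2) * ℓ ^ 9 := by
    have e : c * ℓ ^ 8 + c * (1024 * ℓ * (c * ℓ ^ 8) + 1) =
        c * ℓ ^ 8 + 1024 * c ^ 2 * ℓ ^ 9 + c * ℓ ^ 0 := by ring
    rw [e]
    have h2 : c * ℓ ^ 8 ≤ c * ℓ ^ 9 := Nat.mul_le_mul_left _ (hp 8 9 (by norm_num))
    have h3 : c * ℓ ^ 0 ≤ c * ℓ ^ 9 := Nat.mul_le_mul_left _ (hp 0 9 (by norm_num))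
    have e2 : (2 * c + 1024 * c ^ 2) * ℓ ^ 9 = c * ℓ ^ 9 + 1024 * c ^ 2 * ℓ ^ 9 + c * ℓ ^ 9 := by
      ring
    rw [e2]
    omega
  have h2 : (c * ℓ ^ 8 + c * (1024 * ℓ * (c * ℓ ^ 8) + 1)) * (1024 * ℓ + 1) + 1 ≤
      (1025 * (2 * c + 1024 * c ^ 2) + 1) * ℓ ^ 10 := by
    have h3 : 1024 * ℓ + 1 ≤ 1025 * ℓ := by omega
    have h4 := Nat.mul_le_mul h1 h3
    have h5 : 1 ≤ ℓ ^ 10 := Nat.one_le_pow _ _ hℓ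
    have e : (2 * c + 1024 * c ^ 2) * ℓ ^ 9 * (1025 * ℓ) =
        1025 * (2 * c + 1024 * c ^ 2) * ℓ ^ 10 := by ring
    rw [e] at h4
    calc _ ≤ 1025 * (2 * c + 1024 * c ^ 2) * ℓ ^ 10 + ℓ ^ 10 := Nat.add_le_add h4 h5
      _ = _ := by ring
  have h3 : 14 * (1024 * ℓ * (c * ℓ ^ 8)) *
      ((c * ℓ ^ 8 + c * (1024 * ℓ * (c * ℓ ^ 8) + 1)) * (1024 * ℓ + 1) + 1) ≤
      14 * 1024 * c * (1025 * (2 * c + 1024 * c ^ 2) + 1) * ℓ ^ 19 := by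
    calc _ ≤ 14 * (1024 * ℓ * (c * ℓ ^ 8)) * ((1025 * (2 * c + 1024 * c ^ 2) + 1) * ℓ ^ 10) :=
        Nat.mul_le_mul_left _ h2
      _ = _ := by ring
  have h4 : 8 * ℓ ≤ 8 * ℓ ^ 19 := by
    have := hp 1 19 (by norm_num)
    rw [pow_one] at this
    omega
  obtain ⟨C1, hC1⟩ : ∃ C1 : ℕ, C1 = 14 * 1024 * c * (1025 * (2 * c + 1024 * c ^ 2) + 1) :=
    ⟨_, rfl⟩
  rw [← hC1] at h3 ⊢
  calc _ ≤ C1 * ℓ ^ 19 + 8 * ℓ ^ 19 := Nat.add_le_add h3 h4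
    _ = (C1 + 8) * ℓ ^ 19 := by ring
    _ ≤ (C1 + 8 + 19) * ℓ ^ (C1 + 8 + 19) :=
      Nat.mul_le_mul (by omega) (hp _ _ (by omega))

theorem t_KM (h1 : S_STEP) (h2 : S_DBL) : S_KM := by
  obtain ⟨c, hc⟩ := h1
  refine ⟨14 * 1024 * c * (1025 * (2 * c + 1024 * c ^ 2) + 1) + 8 + 19, ?_⟩
  intro N _ A ℓ hN hℓ hA
  have hA' : (N : ℝ) ≤ 2 ^ ℓ * A.card := by exact_mod_cast hA
  obtain ⟨X, hX⟩ : ∃ X : ℝ, X = 2 ^ (c * ℓ ^ 8) *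
    ((1024 * ℓ * (c * ℓ ^ 8) : ℕ) + 1 : ℝ) ^ c := ⟨_, rfl⟩
  have key : ∀ j : ℕ, j ≤ 1024 * ℓ + 1 → Gd A ℓ (c * ℓ ^ 8) X ∨ St A ℓ (c * ℓ ^ 8) X j := by
    intro j
    induction j with
    | zero =>
      intro _
      exact Or.inr (St_zero hA')
    | succ j ih =>
      intro hj
      rcases ih (by omega) with h3 | h3
      · exact Or.inl h3
      · exact St_step hc hN hℓ hX (by omega) h3
  rcases key _ le_rfl with h3 | h3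
  · obtain ⟨Λ, ρ, hΛ, hρ, h4, h5⟩ := h3
    have hX3 : X ≤ 2 ^ (c * ℓ ^ 8 + c * (1024 * ℓ * (c * ℓ ^ 8) + 1)) := by
      rw [hX, pow_add]
      apply mul_le_mul_of_nonneg_left _ (by positivity)
      rw [mul_comm c (1024 * ℓ * (c * ℓ ^ 8) + 1), pow_mul]
      apply pow_le_pow_left₀ (by positivity)
      have h6 : 1024 * ℓ * (c * ℓ ^ 8) + 1 ≤ 2 ^ (1024 * ℓ * (c * ℓ ^ 8) + 1) :=
        (Nat.lt_two_pow_self).le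
      have h7 : ((1024 * ℓ * (c * ℓ ^ 8) + 1 : ℕ) : ℝ) ≤
        ((2 ^ (1024 * ℓ * (c * ℓ ^ 8) + 1) : ℕ) : ℝ) := Nat.cast_le.2 h6
      rw [Nat.cast_pow, Nat.cast_add, Nat.cast_one] at h7
      exact h7
    have hX0 : 0 ≤ X := by rw [hX]; positivity
    obtain ⟨M, hM⟩ : ∃ M : ℕ, M = (c * ℓ ^ 8 + c * (1024 * ℓ * (c * ℓ ^ 8) + 1)) *
      (1024 * ℓ + 1) := ⟨_, rfl⟩
    have hX4 : X ^ (1024 * ℓ + 1) ≤ 2 ^ M := by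
      rw [hM, pow_mul]
      exact pow_le_pow_left₀ hX0 hX3 _
    have h6 : 2 ≤ 2 ^ (M + 1) * ρ := by
      have h7 : X ^ (1024 * ℓ + 1) * ρ ≤ 2 ^ M * ρ := mul_le_mul_of_nonneg_right hX4 hρ.le
      have e : (2 : ℝ) ^ (M + 1) * ρ = 2 * (2 ^ M * ρ) := by ring
      rw [e]
      linarith
    have h7 := dbl_iter h2 Λ (M + 1) hρ
    rw [Bo_two Λ h6, Finset.card_univ, ZMod.card] at h7
    have h8 : N ≤ 2 ^ (7 * (1024 * ℓ * (c * ℓ ^ 8) * (M + 1))) * (Bo Λ ρ).card := by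
      refine h7.trans (Nat.mul_le_mul_right _ ?_)
      calc 81 ^ (Λ.card * (M + 1)) ≤ (2 ^ 7) ^ (Λ.card * (M + 1)) :=
            Nat.pow_le_pow_left (by norm_num) _
        _ = 2 ^ (7 * (Λ.card * (M + 1))) := by rw [← pow_mul]
        _ ≤ _ := Nat.pow_le_pow_right (by norm_num)
            (Nat.mul_le_mul_left _ (Nat.mul_le_mul_right _ hΛ))
    have h9 : (N : ℝ) ≤ 2 ^ (7 * (1024 * ℓ * (c * ℓ ^ 8) * (M + 1))) * ((Bo Λ ρ).card : ℝ) := by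
      exact_mod_cast h8
    have h10 : (N : ℝ) ^ 2 ≤
        (2 ^ (7 * (1024 * ℓ * (c * ℓ ^ 8) * (M + 1))) * ((Bo Λ ρ).card : ℝ)) ^ 2 :=
      pow_le_pow_left₀ (Nat.cast_nonneg _) h9 2
    have h11 : ((2 : ℝ) ^ (7 * (1024 * ℓ * (c * ℓ ^ 8) * (M + 1))) * ((Bo Λ ρ).card : ℝ)) ^ 2 =
        2 ^ (14 * (1024 * ℓ * (c * ℓ ^ 8)) * (M + 1)) * ((Bo Λ ρ).card : ℝ) ^ 2 := by
      rw [mul_pow, ← pow_mul]
      congr 2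
      ring
    have h12 : (2 : ℝ) ^ (14 * (1024 * ℓ * (c * ℓ ^ 8)) * (M + 1)) * ((Bo Λ ρ).card : ℝ) ^ 2 ≤
        2 ^ (14 * (1024 * ℓ * (c * ℓ ^ 8)) * (M + 1)) * (2 ^ (8 * ℓ) * T3 A) :=
      mul_le_mul_of_nonneg_left h5 (by positivity)
    have h13 : (2 : ℝ) ^ (14 * (1024 * ℓ * (c * ℓ ^ 8)) * (M + 1)) * (2 ^ (8 * ℓ) * T3 A) =
        2 ^ (14 * (1024 * ℓ * (c * ℓ ^ 8)) * (M + 1) + 8 * ℓ) * T3 A := by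
      rw [pow_add]
      ring
    have h14 := expo (c := c) hℓ
    rw [← hM] at h14
    calc (N : ℝ) ^ 2 ≤ 2 ^ (14 * (1024 * ℓ * (c * ℓ ^ 8)) * (M + 1) + 8 * ℓ) * T3 A := by
          linarith
      _ ≤ _ := mul_le_mul_of_nonneg_right (pow_le_pow_right₀ (by norm_num) h14)
          (Nat.cast_nonneg _)
  · exact (St_false h3).elim

end Pool.Agent.H980.KM
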