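import Pool.Agent.H566.KMs

/-!
MOM: few solutions of `x + y = 2 m` make a high moment of the correlation large.
-/

set_option autoImplicit false
set_option linter.unusedSectionVars false

namespace Pool.Agent.H289.KM

open Finset Pool.Agent.H566.KM

section

variable {G : Type} [AddCommGroup G] [Fintype G] [DecidableEq G]

/-- indicator function -/
def ind (A : Finset G) (t : G) : ℝ := if t ∈ A then 1 else 0

theorem ind_nonneg (A : Finset G) (t : G) : 0 ≤ ind A t := by
  unfold ind; split_ifs <;> norm_num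

theorem ind_le_one (A : Finset G) (t : G) : ind A t ≤ 1 := by
  unfold ind; split_ifs <;> norm_num

theorem ind_mono {A B : Finset G} (h : A ⊆ B) (t : G) : ind A t ≤ ind B t := by
  unfold ind
  by_cases h1 : t ∈ A
  · rw [if_pos h1, if_pos (h h1)]
  · rw [if_neg h1]; split_ifs <;> norm_num

theorem sum_ind (A : Finset G) : ∑ t, ind A t = A.card := by
  unfold ind
  rw [Finset.sum_ite_mem, Finset.univ_inter]
  simp

theorem sum_shift (f : G → ℝ) (x : G) : ∑ t, f (t + x) = ∑ t, f t :=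
  Fintype.sum_equiv (Equiv.addRight x) _ _ fun _ => rfl

theorem sum_refl (f : G → ℝ) (x : G) : ∑ t, f (x - t) = ∑ t, f t :=
  Fintype.sum_equiv (Equiv.subLeft x) _ _ fun _ => rfl

theorem sum_sub_shift (f : G → ℝ) (x : G) : ∑ t, f (t - x) = ∑ t, f t :=
  Fintype.sum_equiv (Equiv.subRight x) _ _ fun _ => rfl

theorem cor_ind (A : Finset G) (x : G) : cor (ind A) x = ct A x := by
  unfold cor ct ind
  have h : ∀ t : G, (if t ∈ A then (1 : ℝ) else 0) * (if t + x ∈ A then 1 else 0) =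
      if t ∈ A then (if t + x ∈ A then (1 : ℝ) else 0) else 0 := by
    intro t
    split_ifs <;> simp
  rw [Finset.sum_congr rfl fun t _ => h t, Finset.sum_ite_mem, Finset.univ_inter,
    Finset.card_filter]
  push_cast
  rfl

/-- first mixed correlation -/
theorem low1 {A B : Finset G} (h : A ⊆ B) (x : G) :
    (A.card : ℝ) - (B.card - ct B x) ≤ ∑ t, ind A t * ind B (t + x) := by
  have h1 : ∀ t ∈ (univ : Finset G), ind B t * ind B (t + x) - ind B t ≤
      ind A t * ind B (t + x) - ind A t := by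
    intro t _
    have h2 := ind_mono h t
    have h3 := ind_le_one B (t + x)
    nlinarith
  have h2 := Finset.sum_le_sum h1
  rw [Finset.sum_sub_distrib, Finset.sum_sub_distrib, sum_ind, sum_ind] at h2
  have h3 := cor_ind B x
  unfold cor at h3
  rw [h3] at h2
  linarith

/-- second mixed correlation -/
theorem low2 {A B : Finset G} (h : A ⊆ B) (x : G) :
    (A.card : ℝ) - (B.card - ct B x) ≤ ∑ t, ind B t * ind A (t + x) := by
  have h1 : ∀ t ∈ (univ : Finset G), ind B t * ind B (t + x) - ind B (t + x) ≤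
      ind B t * ind A (t + x) - ind A (t + x) := by
    intro t _
    have h2 := ind_mono h (t + x)
    have h3 := ind_le_one B t
    nlinarith
  have h2 := Finset.sum_le_sum h1
  rw [Finset.sum_sub_distrib, Finset.sum_sub_distrib, sum_shift (ind A), sum_shift (ind B),
    sum_ind, sum_ind] at h2
  have h3 := cor_ind B x
  unfold cor at h3
  rw [h3] at h2
  linarith

theorem cor_le (B : Finset G) (x : G) : (ct B x : ℝ) ≤ B.card := by
  unfold ct
  exact_mod_cast Finset.card_filter_le _ _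

/-- the balanced function -/
def gg (A B : Finset G) (α : ℝ) (t : G) : ℝ := ind A t - α * ind B t

theorem cor_gg (A B : Finset G) (α : ℝ) (x : G) : cor (gg A B α) x =
    ct A x - α * (∑ t, ind A t * ind B (t + x)) - α * (∑ t, ind B t * ind A (t + x)) +
      α ^ 2 * ct B x := by
  rw [← cor_ind A x, ← cor_ind B x]
  unfold cor gg
  rw [Finset.mul_sum, Finset.mul_sum, Finset.mul_sum, ← Finset.sum_sub_distrib,
    ← Finset.sum_sub_distrib, ← Finset.sum_add_distrib]
  refine Finset.sum_congr rfl fun t _ => ?_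
  ring

theorem cvl_gg (A B : Finset G) (α : ℝ) (x : G) : cvl (gg A B α) x =
    cvl (ind A) x - α * (∑ t, ind A t * ind B (x - t)) - α * (∑ t, ind B t * ind A (x - t)) +
      α ^ 2 * cvl (ind B) x := by
  unfold cvl gg
  rw [Finset.mul_sum, Finset.mul_sum, Finset.mul_sum, ← Finset.sum_sub_distrib,
    ← Finset.sum_sub_distrib, ← Finset.sum_add_distrib]
  refine Finset.sum_congr rfl fun t _ => ?_
  ring

theorem ind_neg {B : Finset G} (hB : ∀ x ∈ B, -x ∈ B) (t : G) : ind B (-t) = ind B t := by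
  unfold ind
  have : -t ∈ B ↔ t ∈ B := ⟨fun h => by simpa using hB _ h, fun h => hB _ h⟩
  simp only [this]

theorem mix1 {A B : Finset G} (hB : ∀ x ∈ B, -x ∈ B) (x : G) :
    ∑ t, ind A t * ind B (x - t) = ∑ t, ind B t * ind A (t + x) := by
  rw [← sum_shift (fun t => ind A t * ind B (x - t)) x]
  refine Finset.sum_congr rfl fun t _ => ?_
  have : x - (t + x) = -t := by abel
  rw [this, ind_neg hB, mul_comm]

theorem mix2 {A B : Finset G} (hB : ∀ x ∈ B, -x ∈ B) (x : G) :
    ∑ t, ind B t * ind A (x - t) = ∑ t, ind B t * ind A (t + x) := by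
  rw [← mix1 hB x, ← sum_refl (fun t => ind A t * ind B (x - t)) x]
  refine Finset.sum_congr rfl fun t _ => ?_
  rw [sub_sub_cancel, mul_comm]

theorem cvl_le (B : Finset G) (x : G) : cvl (ind B) x ≤ B.card := by
  rw [← sum_ind B]
  unfold cvl
  refine Finset.sum_le_sum fun t _ => ?_
  have h1 := ind_nonneg B t
  have h2 := ind_le_one B (x - t)
  nlinarith

/-- the number of solutions -/
theorem sols (A₁ A₂ : Finset G) : ∑ m ∈ A₂, cvl (ind A₁) (m + m) =
    ((((A₁ ×ˢ A₁) ×ˢ A₂).filter fun q => q.1.1 + q.1.2 = q.2 + q.2).card : ℝ) := by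
  rw [Finset.card_filter, Finset.sum_product_right, Nat.cast_sum]
  refine Finset.sum_congr rfl fun m _ => ?_
  rw [Finset.sum_product, Nat.cast_sum]
  unfold cvl
  have h1 : ∀ t : G, ind A₁ t * ind A₁ (m + m - t) =
      if t ∈ A₁ then ind A₁ (m + m - t) else 0 := by
    intro t
    unfold ind
    split_ifs <;> simp
  rw [Finset.sum_congr rfl fun t _ => h1 t, Finset.sum_ite_mem, Finset.univ_inter]
  refine Finset.sum_congr rfl fun t _ => ?_
  have h2 : ∀ y : G, (if t + y = m + m then 1 else 0 : ℕ) = if y = m + m - t then 1 else 0 := by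
    intro y
    have : t + y = m + m ↔ y = m + m - t := by
      constructor
      · intro h; rw [← h]; abel
      · intro h; rw [h]; abel
    simp only [this]
  simp only [h2, Finset.sum_ite_eq']
  unfold ind
  split_ifs <;> simp

/-! ### the measure -/

theorem EE_nonneg (D E : Finset G) (x : G) : 0 ≤ EE D E x := by
  unfold EE; positivity

theorem sum_EE {D E : Finset G} (hD : D.Nonempty) (hE : E.Nonempty) : ∑ x, EE D E x = 1 := by
  unfold EE
  rw [← Finset.sum_div]
  have h1 : ∑ x, ((((D ×ˢ E).filter fun p => p.1 + p.2 = x).card : ℕ) : ℝ) = D.card * E.card := by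
    rw [← Nat.cast_sum, ← Nat.cast_mul, ← Finset.card_product]
    congr 1
    exact (Finset.card_eq_sum_card_fiberwise (f := fun p : G × G => p.1 + p.2)
      (s := D ×ˢ E) (t := univ) (fun _ _ => Finset.mem_coe.2 (Finset.mem_univ _))).symm
  rw [h1, div_self]
  have h2 : (0 : ℝ) < D.card := by exact_mod_cast hD.card_pos
  have h3 : (0 : ℝ) < E.card := by exact_mod_cast hE.card_pos
  positivity

theorem cor_nonneg {f : G → ℝ} (hf : ∀ x, 0 ≤ f x) (x : G) : 0 ≤ cor f x :=
  Finset.sum_nonneg fun t _ => mul_nonneg (hf t) (hf _)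

theorem sum_cor (f : G → ℝ) : ∑ x, cor f x = (∑ x, f x) ^ 2 := by
  unfold cor
  rw [Finset.sum_comm, sq, Finset.sum_mul]
  refine Finset.sum_congr rfl fun t _ => ?_
  rw [← Finset.mul_sum]
  congr 1
  rw [← sum_shift f t]
  exact Finset.sum_congr rfl fun x _ => by rw [add_comm]

end

theorem inner_mean {ι : Type} {s : Finset ι} (z : ι → ℝ) {p : ℕ} (hp : Even p)
    (hs : (0 : ℝ) < s.card) : ((∑ i ∈ s, z i) / s.card) ^ p ≤ (∑ i ∈ s, z i ^ p) / s.card := by
  have h := Real.pow_arith_mean_le_arith_mean_pow_of_even s (fun _ => 1 / (s.card : ℝ)) z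
    (fun i _ => by positivity) (by
      rw [Finset.sum_const, nsmul_eq_mul]
      field_simp) hp
  have e1 : ∑ i ∈ s, 1 / (s.card : ℝ) * z i = (∑ i ∈ s, z i) / s.card := by
    rw [← Finset.mul_sum]; ring
  have e2 : ∑ i ∈ s, 1 / (s.card : ℝ) * z i ^ p = (∑ i ∈ s, z i ^ p) / s.card := by
    rw [← Finset.mul_sum]; ring
  rw [e1, e2] at h
  exact h

theorem t_MOM (h1 : S_POS1) (h2 : S_POS2) (h3 : S_UNB) : S_MOM := by
  intro G _ _ _ B₁ B₂ A₁ A₂ D E V α₁ α₂ η p hA1 hA2 hB1 hB2 hD hE hα1 hα2 hc1 hc2 hsym hη0 hη hm hx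
    hinj hV hVm hsol hp hp6 hpow
  have hb1 : (0 : ℝ) < B₁.card := by exact_mod_cast hB1.card_pos
  have hb2 : (0 : ℝ) < B₂.card := by exact_mod_cast hB2.card_pos
  have ha2 : (0 : ℝ) < A₂.card := by rw [hc2]; positivity
  have hνn : ∀ x, 0 ≤ cor (EE D E) x := cor_nonneg (EE_nonneg D E)
  have hν1 : ∑ x, cor (EE D E) x = 1 := by rw [sum_cor, sum_EE hD hE, one_pow]
  set ν : G → ℝ := cor (EE D E) with hν
  set g : G → ℝ := gg A₁ B₁ α₁ with hg
  set M : ℝ := α₁ * A₁.card with hM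
  have hM' : M = α₁ ^ 2 * B₁.card := by rw [hM, hc1]; ring
  have hMpos : 0 < M := by rw [hM']; positivity
  have hη' : 2 * α₁ * η * B₁.card ≤ 1 / 18 * M := by
    rw [hM']
    nlinarith [mul_le_mul_of_nonneg_left hη (by positivity : 0 ≤ α₁ * (B₁.card : ℝ))]
  -- (iii)
  have hlowc : ∀ x, 0 < ν x → cor g x + 17 / 18 * M ≤ ct A₁ x := by
    intro x hx0
    have e1 := hx x hx0
    have e2 := low1 hA1 x
    have e3 := low2 hA1 x
    have e4 := cor_le B₁ x
    have e5 := cor_gg A₁ B₁ α₁ x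
    rw [← hg] at e5
    have e6 : α₁ * (A₁.card - η * B₁.card) ≤ α₁ * ∑ t, ind A₁ t * ind B₁ (t + x) :=
      mul_le_mul_of_nonneg_left (by linarith) hα1.le
    have e7 : α₁ * (A₁.card - η * B₁.card) ≤ α₁ * ∑ t, ind B₁ t * ind A₁ (t + x) :=
      mul_le_mul_of_nonneg_left (by linarith) hα1.le
    have e8 : α₁ ^ 2 * ct B₁ x ≤ α₁ ^ 2 * B₁.card := mul_le_mul_of_nonneg_left e4 (by positivity)
    rw [← hM'] at e8
    have e9 : α₁ * (A₁.card - η * B₁.card) = M - α₁ * η * B₁.card := by rw [hM]; ring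
    rw [e9] at e6 e7
    linarith
  -- (i)
  have hupc : ∀ m ∈ B₂, cvl g (m + m) ≤ cvl (ind A₁) (m + m) - 17 / 18 * M := by
    intro m hmB
    have e1 := hm m hmB
    have e3 := low2 hA1 (m + m)
    have e4 := cvl_le B₁ (m + m)
    have e5 := cvl_gg A₁ B₁ α₁ (m + m)
    rw [← hg, mix1 hsym, mix2 hsym] at e5
    have e7 : α₁ * (A₁.card - η * B₁.card) ≤ α₁ * ∑ t, ind B₁ t * ind A₁ (t + (m + m)) :=
      mul_le_mul_of_nonneg_left (by linarith) hα1.le
    have e8 : α₁ ^ 2 * cvl (ind B₁) (m + m) ≤ α₁ ^ 2 * B₁.card :=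
      mul_le_mul_of_nonneg_left e4 (by positivity)
    rw [← hM'] at e8
    have e9 : α₁ * (A₁.card - η * B₁.card) = M - α₁ * η * B₁.card := by rw [hM]; ring
    rw [e9] at e7
    linarith
  have hsum : ∑ m ∈ A₂, cvl g (m + m) ≤ -(4 / 9) * (M * A₂.card) := by
    have e1 : ∑ m ∈ A₂, cvl g (m + m) ≤ ∑ m ∈ A₂, (cvl (ind A₁) (m + m) - 17 / 18 * M) :=
      Finset.sum_le_sum fun m hmA => hupc m (hA2 hmA)
    rw [Finset.sum_sub_distrib, sols, Finset.sum_const, nsmul_eq_mul] at e1
    have e2 : 1 / 2 * α₁ * A₁.card * A₂.card = 1 / 2 * (M * A₂.card) := by rw [hM]; ring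
    rw [e2] at hsol
    linarith
  set h : G → ℝ := fun x => cvl g x / M with hh
  have hsumh : ∑ m ∈ A₂, h (m + m) ≤ -(4 / 9) * A₂.card := by
    rw [hh]
    simp only
    rw [← Finset.sum_div, div_le_iff₀ hMpos]
    linarith
  have hpm : (4 / 9 : ℝ) ^ p * A₂.card ≤ ∑ m ∈ A₂, h (m + m) ^ p := by
    have e1 := inner_mean (s := A₂) (fun m => h (m + m)) hp ha2
    have e2 : (4 / 9 : ℝ) ^ p ≤ ((∑ m ∈ A₂, h (m + m)) / A₂.card) ^ p := by
      rw [← Even.neg_pow hp ((∑ m ∈ A₂, h (m + m)) / A₂.card)]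
      apply pow_le_pow_left₀ (by norm_num)
      rw [← neg_div, le_div_iff₀ ha2]
      linarith
    have e3 := e2.trans e1
    rw [le_div_iff₀ ha2] at e3
    exact e3
  -- (ii)
  have hfib : ∀ m ∈ B₂, ∑ z ∈ V, ν (m + m - z) = 1 := by
    intro m hmB
    rw [← hν1, ← sum_refl ν (m + m)]
    apply Finset.sum_subset (Finset.subset_univ V)
    intro z _ hz
    by_contra hc
    have e1 : 0 < ν (m + m - z) := lt_of_le_of_ne (hνn _) (Ne.symm hc)
    have e2 := hVm m hmB _ e1
    rw [sub_sub_cancel] at e2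
    exact hz e2
  have hdouble : (4 / 9 : ℝ) ^ p * A₂.card ≤ ∑ z ∈ V, ∑ x, ν (x - z) * h x ^ p := by
    refine hpm.trans ?_
    rw [Finset.sum_comm]
    have e1 : ∑ m ∈ A₂, h (m + m) ^ p =
        ∑ x ∈ A₂.image (fun m => m + m), ∑ z ∈ V, ν (x - z) * h x ^ p := by
      rw [Finset.sum_image fun a ha b hb hab => hinj (hA2 ha) (hA2 hb) hab]
      refine Finset.sum_congr rfl fun m hmA => ?_
      rw [← Finset.sum_mul, hfib m (hA2 hmA), one_mul]
    rw [e1]
    apply Finset.sum_le_univ_sum_of_nonneg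
    intro x
    exact Finset.sum_nonneg fun z _ => mul_nonneg (hνn _) (hp.pow_nonneg _)
  have hz : ∃ z ∈ V, (1 / 4 : ℝ) ^ p ≤ ∑ x, ν (x - z) * h x ^ p := by
    by_contra hcon
    push Not at hcon
    have e1 : ∑ z ∈ V, ∑ x, ν (x - z) * h x ^ p ≤ V.card * (1 / 4 : ℝ) ^ p := by
      rw [← nsmul_eq_mul]
      exact Finset.sum_le_card_nsmul _ _ _ fun z hz => (hcon z hz).le
    have e2 : (V.card : ℝ) * (1 / 4 : ℝ) ^ p ≤ 2 * B₂.card * (1 / 4 : ℝ) ^ p :=
      mul_le_mul_of_nonneg_right hV (by positivity)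
    have e3 : (4 / 9 : ℝ) ^ p * (2 * (2 / 3 : ℝ) ^ p * B₂.card) ≤ (4 / 9 : ℝ) ^ p * A₂.card := by
      apply mul_le_mul_of_nonneg_left _ (by positivity)
      rw [hc2]
      apply mul_le_mul_of_nonneg_right _ hb2.le
      linarith
    have e4 : (4 / 9 : ℝ) ^ p * (2 * (2 / 3 : ℝ) ^ p * B₂.card) = 2 * B₂.card * (8 / 27) ^ p := by
      have : (8 / 27 : ℝ) ^ p = (4 / 9) ^ p * (2 / 3) ^ p := by
        rw [← mul_pow]; norm_num
      rw [this]; ring
    have e5 : (1 / 4 : ℝ) ^ p < (8 / 27) ^ p :=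
      pow_lt_pow_left₀ (by norm_num) (by norm_num) (by omega)
    have e6 : 2 * (B₂.card : ℝ) * (1 / 4) ^ p < 2 * B₂.card * (8 / 27) ^ p :=
      mul_lt_mul_of_pos_left e5 (by positivity)
    linarith
  obtain ⟨z, -, hz⟩ := hz
  set f : G → ℝ := fun x => cor g x / M with hf
  have hfp : (1 / 4 : ℝ) ^ p ≤ ∑ x, ν x * f x ^ p := by
    refine hz.trans ?_
    have e1 := h2 G (EE D E) g p z
    rw [← hν] at e1
    have e2 : ∑ x, ν (x - z) * h x ^ p = (∑ x, ν (x - z) * cvl g x ^ p) / M ^ p := by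
      rw [Finset.sum_div]
      refine Finset.sum_congr rfl fun x _ => ?_
      rw [hh]
      simp only
      rw [div_pow, mul_div_assoc]
    have e3 : ∑ x, ν x * f x ^ p = (∑ x, ν x * cor g x ^ p) / M ^ p := by
      rw [Finset.sum_div]
      refine Finset.sum_congr rfl fun x _ => ?_
      rw [hf]
      simp only
      rw [div_pow, mul_div_assoc]
    rw [e2, e3]
    exact div_le_div_of_nonneg_right e1 (by positivity)
  have hfo : 0 ≤ ∑ x, ν x * f x ^ (p + 1) := by
    have e1 := h1 G (EE D E) g (p + 1)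
    rw [← hν] at e1
    have e3 : ∑ x, ν x * f x ^ (p + 1) = (∑ x, ν x * cor g x ^ (p + 1)) / M ^ (p + 1) := by
      rw [Finset.sum_div]
      refine Finset.sum_congr rfl fun x _ => ?_
      rw [hf]
      simp only
      rw [div_pow, mul_div_assoc]
    rw [e3]
    positivity
  have hfin := h3 G ν f (fun x => (ct A₁ x : ℝ) / M) p hp hp6 hνn hν1 hfo hfp
    (fun x => by positivity) (fun x hx0 hfx => by
      have e1 := hlowc x hx0
      have e2 : 0 ≤ f x := by linarith
      rw [le_div_iff₀ hMpos]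
      have e3 : f x * M = cor g x := by
        rw [hf]
        simp only
        rw [div_mul_cancel₀ _ hMpos.ne']
      nlinarith [mul_nonneg e2 hMpos.le])
  have hlast : ∑ x, ν x * ((ct A₁ x : ℝ) / M) ^ (30 * (p + 1)) =
      (∑ x, ν x * (ct A₁ x : ℝ) ^ (30 * (p + 1))) / M ^ (30 * (p + 1)) := by
    rw [Finset.sum_div]
    refine Finset.sum_congr rfl fun x _ => ?_
    rw [div_pow, mul_div_assoc]
  rw [hlast, le_div_iff₀ (by positivity), ← mul_pow] at hfin
  have e : 17 / 16 * α₁ * (A₁.card : ℝ) = 17 / 16 * M := by rw [hM]; ring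
  rw [e]
  exact hfin

end Pool.Agent.H289.KM
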