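import Mathlib
import Pool.Graph.R_pool_sql_team_seeded_35f281b4.K7.H64.LS.Dense
import Pool.Agent.H566.KTs
import Pool.Agent.H566.KSf
import Pool.Agent.H566.MGi

/-!
Project KM: the statements on primes in one residue class (restriction, mean value, pairs).
-/

set_option autoImplicit false

namespace Pool.Agent.H566.KM

open Finset
open Pool.Agent.H807R2.Dav
open Pool.Agent.H373R2.T7
open Pool.Agent.Y843.HS (VV Pr)

lemma nW_eq (W b x : ℕ) : nW W b x = nuW W b x := rfl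

lemma pW_eq (w : ℕ) : pW w = pmW w := rfl

/-- sums over `ZMod M` of functions of the representative -/
lemma sum_val (M : ℕ) [NeZero M] {R : Type*} [AddCommMonoid R] (g : ℕ → R) : ∑ z : ZMod M, g z.val = ∑ x ∈ range M, g x := by
  refine sum_bij (fun z _ => z.val) (fun z _ => mem_range.2 (ZMod.val_lt z)) (fun z _ z' _ h => ZMod.val_injective M h)
    (fun x hx => ⟨(x : ZMod M), mem_univ _, ?_⟩) (fun z _ => rfl)
  exact ZMod.val_natCast_of_lt (mem_range.1 hx)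

lemma sum_window (L : ℕ) {R : Type*} [AddCommMonoid R] (g : ℕ → R) :
    ∑ x ∈ range (4 * L + 1), (if x ∈ Ioc L (L + L) then g x else 0) = ∑ x ∈ Ioc L (L + L), g x := by
  rw [← sum_filter]
  apply sum_congr _ (fun _ _ => rfl)
  ext x
  simp only [mem_filter, mem_range, mem_Ioc]
  omega

theorem t_MAS : S_MAS := by
  intro w b hb _
  rw [pW_eq] at *
  obtain ⟨L0, h⟩ := nu_mean (pmW w) b (pmW_pos w) hb (1 / 4) (by norm_num)
  refine ⟨max L0 1, fun L hL => ?_⟩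
  have h1 := h L (le_trans (le_max_left _ _) hL)
  have hL1 : (1 : ℝ) ≤ L := by exact_mod_cast le_trans (le_max_right _ _) hL
  have e : ∑ z : ZMod (4 * L + 1), nz (pmW w) b L z = ∑ x ∈ Ioc L (L + L), nuW (pmW w) b x := by
    rw [← sum_window]
    exact sum_val (4 * L + 1) (fun x => if x ∈ Ioc L (L + L) then nuW (pmW w) b x else 0)
  rw [e]
  rw [abs_le] at h1
  push_cast
  linarith [h1.1]

lemma psi_ee (M : ℕ) [NeZero M] (γ z : ZMod M) : (ψ (γ * z) : ℂ) = ee ((z.val : ℝ) * ((γ.val : ℝ) / M)) := by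
  unfold ψ
  have h1 : γ * z = ((γ.val * z.val : ℕ) : ZMod M) := by
    push_cast
    rw [ZMod.natCast_zmod_val, ZMod.natCast_zmod_val]
  have h2 : γ * z = (((γ.val * z.val : ℕ) : ℤ) : ZMod M) := by
    rw [h1]
    push_cast
    rfl
  rw [h2, ZMod.stdAddChar_coe]
  unfold ee
  congr 1
  push_cast
  ring

theorem t_RES : S_RES := by
  obtain ⟨C, hC, h⟩ := restr_sum (3 / 2) (by norm_num)
  refine ⟨max C 1, le_max_right _ _, fun w b hb _ => ?_⟩
  rw [pW_eq] at *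
  obtain ⟨L0, h0⟩ := h (pmW w) b (pmW_pos w) hb
  refine ⟨max L0 1, fun L hL a ha0 ha => ?_⟩
  have hL1 : 1 ≤ L := le_trans (le_max_right _ _) hL
  have hc : ∀ x : ℕ, ‖((((if x ∈ Ioc L (L + L) then a ((x : ℕ) : ZMod (4 * L + 1)) else 0 : ℝ)) : ℝ) : ℂ)‖ ≤ nuW (pmW w) b x := by
    intro x
    rw [Complex.norm_real, Real.norm_eq_abs]
    split_ifs with hx
    · rw [abs_of_nonneg (ha0 _)]
      refine (ha _).trans ?_
      unfold nz
      have hv : ((x : ℕ) : ZMod (4 * L + 1)).val = x := by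
        apply ZMod.val_natCast_of_lt
        rw [mem_Ioc] at hx
        omega
      rw [hv, if_pos hx, nW_eq]
    · rw [abs_zero]
      exact nuW_nonneg _ _ _
  have h1 := h0 L (le_trans (le_max_left _ _) hL) _ hc (4 * L + 1) (by omega) (by omega)
  have e : ∀ γ : ZMod (4 * L + 1), ‖fh a γ‖ ^ 3 =
      (‖∑ x ∈ Ioc L (L + L), ((((if x ∈ Ioc L (L + L) then a ((x : ℕ) : ZMod (4 * L + 1)) else 0 : ℝ)) : ℝ) : ℂ) *
        ee (x * ((γ.val : ℝ) / (4 * L + 1 : ℕ)))‖ ^ 2) ^ (3 / 2 : ℝ) := by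
    intro γ
    have e1 : fh a γ = ∑ x ∈ Ioc L (L + L), ((((if x ∈ Ioc L (L + L) then a ((x : ℕ) : ZMod (4 * L + 1)) else 0 : ℝ)) : ℝ) : ℂ) *
        ee (x * ((γ.val : ℝ) / (4 * L + 1 : ℕ))) := by
      unfold fh
      rw [← sum_window, ← sum_val (4 * L + 1) (fun x => if x ∈ Ioc L (L + L) then
        ((((if x ∈ Ioc L (L + L) then a ((x : ℕ) : ZMod (4 * L + 1)) else 0 : ℝ)) : ℝ) : ℂ) *
        ee (x * ((γ.val : ℝ) / (4 * L + 1 : ℕ))) else 0)]
      apply sum_congr rfl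
      intro z _
      rw [psi_ee, ZMod.natCast_zmod_val]
      by_cases hz : z.val ∈ Ioc L (L + L)
      · rw [if_pos hz, if_pos hz]
      · rw [if_neg hz]
        have h3 := ha z
        unfold nz at h3
        rw [if_neg hz] at h3
        have h4 : a z = 0 := le_antisymm h3 (ha0 z)
        rw [h4]
        simp
    rw [e1, ← Real.rpow_natCast, ← Real.rpow_natCast, ← Real.rpow_mul (norm_nonneg _)]
    norm_num
  rw [sum_congr rfl fun γ _ => e γ]
  have e2 := sum_val (4 * L + 1) (fun r : ℕ => (‖∑ x ∈ Ioc L (L + L), ((((if x ∈ Ioc L (L + L) then a ((x : ℕ) : ZMod (4 * L + 1)) else 0 : ℝ)) : ℝ) : ℂ) *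
        ee (x * ((r : ℝ) / (4 * L + 1 : ℕ)))‖ ^ 2) ^ (3 / 2 : ℝ))
  rw [e2]
  refine h1.trans ?_
  have hL0 : (0 : ℝ) ≤ L := Nat.cast_nonneg L
  have e3 : (((L : ℝ)) ^ 2) ^ (3 / 2 : ℝ) = (L : ℝ) ^ 3 := by
    rw [← Real.rpow_natCast, ← Real.rpow_natCast, ← Real.rpow_mul hL0]
    norm_num
  rw [e3]
  have h5 : (L : ℝ) ≤ ((4 * L + 1 : ℕ) : ℝ) := by
    push_cast
    linarith
  calc C * (L : ℝ) ^ 3 ≤ max C 1 * ((4 * L + 1 : ℕ) : ℝ) ^ 3 := by
        apply mul_le_mul (le_max_left _ _) (pow_le_pow_left₀ hL0 h5 3) (by positivity) (by positivity)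
    _ = _ := rfl

end Pool.Agent.H566.KM
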