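import Mathlib
import Pool.Graph.R_pool_sql_team_seeded_35f281b4.K7.H64.LS.Dense
import Pool.Agent.H566.KTs
import Pool.Agent.H566.KSf
import Pool.Agent.H566.MGi
import Pool.Agent.H566.KM.Prm

/-!
Project KM: the upper bound sieve for pairs of primes in one residue class.
-/

set_option autoImplicit false

namespace Pool.Agent.H566.KM

open Finset
open Pool.Agent.H807R2.Dav
open Pool.Agent.H373R2.T7
open Pool.Agent.Y843.HS (VV Pr)

/-- sieving classes for pairs -/
def ZP (W b h q : ℕ) : Finset ℕ := if q = 2 then ∅ else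
  (ZW W b q) ∪ ((range q).filter (fun x => q ∣ W * (x + h) + b))

lemma Z2_card (W b h q : ℕ) (hb : b.Coprime W) (hq : q.Prime) : ((range q).filter (fun x => q ∣ W * (x + h) + b)).card ≤ 1 := by
  rw [card_le_one]
  intro x hx y hy
  rw [mem_filter, mem_range] at hx hy
  by_contra hne
  have hW : ¬ q ∣ W := by
    intro hqW
    have h1 : q ∣ b := (Nat.dvd_add_right (hqW.mul_right (x + h))).1 hx.2
    have := Nat.dvd_gcd h1 hqW
    rw [Nat.coprime_iff_gcd_eq_one.1 hb] at this
    exact hq.one_lt.ne' (Nat.dvd_one.1 this)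
  have h1 : (q : ℤ) ∣ (W : ℤ) * ((x : ℤ) - y) := by
    have h2 : (q : ℤ) ∣ ((W * (x + h) + b : ℕ) : ℤ) - ((W * (y + h) + b : ℕ) : ℤ) :=
      dvd_sub (Int.natCast_dvd_natCast.2 hx.2) (Int.natCast_dvd_natCast.2 hy.2)
    push_cast at h2
    have e : (W : ℤ) * (x + h) + b - (W * (y + h) + b) = W * (x - y) := by ring
    rw [e] at h2
    exact h2
  have h3 : (q : ℤ) ∣ (x : ℤ) - y := by
    rcases (Nat.prime_iff_prime_int.1 hq).dvd_or_dvd h1 with h4 | h4
    · exact absurd (Int.natCast_dvd_natCast.1 h4) hW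
    · exact h4
  have h5 := Int.eq_zero_of_abs_lt_dvd h3 (by rw [abs_lt]; constructor <;> omega)
  omega

lemma Z2_eq (W b h q : ℕ) (hb : b.Coprime W) (hq : q.Prime) (hqW : ¬ q ∣ W) :
    ((range q).filter (fun x => q ∣ W * (x + h) + b)).card = 1 := by
  have h1 := Z2_card W b h q hb hq
  have h2 : 0 < ((range q).filter (fun x => q ∣ W * (x + h) + b)).card := by
    rw [card_pos]
    have : Fact q.Prime := ⟨hq⟩
    have hu : (W : ZMod q) ≠ 0 := by
      rw [Ne, ZMod.natCast_eq_zero_iff]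
      exact hqW
    refine ⟨(-(b : ZMod q) / W - h).val, ?_⟩
    rw [mem_filter, mem_range]
    refine ⟨ZMod.val_lt _, ?_⟩
    rw [← ZMod.natCast_eq_zero_iff]
    push_cast
    rw [ZMod.natCast_zmod_val]
    field_simp
    ring
  omega

lemma ZP_disj (W b h q : ℕ) (hq : q.Prime) (hqW : ¬ q ∣ W) (hqh : ¬ q ∣ h) :
    Disjoint (ZW W b q) ((range q).filter (fun x => q ∣ W * (x + h) + b)) := by
  rw [disjoint_left]
  intro x hx hy
  unfold ZW at hx
  rw [mem_filter] at hx hy
  have h1 : q ∣ (W * (x + h) + b) - (W * x + b) := Nat.dvd_sub hy.2 hx.2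
  have e : (W * (x + h) + b) - (W * x + b) = W * h := by
    rw [mul_add]
    omega
  rw [e] at h1
  rcases hq.dvd_mul.1 h1 with h2 | h2
  · exact hqW h2
  · exact hqh h2

/-- the factor of one prime -/
lemma ZP_factor (W b h q : ℕ) (hb : b.Coprime W) (hq : q.Prime) :
    1 - ((ZP W b h q).card : ℝ) / q ≤
      (1 - ((ZW W b q).card : ℝ) / q) ^ 2 * ((if q ∣ h ∧ ¬ q ∣ W then (1 - 1 / (q : ℝ))⁻¹ else 1) * (if q = 2 then 4 else 1)) := by
  have hq2 : (2 : ℝ) ≤ q := by exact_mod_cast hq.two_le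
  have hq0 : (0 : ℝ) < q := by linarith
  have hq1 : 1 / (q : ℝ) ≤ 1 / 2 := by
    rw [div_le_div_iff₀ hq0 (by norm_num)]
    linarith
  have hq3 : 0 < 1 / (q : ℝ) := by positivity
  have hinv : 1 ≤ (1 - 1 / (q : ℝ))⁻¹ := by
    rw [one_le_inv₀ (by linarith)]
    linarith
  have hg : 1 ≤ (if q ∣ h ∧ ¬ q ∣ W then (1 - 1 / (q : ℝ))⁻¹ else 1) := by
    split_ifs
    · exact hinv
    · exact le_rfl
  have hZW := (ZW_card W b q hb hq).1
  have hZW' : ((ZW W b q).card : ℝ) / q ≤ 1 / 2 := by
    have : ((ZW W b q).card : ℝ) ≤ 1 := by exact_mod_cast hZW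
    calc ((ZW W b q).card : ℝ) / q ≤ 1 / q := by gcongr
      _ ≤ _ := hq1
  have hZW0 : 0 ≤ ((ZW W b q).card : ℝ) / q := by positivity
  by_cases h2 : q = 2
  · unfold ZP
    rw [if_pos h2, if_pos h2, card_empty]
    have h3 : (1 / 2 : ℝ) ^ 2 ≤ (1 - ((ZW W b q).card : ℝ) / q) ^ 2 := pow_le_pow_left₀ (by norm_num) (by linarith) 2
    calc 1 - ((0 : ℕ) : ℝ) / q = (1 / 2 : ℝ) ^ 2 * (1 * 4) := by norm_num
      _ ≤ _ := by gcongr
  · unfold ZP
    rw [if_neg h2, if_neg h2, mul_one]
    by_cases hqW : q ∣ W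
    · rw [if_neg (by tauto), mul_one, (ZW_card W b q hb hq).2 hqW]
      have : 0 ≤ (((ZW W b q ∪ (range q).filter (fun x => q ∣ W * (x + h) + b)).card : ℕ) : ℝ) / q := by positivity
      norm_num
      positivity
    · have e1 : ((ZW W b q).card : ℝ) = 1 := by exact_mod_cast ZW_card_eq W b q hb hq hqW
      rw [e1]
      by_cases hqh : q ∣ h
      · rw [if_pos ⟨hqh, hqW⟩]
        have h3 : (1 : ℝ) ≤ (((ZW W b q ∪ (range q).filter (fun x => q ∣ W * (x + h) + b)).card : ℕ) : ℝ) := by
          rw [← e1]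
          exact_mod_cast card_le_card subset_union_left
        have h4 : (1 - 1 / (q : ℝ)) ^ 2 * (1 - 1 / (q : ℝ))⁻¹ = 1 - 1 / q := by
          have : (1 - 1 / (q : ℝ)) ≠ 0 := by linarith
          field_simp
        rw [h4]
        have : 1 / (q : ℝ) ≤ (((ZW W b q ∪ (range q).filter (fun x => q ∣ W * (x + h) + b)).card : ℕ) : ℝ) / q := by
          gcongr
        linarith
      · rw [if_neg (by tauto), mul_one, card_union_of_disjoint (ZP_disj W b h q hq hqW hqh), Z2_eq W b h q hb hq hqW,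
          ZW_card_eq W b q hb hq hqW]
        have e : (1 - 1 / (q : ℝ)) ^ 2 = 1 - 2 / q + (1 / (q : ℝ)) ^ 2 := by ring
        rw [e]
        have : 0 ≤ (1 / (q : ℝ)) ^ 2 := by positivity
        have e2 : (((1 + 1 : ℕ) : ℕ) : ℝ) / q = 2 / q := by norm_num
        rw [e2]
        linarith

lemma ZP_card (W b h q : ℕ) (hb : b.Coprime W) (hq : q.Prime) : (ZP W b h q).card ≤ 2 ∧ (ZP W b h q).card < q ∧
    ∀ c ∈ ZP W b h q, c < q := by
  unfold ZP
  by_cases h2 : q = 2
  · rw [if_pos h2]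
    simp [h2]
  · rw [if_neg h2]
    have h3 : 3 ≤ q := by
      have := hq.two_le
      omega
    have h4 : (ZW W b q ∪ (range q).filter (fun x => q ∣ W * (x + h) + b)).card ≤ 2 := by
      refine (card_union_le _ _).trans ?_
      have a1 := (ZW_card W b q hb hq).1
      have a2 := Z2_card W b h q hb hq
      omega
    refine ⟨h4, by omega, fun c hc => ?_⟩
    rw [mem_union] at hc
    unfold ZW at hc
    rw [mem_filter, mem_filter, mem_range] at hc
    rcases hc with hc | hc
    · exact hc.1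
    · exact hc.1

/-- the sieve product for pairs -/
lemma VV_pair (w b h L : ℕ) (hb : b.Coprime (pW w)) (hh : 1 ≤ h) :
    VV (ZP (pW w) b h) 0 L ≤ VV (ZW (pW w) b) 0 L ^ 2 * (GG w h * 4) := by
  set W := pW w with hW
  have hmem : ∀ q ∈ Pr 0 L, q.Prime := by
    intro q hq
    unfold Pr at hq
    exact (mem_filter.1 hq).2
  unfold VV
  rw [← prod_pow]
  have h1 : ∏ q ∈ Pr 0 L, (1 - ((ZP W b h q).card : ℝ) / q) ≤
      ∏ q ∈ Pr 0 L, ((1 - ((ZW W b q).card : ℝ) / q) ^ 2 * ((if q ∣ h ∧ ¬ q ∣ W then (1 - 1 / (q : ℝ))⁻¹ else 1) * (if q = 2 then 4 else 1))) := by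
    apply prod_le_prod
    · intro q hq
      have h2 := (ZP_card W b h q hb (hmem q hq)).2.1
      have h3 : (0 : ℝ) < q := by exact_mod_cast (hmem q hq).pos
      rw [sub_nonneg, div_le_one h3]
      exact_mod_cast h2.le
    · intro q hq
      exact ZP_factor W b h q hb (hmem q hq)
  refine h1.trans ?_
  rw [prod_mul_distrib, prod_mul_distrib]
  apply mul_le_mul_of_nonneg_left _ (prod_nonneg fun _ _ => by positivity)
  apply mul_le_mul
  · rw [← prod_filter]
    unfold GG
    have hsub : (Pr 0 L).filter (fun q => q ∣ h ∧ ¬ q ∣ W) ⊆ h.primeFactors.filter (fun p => w < p) := by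
      intro q hq
      rw [mem_filter] at hq
      have hp := hmem q hq.1
      rw [mem_filter, Nat.mem_primeFactors]
      refine ⟨⟨hp, hq.2.1, by omega⟩, ?_⟩
      by_contra hcon
      push Not at hcon
      exact hq.2.2 (by rw [hW, pW_eq]; exact pmW_all w q hp hcon)
    have hone : ∀ q ∈ h.primeFactors.filter (fun p => w < p), 1 ≤ (1 - 1 / (q : ℝ))⁻¹ := by
      intro q hq
      have hp := (Nat.mem_primeFactors.1 (mem_filter.1 hq).1).1
      have hq2 : (2 : ℝ) ≤ q := by exact_mod_cast hp.two_le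
      have h3 : 1 / (q : ℝ) ≤ 1 / 2 := by
        rw [div_le_div_iff₀ (by linarith) (by norm_num)]
        linarith
      have h4 : 0 < 1 / (q : ℝ) := by positivity
      rw [one_le_inv₀ (by linarith)]
      linarith
    rw [← prod_sdiff hsub]
    have h5 : 1 ≤ ∏ q ∈ (h.primeFactors.filter (fun p => w < p)) \ ((Pr 0 L).filter (fun q => q ∣ h ∧ ¬ q ∣ W)), (1 - 1 / (q : ℝ))⁻¹ :=
      prod_induction _ (fun x : ℝ => 1 ≤ x) (fun a b ha hb => one_le_mul_of_one_le_of_one_le ha hb) le_rfl
        (fun q hq => hone q (mem_sdiff.1 hq).1)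
    have h6 : 0 ≤ ∏ q ∈ (Pr 0 L).filter (fun q => q ∣ h ∧ ¬ q ∣ W), (1 - 1 / (q : ℝ))⁻¹ :=
      prod_nonneg fun q hq => zero_le_one.trans (hone q (hsub hq))
    exact le_mul_of_one_le_left h6 h5
  · have : ∏ q ∈ Pr 0 L, (if q = 2 then (4 : ℝ) else 1) ≤ 4 := by
      rw [prod_ite_eq' (Pr 0 L) 2 (fun _ => (4 : ℝ))]
      split_ifs
      · exact le_rfl
      · norm_num
    exact this
  · exact prod_nonneg fun q _ => by split_ifs <;> norm_num
  · unfold GG
    apply prod_nonneg
    intro q hq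
    have hp := (Nat.mem_primeFactors.1 (mem_filter.1 hq).1).1
    have hq2 : (2 : ℝ) ≤ q := by exact_mod_cast hp.two_le
    have : 1 / (q : ℝ) ≤ 1 / 2 := by
      rw [div_le_div_iff₀ (by linarith) (by norm_num)]
      linarith
    rw [inv_nonneg]
    linarith

theorem t_PAIR : S_PAIR := by
  obtain ⟨C1, hC1, hup⟩ := Pool.Agent.K7.H64.LS.upper 2 (κ := 1) one_pos
  obtain ⟨C2, hC2, hV⟩ := VV_le
  refine ⟨C1 * (C2 ^ 2 * 4) * 4, by positivity, fun w b hb hbW => ?_⟩
  set W := pW w with hW
  have hWpos : 0 < W := by rw [hW, pW_eq]; exact pmW_pos w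
  have hWsq : Squarefree W := by rw [hW, pW_eq]; exact pmW_squarefree w
  have hW0 : (0 : ℝ) < W := by exact_mod_cast hWpos
  have hWt : (0 : ℝ) < W.totient := by exact_mod_cast Nat.totient_pos.2 hWpos
  refine ⟨3 * W + b + 2, fun L hL h hh hhL => ?_⟩
  have hL2 : 2 ≤ L := by omega
  have hLr : (2 : ℝ) ≤ L := by exact_mod_cast hL2
  have hlog : 0 < Real.log L := Real.log_pos (by linarith)
  set S := (Ioc L (L + L)).filter (fun x => (W * x + b).Prime ∧ (W * (x + h) + b).Prime) with hS
  -- the weights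
  have hw : ∀ x ∈ Ioc L (L + L), nW W b x * nW W b (x + h) ≤
      if (W * x + b).Prime ∧ (W * (x + h) + b).Prime then (((W.totient : ℝ) / W) * (2 * Real.log L)) ^ 2 else 0 := by
    intro x hx
    rw [mem_Ioc] at hx
    have hbd : ∀ y, y ≤ 3 * L → 0 < W * y + b → Real.log ((W * y + b : ℕ) : ℝ) ≤ 2 * Real.log L := by
      intro y hy hpos
      have h1 : W * y + b ≤ L ^ 2 := by
        calc W * y + b ≤ W * (3 * L) + b * L := by
              have : b ≤ b * L := Nat.le_mul_of_pos_right b (by omega)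
              have := Nat.mul_le_mul_left W hy
              omega
          _ = (3 * W + b) * L := by ring
          _ ≤ L * L := Nat.mul_le_mul_right L (by omega)
          _ = _ := by ring
      calc Real.log ((W * y + b : ℕ) : ℝ) ≤ Real.log ((L ^ 2 : ℕ) : ℝ) := by
            apply Real.log_le_log (by exact_mod_cast hpos)
            exact_mod_cast h1
        _ = 2 * Real.log L := by push_cast; rw [Real.log_pow]; norm_num
    unfold nW
    by_cases h1 : (W * x + b).Prime
    · by_cases h2 : (W * (x + h) + b).Prime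
      · rw [if_pos h1, if_pos h2, if_pos ⟨h1, h2⟩]
        have a1 := hbd x (by omega) h1.pos
        have a2 := hbd (x + h) (by omega) h2.pos
        have b1 : 0 ≤ Real.log ((W * x + b : ℕ) : ℝ) := Real.log_natCast_nonneg _
        have b2 : 0 ≤ Real.log ((W * (x + h) + b : ℕ) : ℝ) := Real.log_natCast_nonneg _
        rw [sq]
        gcongr
      · rw [if_neg h2, mul_zero, mul_zero]
        split_ifs <;> positivity
    · rw [if_neg h1, mul_zero, zero_mul]
      split_ifs <;> positivity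
  have h1 : ∑ x ∈ Ioc L (L + L), nW W b x * nW W b (x + h) ≤ S.card * (((W.totient : ℝ) / W) * (2 * Real.log L)) ^ 2 := by
    refine (sum_le_sum hw).trans ?_
    rw [← sum_filter, sum_const, nsmul_eq_mul]
  -- the sieve
  have h2 : (S.card : ℝ) ≤ C1 * L * VV (ZP W b h) 0 L := by
    have h3 := hup L (by omega) L (ZP W b h) (fun q hq _ => ZP_card W b h q hb hq) S (filter_subset _ _) (by
      intro n hn q hq hqL hmem
      rw [Real.rpow_one] at hqL
      have hqL' : q ≤ L := by exact_mod_cast hqL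
      rw [hS, mem_filter, mem_Ioc] at hn
      unfold ZP at hmem
      split_ifs at hmem with h2
      · simp at hmem
      · rw [mem_union] at hmem
        have hWn : L < W * n := by
          have := Nat.le_mul_of_pos_left n hWpos
          omega
        rcases hmem with hm | hm
        · unfold ZW at hm
          rw [mem_filter] at hm
          have h4 : q ∣ W * n + b := by
            have h5 : W * n + b ≡ W * (n % q) + b [MOD q] := ((Nat.mod_modEq n q).symm.mul_left W).add_right b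
            exact (h5.dvd_iff dvd_rfl).2 hm.2
          have h5 := (Nat.prime_dvd_prime_iff_eq hq hn.2.1).1 h4
          omega
        · rw [mem_filter] at hm
          have h4 : q ∣ W * (n + h) + b := by
            have h5 : W * (n + h) + b ≡ W * (n % q + h) + b [MOD q] :=
              (((Nat.mod_modEq n q).symm.add_right h).mul_left W).add_right b
            exact (h5.dvd_iff dvd_rfl).2 hm.2
          have h5 := (Nat.prime_dvd_prime_iff_eq hq hn.2.2).1 h4
          have h6 : W * n ≤ W * (n + h) := Nat.mul_le_mul_left W (by omega)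
          omega)
    rw [Real.rpow_one, Nat.floor_natCast] at h3
    exact h3
  have h3 := VV_pair w b h L hb hh
  rw [← hW] at h3
  have h4 := hV W b L hWsq hb hL2
  have hV0 : 0 ≤ VV (ZW W b) 0 L := by
    unfold VV
    apply prod_nonneg
    intro p hp
    unfold Pr at hp
    have hpp := (mem_filter.1 hp).2
    have h5 := (ZW_card W b p hb hpp).1
    have h6 : (1 : ℝ) < p := by exact_mod_cast hpp.one_lt
    rw [sub_nonneg, div_le_one (by linarith)]
    have : ((ZW W b p).card : ℝ) ≤ 1 := by exact_mod_cast h5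
    linarith
  have hGG : 0 ≤ GG w h := by
    unfold GG
    apply prod_nonneg
    intro q hq
    have hp := (Nat.mem_primeFactors.1 (mem_filter.1 hq).1).1
    have hq2 : (2 : ℝ) ≤ q := by exact_mod_cast hp.two_le
    have : 1 / (q : ℝ) ≤ 1 / 2 := by
      rw [div_le_div_iff₀ (by linarith) (by norm_num)]
      linarith
    rw [inv_nonneg]
    linarith
  calc _ ≤ S.card * (((W.totient : ℝ) / W) * (2 * Real.log L)) ^ 2 := h1
    _ ≤ (C1 * L * VV (ZP W b h) 0 L) * (((W.totient : ℝ) / W) * (2 * Real.log L)) ^ 2 := by gcongr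
    _ ≤ (C1 * L * (VV (ZW W b) 0 L ^ 2 * (GG w h * 4))) * (((W.totient : ℝ) / W) * (2 * Real.log L)) ^ 2 := by gcongr
    _ ≤ (C1 * L * ((C2 * ((W : ℝ) / W.totient) / Real.log L) ^ 2 * (GG w h * 4))) * (((W.totient : ℝ) / W) * (2 * Real.log L)) ^ 2 := by
        gcongr
    _ = C1 * (C2 ^ 2 * 4) * 4 * L * GG w h := by
        field_simp
        norm_num

end Pool.Agent.H566.KM
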