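import Pool.Agent.H566.KTs
import Pool.Graph.R_pool_sql_team_668148b0.Helper742.Mertens

/-!
# Lower bound for Euler's function of the primorial
-/

set_option autoImplicit false

namespace Pool.Agent.H277.KM

open Pool.Agent.Helper742

theorem totient_prod (S : Finset ℕ) (hS : ∀ p ∈ S, p.Prime) :
    (∏ p ∈ S, p).totient = ∏ p ∈ S, (p - 1) := by
  classical
  induction S using Finset.induction_on with
  | empty => simp
  | insert a S ha ih =>
    have hpa := hS a (Finset.mem_insert_self a S)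
    have hS' : ∀ p ∈ S, p.Prime := fun p hp => hS p (Finset.mem_insert_of_mem hp)
    have hcop : Nat.Coprime a (∏ p ∈ S, p) := by
      refine Nat.Coprime.prod_right fun p hp => ?_
      refine (Nat.coprime_primes hpa (hS' p hp)).2 ?_
      rintro rfl
      exact ha hp
    rw [Finset.prod_insert ha, Finset.prod_insert ha, Nat.totient_mul hcop, ih hS',
      Nat.totient_prime hpa]

theorem ratio_le (S : Finset ℕ) (hS : ∀ p ∈ S, p.Prime) :
    ((∏ p ∈ S, p : ℕ) : ℝ) ≤ Real.exp (2 * ∑ p ∈ S, (1 : ℝ) / p) *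
      ((∏ p ∈ S, p).totient : ℝ) := by
  rw [totient_prod S hS, Finset.mul_sum, Real.exp_sum]
  push_cast
  rw [← Finset.prod_mul_distrib]
  refine Finset.prod_le_prod (fun p _ => Nat.cast_nonneg p) fun p hp => ?_
  have h2 : (2 : ℝ) ≤ p := by exact_mod_cast (hS p hp).two_le
  have h3 : ((p - 1 : ℕ) : ℝ) = (p : ℝ) - 1 := by
    rw [Nat.cast_sub (hS p hp).one_le, Nat.cast_one]
  rw [h3]
  have h4 : 2 * (1 / (p : ℝ)) + 1 ≤ Real.exp (2 * (1 / (p : ℝ))) := Real.add_one_le_exp _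
  have h5 : (2 * (1 / (p : ℝ)) + 1) * ((p : ℝ) - 1) ≤
      Real.exp (2 * (1 / (p : ℝ))) * ((p : ℝ) - 1) :=
    mul_le_mul_of_nonneg_right h4 (by linarith)
  refine le_trans ?_ h5
  have h6 : (2 * (1 / (p : ℝ)) + 1) * ((p : ℝ) - 1) = p + (1 - 2 / p) := by
    field_simp
    ring
  rw [h6]
  have h7 : 2 / (p : ℝ) ≤ 1 := by
    rw [div_le_one (by linarith)]
    exact h2
  linarith

theorem t_PHI : Pool.Agent.H566.KM.S_PHI := by
  let C : ℕ := ⌈Real.exp 16⌉₊
  have hC : Real.exp 16 ≤ C := Nat.le_ceil _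
  have hC2 : 2 ≤ C := by
    have h1 : (16 : ℝ) + 1 ≤ Real.exp 16 := Real.add_one_le_exp 16
    have h2 : (2 : ℝ) ≤ C := by linarith
    exact_mod_cast h2
  refine ⟨C, fun j hj => ?_⟩
  have hj1 : (1 : ℝ) ≤ j := by exact_mod_cast hj
  have hS : ∀ p ∈ (Finset.range (2 ^ j + 1)).filter Nat.Prime, p.Prime := fun p hp =>
    (Finset.mem_filter.1 hp).2
  have h1 := ratio_le _ hS
  have h2 : ∑ p ∈ (Finset.range (2 ^ j + 1)).filter Nat.Prime, (1 : ℝ) / p = SP (2 ^ j) := by
    unfold SP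
    rw [Nat.primesLE_eq_filter_range]
  rw [h2] at h1
  have hpow : 2 ≤ 2 ^ j := by
    calc 2 = 2 ^ 1 := rfl
      _ ≤ 2 ^ j := Nat.pow_le_pow_right (by norm_num) hj
  have h3 := SP_le (2 ^ j) hpow
  have hlog : Real.log ((2 ^ j : ℕ) : ℝ) = j * Real.log 2 := by
    push_cast
    rw [Real.log_pow]
  rw [hlog] at h3
  have hl2 : 0 < Real.log 2 := Real.log_pos (by norm_num)
  have hl1 : Real.log 2 ≤ 1 := by
    have := Real.log_two_lt_d9
    linarith
  have hjl : 0 < (j : ℝ) * Real.log 2 := by positivity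
  have h4 : Real.log ((j : ℝ) * Real.log 2) ≤ Real.log j :=
    Real.log_le_log hjl (by nlinarith)
  have h5 : Real.exp (2 * SP (2 ^ j)) ≤ Real.exp 16 * (j : ℝ) ^ 2 := by
    calc Real.exp (2 * SP (2 ^ j)) ≤ Real.exp (16 + 2 * Real.log j) :=
          Real.exp_le_exp.2 (by linarith)
      _ = Real.exp 16 * (j : ℝ) ^ 2 := by
          rw [Real.exp_add, two_mul, Real.exp_add, Real.exp_log (by linarith), pow_two]
  have h6 : Real.exp 16 * (j : ℝ) ^ 2 ≤ C * (j : ℝ) ^ C :=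
    mul_le_mul hC (pow_le_pow_right₀ hj1 hC2) (by positivity) (by positivity)
  refine le_trans h1 ?_
  exact mul_le_mul_of_nonneg_right (h5.trans h6) (Nat.cast_nonneg _)

end Pool.Agent.H277.KM
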