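import Pool.Agent.H566.KMs

/-!
# Positivity of correlation moments (`S_POS1`, `S_POS2`)
-/

set_option autoImplicit false

namespace Pool.Agent.H585.KM

open Finset
open Pool.Agent.H566.KM

variable {G : Type} [AddCommGroup G] [Fintype G]

lemma sum_cor (E F : G → ℝ) (z : G) :
    ∑ x, cor E (x - z) * F x = ∑ a, ∑ b, E a * E b * F (b - a + z) := by
  unfold cor
  simp_rw [sum_mul]
  rw [sum_comm]
  refine sum_congr rfl fun a _ => ?_
  refine Fintype.sum_equiv ((Equiv.subRight z).trans (Equiv.addLeft a)) _ _ fun x => ?_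
  have e1 : ((Equiv.subRight z).trans (Equiv.addLeft a)) x = a + (x - z) := rfl
  rw [e1]
  have e2 : a + (x - z) - a + z = x := by abel
  rw [e2]

lemma sum_cor0 (E F : G → ℝ) :
    ∑ x, cor E x * F x = ∑ a, ∑ b, E a * E b * F (b - a) := by
  have := sum_cor E F 0
  simpa using this

lemma cor_sub (g : G → ℝ) (a b : G) : cor g (b - a) = ∑ s, g (s + a) * g (s + b) := by
  unfold cor
  refine Fintype.sum_equiv (Equiv.subRight a) _ _ fun t => ?_
  have e1 : (Equiv.subRight a) t = t - a := rfl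
  rw [e1]
  have e2 : t - a + a = t := by abel
  have e3 : t - a + b = t + (b - a) := by abel
  rw [e2, e3]

lemma cor_sub' (g : G → ℝ) (z a b : G) :
    cor g (b - a) = ∑ s, g (z - b - s) * g (z - a - s) := by
  unfold cor
  refine Fintype.sum_equiv (Equiv.subLeft (z - b)) _ _ fun t => ?_
  have e1 : (Equiv.subLeft (z - b)) t = z - b - t := rfl
  rw [e1]
  have e2 : z - b - (z - b - t) = t := by abel
  have e3 : z - a - (z - b - t) = t + (b - a) := by abel
  rw [e2, e3]

lemma cvl_sub (g : G → ℝ) (z a b : G) :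
    cvl g (b - a + z) = ∑ s, g (s + b) * g (z - a - s) := by
  unfold cvl
  refine Fintype.sum_equiv (Equiv.subRight b) _ _ fun t => ?_
  have e1 : (Equiv.subRight b) t = t - b := rfl
  rw [e1]
  have e2 : t - b + b = t := by abel
  have e3 : z - a - (t - b) = b - a + z - t := by abel
  rw [e2, e3]

/-- expansion of a double sum of powers -/
lemma expand (E : G → ℝ) (u v : G → G → ℝ) (j : ℕ) :
    ∑ a, ∑ b, E a * E b * (∑ s, u a s * v b s) ^ j =
      ∑ s : Fin j → G, (∑ a, E a * ∏ i, u a (s i)) * (∑ b, E b * ∏ i, v b (s i)) := by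
  have h1 : ∀ a b : G, E a * E b * (∑ s, u a s * v b s) ^ j =
      ∑ s : Fin j → G, (E a * ∏ i, u a (s i)) * (E b * ∏ i, v b (s i)) := by
    intro a b
    rw [Fintype.sum_pow, mul_sum]
    refine sum_congr rfl fun s _ => ?_
    rw [prod_mul_distrib]
    ring
  simp_rw [h1]
  simp_rw [sum_mul_sum]
  calc ∑ a : G, ∑ b : G, ∑ s : Fin j → G, (E a * ∏ i, u a (s i)) * (E b * ∏ i, v b (s i))
      = ∑ a : G, ∑ s : Fin j → G, ∑ b : G, (E a * ∏ i, u a (s i)) * (E b * ∏ i, v b (s i)) :=
        sum_congr rfl fun a _ => sum_comm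
    _ = ∑ s : Fin j → G, ∑ a : G, ∑ b : G, (E a * ∏ i, u a (s i)) * (E b * ∏ i, v b (s i)) :=
        sum_comm

lemma moment (E g : G → ℝ) (j : ℕ) : ∑ x, cor E x * cor g x ^ j =
    ∑ s : Fin j → G, (∑ a, E a * ∏ i, g (s i + a)) ^ 2 := by
  rw [sum_cor0 E (fun x => cor g x ^ j)]
  simp_rw [cor_sub]
  rw [expand E (fun a s => g (s + a)) (fun b s => g (s + b)) j]
  refine sum_congr rfl fun s _ => ?_
  rw [pow_two]

lemma moment' (E g : G → ℝ) (z : G) (j : ℕ) : ∑ x, cor E x * cor g x ^ j =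
    ∑ s : Fin j → G, (∑ a, E a * ∏ i, g (z - a - s i)) ^ 2 := by
  rw [sum_cor0 E (fun x => cor g x ^ j)]
  have h1 : ∀ a b : G, cor g (b - a) = ∑ s, g (z - a - s) * g (z - b - s) := by
    intro a b
    rw [cor_sub' g z a b]
    exact sum_congr rfl fun s _ => mul_comm _ _
  simp_rw [h1]
  rw [expand E (fun a s => g (z - a - s)) (fun b s => g (z - b - s)) j]
  refine sum_congr rfl fun s _ => ?_
  rw [pow_two]

theorem t_POS : S_POS1 ∧ S_POS2 := by
  constructor
  · intro G _ _ E g j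
    rw [moment E g j]
    exact sum_nonneg fun s _ => sq_nonneg _
  · intro G _ _ E g p z
    rw [sum_cor E (fun x => cvl g x ^ p) z]
    have h1 : ∀ a b : G, cvl g (b - a + z) = ∑ s, g (z - a - s) * g (s + b) := by
      intro a b
      rw [cvl_sub g z a b]
      exact sum_congr rfl fun s _ => mul_comm _ _
    simp_rw [h1]
    rw [expand E (fun a s => g (z - a - s)) (fun b s => g (s + b)) p]
    have h2 := moment E g p
    have h3 := moment' E g z p
    have h4 : ∑ s : Fin p → G, (∑ a, E a * ∏ i, g (z - a - s i)) *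
        (∑ b, E b * ∏ i, g (s i + b)) ≤
        ∑ s : Fin p → G, (1 / 2 * (∑ a, E a * ∏ i, g (z - a - s i)) ^ 2 +
          1 / 2 * (∑ b, E b * ∏ i, g (s i + b)) ^ 2) := by
      refine sum_le_sum fun s _ => ?_
      nlinarith [sq_nonneg ((∑ a, E a * ∏ i, g (z - a - s i)) - ∑ b, E b * ∏ i, g (s i + b))]
    refine h4.trans (le_of_eq ?_)
    rw [sum_add_distrib, ← mul_sum, ← mul_sum, ← h2, ← h3]
    ring

end Pool.Agent.H585.KM
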