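import Pool.Agent.H566.KMs

/-! Sifting. -/

set_option autoImplicit false

namespace Pool.Agent.H914.KM

open Finset Pool.Agent.H566.KM

section

variable {G : Type} [AddCommGroup G] [Fintype G] [DecidableEq G]

omit [AddCommGroup G] [DecidableEq G] in
theorem card_pi (Q : ℕ) (P : G → Prop) [DecidablePred P] :
    ((univ : Finset (Fin Q → G)).filter fun s => ∀ i, P (s i)).card =
      ((univ : Finset G).filter P).card ^ Q := by
  have h : ((univ : Finset (Fin Q → G)).filter fun s => ∀ i, P (s i)) =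
      Fintype.piFinset fun _ : Fin Q => (univ : Finset G).filter P := by
    ext s
    simp [Fintype.mem_piFinset]
  rw [h, Fintype.card_piFinset_const]

theorem card_sh (A : Finset G) (b : G) :
    ((univ : Finset G).filter fun u => u + b ∈ A).card = A.card := by
  refine Finset.card_nbij' (fun u => u + b) (fun t => t - b) ?_ ?_ ?_ ?_
  · intro u hu
    simpa using hu
  · intro t ht
    simpa using ht
  · intro u _
    simp
  · intro t _
    simp

theorem card_ct (A : Finset G) (a b : G) :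
    ((univ : Finset G).filter fun u => u + a ∈ A ∧ u + b ∈ A).card = ct A (a - b) := by
  unfold ct
  refine Finset.card_nbij' (fun u => u + b) (fun t => t - b) ?_ ?_ ?_ ?_
  · intro u hu
    simp only [coe_filter, mem_univ, true_and, Set.mem_ofPred_eq] at hu ⊢
    refine ⟨hu.2, ?_⟩
    have e : u + b + (a - b) = u + a := by abel
    rw [e]
    exact hu.1
  · intro t ht
    simp only [coe_filter, mem_univ, true_and, Set.mem_ofPred_eq] at ht ⊢
    have e : t - b + a = t + (a - b) := by abel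
    rw [e, sub_add_cancel]
    exact ⟨ht.2, ht.1⟩
  · intro u _
    simp
  · intro t _
    simp

omit [AddCommGroup G] [DecidableEq G] in
theorem dc {X : Type} (S : Finset X) (Q : ℕ) (P : X → G → Prop) [∀ x, DecidablePred (P x)] :
    ∑ s : Fin Q → G, (S.filter fun q => ∀ i, P q (s i)).card =
      ∑ q ∈ S, ((univ : Finset G).filter (P q)).card ^ Q := by
  simp_rw [card_filter _ S]
  rw [sum_comm]
  refine sum_congr rfl fun q _ => ?_
  rw [← card_filter, card_pi]

/-- expectation with respect to `EE` -/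
theorem EE_sum (D E : Finset G) (H : G → ℝ) :
    ∑ t, EE D E t * H t = (∑ d ∈ D, ∑ e ∈ E, H (d + e)) / (D.card * E.card) := by
  unfold EE
  have h : ∀ t, ((((D ×ˢ E).filter fun p => p.1 + p.2 = t).card : ℝ) / (D.card * E.card)) * H t =
      (∑ p ∈ D ×ˢ E, if p.1 + p.2 = t then H t else 0) / (D.card * E.card) := by
    intro t
    rw [card_filter, Nat.cast_sum, div_mul_eq_mul_div, sum_mul]
    congr 1
    refine sum_congr rfl fun p _ => ?_
    split_ifs <;> simp
  rw [sum_congr rfl fun t _ => h t, ← sum_div, sum_comm, sum_product]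
  congr 1
  refine sum_congr rfl fun d _ => sum_congr rfl fun e _ => ?_
  rw [sum_ite_eq]
  simp

theorem cor_sum (D E : Finset G) (F : G → ℝ) :
    ∑ x, cor (EE D E) x * F x =
      (∑ d ∈ D, ∑ e' ∈ E, ∑ d' ∈ D, ∑ e ∈ E, F (e' - d + d' - e)) /
        ((D.card * E.card) * (D.card * E.card)) := by
  have h1 : ∑ x, cor (EE D E) x * F x = ∑ t, EE D E t * ∑ u, EE D E u * F (u - t) := by
    unfold cor
    simp only [sum_mul]
    rw [sum_comm]
    refine sum_congr rfl fun t _ => ?_
    rw [mul_sum]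
    refine Fintype.sum_equiv (Equiv.addLeft t) _ _ fun x => ?_
    simp only [Equiv.coe_addLeft, add_sub_cancel_left]
    ring
  rw [h1, EE_sum]
  have h2 : ∀ t, ∑ u, EE D E u * F (u - t) =
      (∑ d ∈ D, ∑ e ∈ E, F (d + e - t)) / (D.card * E.card) := fun t =>
    EE_sum D E fun u => F (u - t)
  rw [sum_congr rfl fun d _ => sum_congr rfl fun e _ => h2 (d + e)]
  simp only [← sum_div]
  rw [div_div]
  congr 1
  refine sum_congr rfl fun d _ => ?_
  calc ∑ e ∈ E, ∑ d' ∈ D, ∑ e' ∈ E, F (d' + e' - (d + e))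
      = ∑ e ∈ E, ∑ e' ∈ E, ∑ d' ∈ D, F (d' + e' - (d + e)) :=
        sum_congr rfl fun e _ => sum_comm
    _ = ∑ e' ∈ E, ∑ e ∈ E, ∑ d' ∈ D, F (d' + e' - (d + e)) := sum_comm
    _ = ∑ e' ∈ E, ∑ d' ∈ D, ∑ e ∈ E, F (d' + e' - (d + e)) :=
        sum_congr rfl fun e _ => sum_comm
    _ = _ := by
        refine sum_congr rfl fun e' _ => sum_congr rfl fun d' _ => sum_congr rfl fun e _ => ?_
        congr 1
        abel

theorem pigeon (D E : Finset G) (hD : D.Nonempty) (hE : E.Nonempty) (F : G → ℝ) (V : ℝ)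
    (h : V ≤ ∑ x, cor (EE D E) x * F x) :
    ∃ w : G, (D.card * E.card : ℝ) * V ≤ ∑ d' ∈ D, ∑ e ∈ E, F (w + d' - e) := by
  by_contra hcon
  push Not at hcon
  have hD0 : (0 : ℝ) < D.card := by exact_mod_cast hD.card_pos
  have hE0 : (0 : ℝ) < E.card := by exact_mod_cast hE.card_pos
  have h1 : ∑ d ∈ D, ∑ e' ∈ E, ∑ d' ∈ D, ∑ e ∈ E, F (e' - d + d' - e) <
      ∑ d ∈ D, ∑ e' ∈ E, (D.card * E.card : ℝ) * V :=
    sum_lt_sum_of_nonempty hD fun d _ => sum_lt_sum_of_nonempty hE fun e' _ => hcon _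
  rw [cor_sum, le_div_iff₀ (by positivity)] at h
  simp only [sum_const, nsmul_eq_mul] at h1
  nlinarith

end

theorem t_SIFT : S_SIFT := by
  intro G _ _ _ A D E α Q hα hA hD hE h
  obtain ⟨w, hw⟩ := pigeon D E hD hE _ _ h
  have hD0 : (0 : ℝ) < D.card := by exact_mod_cast hD.card_pos
  have hE0 : (0 : ℝ) < E.card := by exact_mod_cast hE.card_pos
  have hA0 : (0 : ℝ) < A.card := by exact_mod_cast hA.card_pos
  set D' : Finset G := D.image (fun d => w + d) with hD'
  have hD'c : D'.card = D.card := card_image_of_injective _ (add_right_injective w)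
  set A1 : (Fin Q → G) → Finset G := fun s => D'.filter fun a => ∀ i, s i + a ∈ A with hA1
  set A2 : (Fin Q → G) → Finset G := fun s => E.filter fun b => ∀ i, s i + b ∈ A with hA2
  set bd : G × G → Prop := fun q => (ct A (q.1 - q.2) : ℝ) < 33 / 32 * α * A.card with hbd
  classical
  set Bad : (Fin Q → G) → ℕ := fun s => ((A1 s ×ˢ A2 s).filter bd).card with hBad
  -- the four sums
  have s1 : ∑ s, ((A1 s).card : ℝ) = D.card * (A.card : ℝ) ^ Q := by
    have h1 := dc D' Q fun a u => u + a ∈ A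
    simp only [card_sh, sum_const, smul_eq_mul, hD'c] at h1
    exact_mod_cast h1
  have s2 : ∑ s, ((A2 s).card : ℝ) = E.card * (A.card : ℝ) ^ Q := by
    have h1 := dc E Q fun a u => u + a ∈ A
    simp only [card_sh, sum_const, smul_eq_mul] at h1
    exact_mod_cast h1
  have hpr : ∀ (p : G × G → Prop) [DecidablePred p], ∑ s, (((A1 s ×ˢ A2 s).filter p).card : ℝ) =
      ∑ q ∈ (D' ×ˢ E).filter p, (ct A (q.1 - q.2) : ℝ) ^ Q := by
    intro p _
    have h1 := dc ((D' ×ˢ E).filter p) Q fun q u => u + q.1 ∈ A ∧ u + q.2 ∈ A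
    simp only [card_ct] at h1
    have h2 : ∀ s : Fin Q → G, (A1 s ×ˢ A2 s).filter p =
        ((D' ×ˢ E).filter p).filter fun q => ∀ i, s i + q.1 ∈ A ∧ s i + q.2 ∈ A := by
      intro s
      ext q
      simp only [hA1, hA2, mem_filter, mem_product, forall_and]
      tauto
    rw [sum_congr rfl fun s _ => by rw [h2 s]]
    exact_mod_cast h1
  have s3 : (D.card * E.card : ℝ) * (17 / 16 * α * A.card) ^ Q ≤
      ∑ s, (((A1 s).card : ℝ) * (A2 s).card) := by
    have h1 := hpr (fun _ => True)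
    simp only [filter_true, card_product, Nat.cast_mul] at h1
    rw [h1]
    refine hw.trans (le_of_eq ?_)
    rw [sum_product, hD', sum_image (fun a _ b _ hab => add_right_injective w hab)]
  have s4 : ∑ s, (Bad s : ℝ) ≤ (D.card * E.card : ℝ) * (33 / 32 * α * A.card) ^ Q := by
    have h1 := hpr bd
    rw [h1]
    have h2 : ∀ q ∈ (D' ×ˢ E).filter bd, (ct A (q.1 - q.2) : ℝ) ^ Q ≤
        (33 / 32 * α * A.card) ^ Q := by
      intro q hq
      have h3 := (mem_filter.1 hq).2
      exact pow_le_pow_left₀ (Nat.cast_nonneg _) h3.le _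
    refine (sum_le_sum h2).trans ?_
    rw [sum_const, nsmul_eq_mul]
    refine mul_le_mul_of_nonneg_right ?_ (by positivity)
    have h4 : ((D' ×ˢ E).filter bd).card ≤ D.card * E.card := by
      rw [← hD'c, ← card_product]
      exact card_filter_le _ _
    exact_mod_cast h4
  set ρ : ℝ := (33 / 34 : ℝ) ^ Q with hρ
  have hρ0 : 0 < ρ := by positivity
  set W : ℝ := (17 / 16 * α * A.card) ^ Q with hW
  have hW0 : 0 < W := by positivity
  have e1 : (33 / 32 * α * A.card : ℝ) ^ Q = ρ * W := by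
    rw [hρ, hW, ← mul_pow]
    congr 1
    ring
  have e2 : α ^ Q * (A.card : ℝ) ^ Q ≤ W := by
    rw [hW, ← mul_pow]
    refine pow_le_pow_left₀ (by positivity) ?_ _
    nlinarith [mul_pos hα hA0]
  rw [e1] at s4
  suffices hs : ∃ s, α ^ Q / 4 * D.card ≤ (A1 s).card ∧ α ^ Q / 4 * E.card ≤ (A2 s).card ∧
      (Bad s : ℝ) ≤ 4 * ρ * ((A1 s).card * (A2 s).card) by
    obtain ⟨s, h1, h2, h3⟩ := hs
    refine ⟨w, A1 s, A2 s, ?_, filter_subset _ _, h1, h2, ?_⟩
    · intro a ha
      obtain ⟨d, hd, rfl⟩ := mem_image.1 (mem_filter.1 ha).1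
      rw [add_sub_cancel_left]
      exact hd
    · refine le_trans (le_of_eq ?_) h3
      simp only [hBad, hbd]
  by_contra hcon
  push Not at hcon
  have key : ∀ s, ((A1 s).card : ℝ) * (A2 s).card ≤
      α ^ Q / 4 * D.card * (A2 s).card + α ^ Q / 4 * E.card * (A1 s).card + Bad s / (4 * ρ) := by
    intro s
    have n1 : (0 : ℝ) ≤ (A1 s).card := Nat.cast_nonneg _
    have n2 : (0 : ℝ) ≤ (A2 s).card := Nat.cast_nonneg _
    have n3 : (0 : ℝ) ≤ α ^ Q / 4 * D.card * (A2 s).card := by positivity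
    have n4 : (0 : ℝ) ≤ α ^ Q / 4 * E.card * (A1 s).card := by positivity
    have n5 : (0 : ℝ) ≤ Bad s / (4 * ρ) := by positivity
    by_cases c1 : α ^ Q / 4 * D.card ≤ (A1 s).card
    · by_cases c2 : α ^ Q / 4 * E.card ≤ (A2 s).card
      · have h3 := hcon s c1 c2
        have h4 : ((A1 s).card : ℝ) * (A2 s).card ≤ Bad s / (4 * ρ) := by
          rw [le_div_iff₀ (by positivity)]
          linarith
        linarith
      · push Not at c2
        have h4 : ((A1 s).card : ℝ) * (A2 s).card ≤ α ^ Q / 4 * E.card * (A1 s).card := by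
          nlinarith
        linarith
    · push Not at c1
      have h4 : ((A1 s).card : ℝ) * (A2 s).card ≤ α ^ Q / 4 * D.card * (A2 s).card := by
        nlinarith
      linarith
  have tot := sum_le_sum fun s (_ : s ∈ (univ : Finset (Fin Q → G))) => key s
  rw [sum_add_distrib, sum_add_distrib, ← mul_sum, ← mul_sum, ← sum_div, s1, s2] at tot
  have t4 : (∑ s, (Bad s : ℝ)) / (4 * ρ) ≤ D.card * E.card * W / 4 := by
    rw [div_le_iff₀ (by positivity)]
    refine s4.trans (le_of_eq ?_)
    ring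
  have t5 : α ^ Q / 4 * D.card * (E.card * (A.card : ℝ) ^ Q) ≤ D.card * E.card * W / 4 := by
    have : α ^ Q / 4 * D.card * (E.card * (A.card : ℝ) ^ Q) =
      D.card * E.card * (α ^ Q * (A.card : ℝ) ^ Q) / 4 := by ring
    rw [this]
    have h6 : (D.card * E.card : ℝ) * (α ^ Q * (A.card : ℝ) ^ Q) ≤ D.card * E.card * W :=
      mul_le_mul_of_nonneg_left e2 (by positivity)
    linarith
  have t6 : α ^ Q / 4 * E.card * (D.card * (A.card : ℝ) ^ Q) ≤ D.card * E.card * W / 4 := by
    have : α ^ Q / 4 * E.card * (D.card * (A.card : ℝ) ^ Q) =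
      α ^ Q / 4 * D.card * (E.card * (A.card : ℝ) ^ Q) := by ring
    rw [this]
    exact t5
  have pos : (0 : ℝ) < D.card * E.card * W := by positivity
  linarith

end Pool.Agent.H914.KM
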