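import Pool.Agent.H566.KTs

/-!
# Project KM (helper566): TR, abstract transference (helper824)
-/

set_option autoImplicit false

namespace Pool.Agent.H824.KM

open Finset
open Pool.Agent.H566.KM

section Basic

variable {N : ℕ} [NeZero N]

/-- translation invariance of sums over `ZMod N` -/
private theorem sum_shift (g : ZMod N → ℝ) (c : ZMod N) : ∑ z, g (z + c) = ∑ z, g z :=
  Fintype.sum_equiv (Equiv.addRight c) _ _ (fun _ => rfl)

theorem smo_nonneg (B : Finset (ZMod N)) (g : ZMod N → ℝ) (hg : ∀ z, 0 ≤ g z) (z : ZMod N) :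
    0 ≤ smo B g z := by
  unfold smo
  apply div_nonneg _ (by positivity)
  exact Finset.sum_nonneg fun b _ => Finset.sum_nonneg fun b' _ => hg _

theorem smo_mass (B : Finset (ZMod N)) (hB : B.Nonempty) (g : ZMod N → ℝ) :
    ∑ z, smo B g z = ∑ z, g z := by
  unfold smo
  rw [← Finset.sum_div]
  have hc : (0 : ℝ) < (B.card : ℝ) := by exact_mod_cast hB.card_pos
  rw [div_eq_iff (by positivity)]
  rw [Finset.sum_comm]
  have h1 : ∀ b ∈ B, ∑ z, ∑ b' ∈ B, g (z + b + b') = (B.card : ℝ) * ∑ z, g z := by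
    intro b _
    rw [Finset.sum_comm]
    have h2 : ∀ b' ∈ B, ∑ z, g (z + b + b') = ∑ z, g z := by
      intro b' _
      have := sum_shift g (b + b')
      simpa [add_assoc] using this
    rw [Finset.sum_congr rfl h2]
    simp
  rw [Finset.sum_congr rfl h1]
  simp
  ring

theorem smo_sum {K : ℕ} (B : Finset (ZMod N)) (a : Fin K → ZMod N → ℝ) (z : ZMod N) :
    ∑ i, smo B (a i) z = smo B (fun z => ∑ i, a i z) z := by
  unfold smo
  rw [← Finset.sum_div]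
  congr 1
  rw [Finset.sum_comm]
  apply Finset.sum_congr rfl
  intro b _
  rw [Finset.sum_comm]

/-- pairs with a given difference -/
theorem sum_pairs (B : Finset (ZMod N)) (u : ZMod N → ℝ) :
    ∑ b ∈ B, ∑ b' ∈ B, u (b' - b) = ∑ h, u h * (ct B h : ℝ) := by
  have h1 : ∀ b ∈ B, ∑ b' ∈ B, u (b' - b) = ∑ h, if b + h ∈ B then u h else 0 := by
    intro b _
    rw [← Finset.sum_filter]
    apply Finset.sum_bij' (fun b' _ => b' - b) (fun h _ => b + h)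
    · intro b' hb'
      simp [hb']
    · intro h hh
      simpa using hh
    · intro b' _
      ring
    · intro h _
      ring
    · intro b' _
      rfl
  rw [Finset.sum_congr rfl h1, Finset.sum_comm]
  apply Finset.sum_congr rfl
  intro h _
  rw [← Finset.sum_filter, Finset.sum_const]
  unfold ct
  simp [mul_comm]

theorem smo_sq (B : Finset (ZMod N)) (hB : B.Nonempty) (g : ZMod N → ℝ) :
    ∑ z, smo B g z ^ 2 ≤ (∑ h, cor g h * (ct B h : ℝ)) / (B.card : ℝ) ^ 2 := by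
  have hc : (0 : ℝ) < (B.card : ℝ) := by exact_mod_cast hB.card_pos
  -- the single average
  let G : ZMod N → ℝ := fun y => ∑ b' ∈ B, g (y + b')
  have e1 : ∀ z, smo B g z = (∑ b ∈ B, G (z + b)) / (B.card : ℝ) ^ 2 := fun z => rfl
  have e2 : ∀ z, smo B g z ^ 2 ≤ (∑ b ∈ B, G (z + b) ^ 2) / (B.card : ℝ) ^ 3 := by
    intro z
    rw [e1, div_pow, div_le_div_iff₀ (by positivity) (by positivity)]
    have h := sq_sum_le_card_mul_sum_sq (s := B) (f := fun b => G (z + b))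
    have hs : 0 ≤ (B.card : ℝ) ^ 3 := by positivity
    calc (∑ b ∈ B, G (z + b)) ^ 2 * (B.card : ℝ) ^ 3
        ≤ ((B.card : ℝ) * ∑ b ∈ B, G (z + b) ^ 2) * (B.card : ℝ) ^ 3 :=
          mul_le_mul_of_nonneg_right h hs
      _ = (∑ b ∈ B, G (z + b) ^ 2) * ((B.card : ℝ) ^ 2) ^ 2 := by ring
  have e3 : ∑ z, (∑ b ∈ B, G (z + b) ^ 2) / (B.card : ℝ) ^ 3 = (∑ y, G y ^ 2) / (B.card : ℝ) ^ 2 := by
    rw [← Finset.sum_div, Finset.sum_comm]
    have h1 : ∀ b ∈ B, ∑ z, G (z + b) ^ 2 = ∑ y, G y ^ 2 := fun b _ => sum_shift (fun y => G y ^ 2) b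
    rw [Finset.sum_congr rfl h1, Finset.sum_const, nsmul_eq_mul]
    rw [div_eq_div_iff (by positivity) (by positivity)]
    ring
  have e4 : ∑ y, G y ^ 2 = ∑ h, cor g h * (ct B h : ℝ) := by
    rw [← sum_pairs B (fun h => cor g h)]
    have h1 : ∀ y, G y ^ 2 = ∑ b ∈ B, ∑ b' ∈ B, g (y + b) * g (y + b') := by
      intro y
      rw [sq, Finset.sum_mul_sum]
    simp_rw [h1]
    rw [Finset.sum_comm]
    apply Finset.sum_congr rfl
    intro b _
    rw [Finset.sum_comm]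
    apply Finset.sum_congr rfl
    intro b' _
    unfold cor
    have := sum_shift (fun t => g t * g (t + (b' - b))) b
    rw [← this]
    apply Finset.sum_congr rfl
    intro y _
    congr 2
    ring
  calc ∑ z, smo B g z ^ 2 ≤ ∑ z, (∑ b ∈ B, G (z + b) ^ 2) / (B.card : ℝ) ^ 3 :=
        Finset.sum_le_sum fun z _ => e2 z
    _ = (∑ y, G y ^ 2) / (B.card : ℝ) ^ 2 := e3
    _ = (∑ h, cor g h * (ct B h : ℝ)) / (B.card : ℝ) ^ 2 := by rw [e4]

/-- solutions of `x + y = 2 m` in a set where a nonnegative function is large -/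
theorem t3_le (f : ZMod N → ℝ) (hf : ∀ z, 0 ≤ f z) (A : Finset (ZMod N)) (δ : ℝ) (hδ : 0 ≤ δ)
    (hA : ∀ x ∈ A, δ ≤ f x) : δ ^ 2 * (T3 A : ℝ) ≤ ∑ m ∈ A, cvl f (m + m) := by
  have h1 : (T3 A : ℝ) = ∑ m ∈ A, (((A.filter fun t => m + m - t ∈ A).card : ℕ) : ℝ) := by
    have h2 : T3 A = ∑ m ∈ A, (A.filter fun t => m + m - t ∈ A).card := by
      unfold T3
      rw [Finset.card_filter, Finset.sum_product_right]
      apply Finset.sum_congr rfl
      intro m _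
      rw [Finset.sum_product, Finset.card_filter]
      apply Finset.sum_congr rfl
      intro t _
      have h3 : ∀ y ∈ A, (if t + y = m + m then 1 else 0 : ℕ) = if y = m + m - t then 1 else 0 := by
        intro y _
        congr 1
        apply propext
        constructor
        · intro h
          rw [← h]
          ring
        · intro h
          rw [h]
          ring
      rw [Finset.sum_congr rfl h3, Finset.sum_ite_eq']
    rw [h2]
    push_cast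
    rfl
  rw [h1, Finset.mul_sum]
  apply Finset.sum_le_sum
  intro m _
  unfold cvl
  calc δ ^ 2 * (((A.filter fun t => m + m - t ∈ A).card : ℕ) : ℝ)
      = ∑ t ∈ A.filter fun t => m + m - t ∈ A, δ ^ 2 := by
        rw [Finset.sum_const, nsmul_eq_mul]
        ring
    _ ≤ ∑ t ∈ A.filter fun t => m + m - t ∈ A, f t * f (m + m - t) := by
        apply Finset.sum_le_sum
        intro t ht
        rw [Finset.mem_filter] at ht
        rw [sq]
        exact mul_le_mul (hA t ht.1) (hA _ ht.2) hδ (hf t)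
    _ ≤ ∑ t, f t * f (m + m - t) := by
        apply Finset.sum_le_sum_of_subset_of_nonneg (Finset.subset_univ _)
        intro t _ _
        exact mul_nonneg (hf _) (hf _)

theorem zero_mem_Bo (Γ : Finset (ZMod N)) (ρ : ℝ) (hρ : 0 ≤ ρ) : (0 : ZMod N) ∈ Bo Γ ρ := by
  classical
  unfold Bo
  simp only [Finset.mem_filter, Finset.mem_univ, true_and]
  intro l _
  simp [hρ]

end Basic

/-- number of large frequencies -/
theorem card_large {N : ℕ} [NeZero N] {K : ℕ} (a : Fin K → ZMod N → ℝ) (C₀ ε : ℝ) (hε : 0 < ε)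
    (hres : ∀ i, ∑ γ, ‖fh (a i) γ‖ ^ 3 ≤ C₀ * (N : ℝ) ^ 3) (Γ : Finset (ZMod N))
    (hΓ : ∀ γ ∈ Γ, ∃ i, ε ^ 2 * N ≤ ‖fh (a i) γ‖) :
    (Γ.card : ℝ) * ε ^ 6 ≤ K * C₀ := by
  have hN : (0 : ℝ) < (N : ℝ) := by
    have := NeZero.pos N
    exact_mod_cast this
  have h1 : ∀ γ ∈ Γ, (ε ^ 2 * N) ^ 3 ≤ ∑ i, ‖fh (a i) γ‖ ^ 3 := by
    intro γ hγ
    obtain ⟨i, hi⟩ := hΓ γ hγ
    calc (ε ^ 2 * N) ^ 3 ≤ ‖fh (a i) γ‖ ^ 3 := pow_le_pow_left₀ (by positivity) hi 3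
      _ ≤ ∑ i, ‖fh (a i) γ‖ ^ 3 :=
        Finset.single_le_sum (f := fun i => ‖fh (a i) γ‖ ^ 3) (fun i _ => by positivity) (Finset.mem_univ i)
  have h2 : (Γ.card : ℝ) * (ε ^ 2 * N) ^ 3 ≤ K * (C₀ * (N : ℝ) ^ 3) := by
    calc (Γ.card : ℝ) * (ε ^ 2 * N) ^ 3 = ∑ γ ∈ Γ, (ε ^ 2 * N) ^ 3 := by
          rw [Finset.sum_const, nsmul_eq_mul]
      _ ≤ ∑ γ ∈ Γ, ∑ i, ‖fh (a i) γ‖ ^ 3 := Finset.sum_le_sum h1
      _ ≤ ∑ γ, ∑ i, ‖fh (a i) γ‖ ^ 3 := by
          apply Finset.sum_le_sum_of_subset_of_nonneg (Finset.subset_univ _)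
          intro γ _ _
          exact Finset.sum_nonneg fun i _ => by positivity
      _ = ∑ i, ∑ γ, ‖fh (a i) γ‖ ^ 3 := Finset.sum_comm
      _ ≤ ∑ i : Fin K, C₀ * (N : ℝ) ^ 3 := Finset.sum_le_sum fun i _ => hres i
      _ = K * (C₀ * (N : ℝ) ^ 3) := by simp
  have h3 : (0 : ℝ) < (N : ℝ) ^ 3 := by positivity
  have h4 : ((Γ.card : ℝ) * ε ^ 6) * (N : ℝ) ^ 3 ≤ (K * C₀) * (N : ℝ) ^ 3 := by
    calc ((Γ.card : ℝ) * ε ^ 6) * (N : ℝ) ^ 3 = (Γ.card : ℝ) * (ε ^ 2 * N) ^ 3 := by ring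
      _ ≤ K * (C₀ * (N : ℝ) ^ 3) := h2
      _ = (K * C₀) * (N : ℝ) ^ 3 := by ring
  exact le_of_mul_le_mul_right h4 h3

/-- the core of the transference -/
theorem core (h2 : S_FC) (C₀ : ℝ) (hC₀ : 1 ≤ C₀) (c E₁ ℓ : ℕ) (hc : 512 * C₀ ≤ 2 ^ c)
    (N : ℕ) [NeZero N] (K : ℕ) (a : Fin K → ZMod N → ℝ) (hodd : Odd N) (hK : K ≤ 2 ^ ℓ)
    (hKM : ∀ A : Finset (ZMod N), N ≤ 2 ^ (ℓ + c) * A.card → (N : ℝ) ^ 2 ≤ 2 ^ E₁ * T3 A)
    (ha : ∀ i z, 0 ≤ a i z) (hmass : (N : ℝ) / 8 ≤ ∑ i, ∑ z, a i z)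
    (hres : ∀ i, ∑ γ, ‖fh (a i) γ‖ ^ 3 ≤ C₀ * (N : ℝ) ^ 3)
    (h2nd : ∀ Γ : Finset (ZMod N), Γ.card ≤ 2 ^ (ℓ + c + 6 * (E₁ + 8 + 2 * ℓ + c)) →
        ∑ h, cor (fun z => ∑ i, a i z) h * (ct (Bo Γ (1 / 2 ^ (E₁ + 8 + 2 * ℓ + c))) h : ℝ) ≤
          C₀ * N * ((Bo Γ (1 / 2 ^ (E₁ + 8 + 2 * ℓ + c))).card : ℝ) ^ 2) :
    (N : ℝ) / (512 * C₀) ≤ ((univ.filter fun m : ZMod N =>
      ∃ i, (N : ℝ) / 2 ^ (E₁ + 8 + 2 * ℓ + c) ≤ cvl (a i) (m + m)).card : ℝ) := by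
  classical
  by_contra hcon
  push Not at hcon
  set e : ℕ := E₁ + 8 + 2 * ℓ + c with he
  set ε : ℝ := 1 / 2 ^ e with hεdef
  have hN : (0 : ℝ) < (N : ℝ) := by
    have := NeZero.pos N
    exact_mod_cast this
  have hε : 0 < ε := by positivity
  have hε1 : ε ≤ 1 := by
    rw [hεdef, div_le_one (by positivity)]
    exact one_le_pow₀ (by norm_num)
  have hC₀0 : 0 < C₀ := by linarith
  set Γ : Finset (ZMod N) := univ.filter fun γ => ∃ i, ε ^ 2 * N ≤ ‖fh (a i) γ‖ with hΓdef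
  have hΓmem : ∀ γ ∈ Γ, ∃ i, ε ^ 2 * N ≤ ‖fh (a i) γ‖ := by
    intro γ hγ
    rw [hΓdef, Finset.mem_filter] at hγ
    exact hγ.2
  have hΓcard : Γ.card ≤ 2 ^ (ℓ + c + 6 * e) := by
    have h1 := card_large a C₀ ε hε hres Γ hΓmem
    have h3 : (K : ℝ) ≤ 2 ^ ℓ := by exact_mod_cast hK
    have h4 : C₀ ≤ 2 ^ c := by linarith
    have h5 : (K : ℝ) * C₀ ≤ 2 ^ ℓ * 2 ^ c := by
      apply mul_le_mul h3 h4 (by linarith) (by positivity)
    have h6 : ε ^ 6 * 2 ^ (6 * e) = 1 := by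
      rw [hεdef, div_pow, one_pow, ← pow_mul, mul_comm e 6]
      rw [one_div, inv_mul_cancel₀ (by positivity)]
    have h7 : (Γ.card : ℝ) ≤ 2 ^ (ℓ + c + 6 * e) := by
      calc (Γ.card : ℝ) = ((Γ.card : ℝ) * ε ^ 6) * 2 ^ (6 * e) := by
            rw [mul_assoc, h6, mul_one]
        _ ≤ (2 ^ ℓ * 2 ^ c) * 2 ^ (6 * e) := by
            apply mul_le_mul_of_nonneg_right (h1.trans h5) (by positivity)
        _ = 2 ^ (ℓ + c + 6 * e) := by rw [pow_add, pow_add]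
    exact_mod_cast h7
  set B : Finset (ZMod N) := Bo Γ ε with hBdef
  have hB : B.Nonempty := ⟨0, zero_mem_Bo Γ ε hε.le⟩
  have hBc : (0 : ℝ) < (B.card : ℝ) := by exact_mod_cast hB.card_pos
  set ν : ZMod N → ℝ := fun z => ∑ i, a i z with hνdef
  set F : ZMod N → ℝ := smo B ν with hFdef
  have hF0 : ∀ z, 0 ≤ F z := smo_nonneg B ν (fun z => Finset.sum_nonneg fun i _ => ha i z)
  have hFmass : (N : ℝ) / 8 ≤ ∑ z, F z := by
    rw [hFdef, smo_mass B hB ν, hνdef, Finset.sum_comm]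
    exact hmass
  have hFsq : ∑ z, F z ^ 2 ≤ C₀ * N := by
    refine (smo_sq B hB ν).trans ?_
    rw [div_le_iff₀ (by positivity)]
    exact h2nd Γ hΓcard
  -- the popular set
  set F₀ : Finset (ZMod N) := univ.filter fun z => 1 / 16 ≤ F z with hF₀def
  have hF₀ : (N : ℝ) / (256 * C₀) ≤ (F₀.card : ℝ) := by
    have h1 : ∑ z, F z = ∑ z ∈ F₀, F z + ∑ z ∈ univ.filter (fun z => ¬ 1 / 16 ≤ F z), F z := by
      rw [hF₀def]
      exact (Finset.sum_filter_add_sum_filter_not univ (fun z => 1 / 16 ≤ F z) F).symm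
    have h3 : ∑ z ∈ univ.filter (fun z => ¬ 1 / 16 ≤ F z), F z ≤ (N : ℝ) / 16 := by
      calc ∑ z ∈ univ.filter (fun z => ¬ 1 / 16 ≤ F z), F z
          ≤ ∑ z ∈ univ.filter (fun z => ¬ 1 / 16 ≤ F z), (1 / 16 : ℝ) := by
            apply Finset.sum_le_sum
            intro z hz
            rw [Finset.mem_filter] at hz
            linarith [not_le.mp hz.2]
        _ ≤ ∑ z : ZMod N, (1 / 16 : ℝ) := by
            apply Finset.sum_le_sum_of_subset_of_nonneg (Finset.filter_subset _ _)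
            intro z _ _
            norm_num
        _ = (N : ℝ) / 16 := by
            rw [Finset.sum_const, Finset.card_univ, ZMod.card, nsmul_eq_mul]
            ring
    have h4 : (N : ℝ) / 16 ≤ ∑ z ∈ F₀, F z := by linarith
    have h5 : (∑ z ∈ F₀, F z) ^ 2 ≤ (F₀.card : ℝ) * (C₀ * N) := by
      calc (∑ z ∈ F₀, F z) ^ 2 ≤ (F₀.card : ℝ) * ∑ z ∈ F₀, F z ^ 2 := sq_sum_le_card_mul_sum_sq
        _ ≤ (F₀.card : ℝ) * (C₀ * N) := by
            apply mul_le_mul_of_nonneg_left _ (by positivity)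
            refine le_trans ?_ hFsq
            apply Finset.sum_le_sum_of_subset_of_nonneg (Finset.subset_univ _)
            intro z _ _
            positivity
    have h6 : ((N : ℝ) / 16) ^ 2 ≤ (∑ z ∈ F₀, F z) ^ 2 :=
      pow_le_pow_left₀ (by positivity) h4 2
    rw [div_le_iff₀ (by positivity)]
    have h7 : (N : ℝ) * N ≤ ((F₀.card : ℝ) * (256 * C₀)) * N := by nlinarith
    exact le_of_mul_le_mul_right h7 hN
  -- the bad set
  set U : Finset (ZMod N) := univ.filter fun m => ¬ ∃ i, (N : ℝ) / 2 ^ e ≤ cvl (a i) (m + m) with hUdef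
  have hFU : (N : ℝ) / (512 * C₀) ≤ ((F₀ ∩ U).card : ℝ) := by
    have h1 : F₀.card ≤ (F₀ ∩ U).card +
        (univ.filter fun m : ZMod N => ∃ i, (N : ℝ) / 2 ^ e ≤ cvl (a i) (m + m)).card := by
      have hsub : F₀ ⊆ (F₀ ∩ U) ∪
          (univ.filter fun m : ZMod N => ∃ i, (N : ℝ) / 2 ^ e ≤ cvl (a i) (m + m)) := by
        intro x hx
        rw [Finset.mem_union, Finset.mem_inter]
        by_cases hx2 : ∃ i, (N : ℝ) / 2 ^ e ≤ cvl (a i) (x + x)
        · right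
          rw [Finset.mem_filter]
          exact ⟨Finset.mem_univ _, hx2⟩
        · left
          refine ⟨hx, ?_⟩
          rw [hUdef, Finset.mem_filter]
          exact ⟨Finset.mem_univ _, hx2⟩
      exact (Finset.card_le_card hsub).trans (Finset.card_union_le _ _)
    have h3 : (F₀.card : ℝ) ≤ ((F₀ ∩ U).card : ℝ) +
        ((univ.filter fun m : ZMod N => ∃ i, (N : ℝ) / 2 ^ e ≤ cvl (a i) (m + m)).card : ℝ) := by
      exact_mod_cast h1
    have h4 : (N : ℝ) / (256 * C₀) = N / (512 * C₀) + N / (512 * C₀) := by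
      field_simp
      ring
    linarith
  -- K is positive
  have hK0 : 0 < K := by
    rcases Nat.eq_zero_or_pos K with h | h
    · exfalso
      subst h
      simp at hmass
      linarith
    · exact h
  have hKR : (0 : ℝ) < (K : ℝ) := by exact_mod_cast hK0
  -- the popular level sets
  let A : Fin K → Finset (ZMod N) := fun i => U.filter fun x => 1 / (16 * K) ≤ smo B (a i) x
  have hcov : F₀ ∩ U ⊆ univ.biUnion A := by
    intro x hx
    rw [Finset.mem_inter] at hx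
    rw [Finset.mem_biUnion]
    by_contra hno
    push Not at hno
    have hxF : 1 / 16 ≤ F x := by
      have := hx.1
      rw [hF₀def, Finset.mem_filter] at this
      exact this.2
    have h1 : ∀ i ∈ (univ : Finset (Fin K)), smo B (a i) x < 1 / (16 * K) := by
      intro i _
      by_contra hlt
      push Not at hlt
      exact hno i (Finset.mem_univ i) (Finset.mem_filter.mpr ⟨hx.2, hlt⟩)
    have h3 : F x = ∑ i, smo B (a i) x := (smo_sum B a x).symm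
    have h4 : ∑ i, smo B (a i) x < ∑ i : Fin K, (1 / (16 * K) : ℝ) := by
      have : Nonempty (Fin K) := ⟨⟨0, hK0⟩⟩
      exact Finset.sum_lt_sum_of_nonempty Finset.univ_nonempty h1
    have h5 : ∑ i : Fin K, (1 / (16 * K) : ℝ) = 1 / 16 := by
      rw [Finset.sum_const, Finset.card_univ, Fintype.card_fin, nsmul_eq_mul]
      field_simp
    linarith
  obtain ⟨i, hi⟩ : ∃ i, ((F₀ ∩ U).card : ℝ) ≤ K * ((A i).card : ℝ) := by
    by_contra hno
    push Not at hno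
    have h1 : (F₀ ∩ U).card ≤ ∑ i, (A i).card :=
      (Finset.card_le_card hcov).trans Finset.card_biUnion_le
    have h3 : ((F₀ ∩ U).card : ℝ) ≤ ∑ i, ((A i).card : ℝ) := by exact_mod_cast h1
    have h4 : ∑ i, (K : ℝ) * ((A i).card : ℝ) < ∑ i : Fin K, ((F₀ ∩ U).card : ℝ) := by
      have : Nonempty (Fin K) := ⟨⟨0, hK0⟩⟩
      exact Finset.sum_lt_sum_of_nonempty Finset.univ_nonempty (fun i _ => hno i)
    rw [← Finset.mul_sum, Finset.sum_const, Finset.card_univ, Fintype.card_fin, nsmul_eq_mul] at h4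
    have h5 := lt_of_mul_lt_mul_left h4 hKR.le
    linarith
  have hAU : A i ⊆ U := Finset.filter_subset _ _
  -- the hypothesis of KM
  have hsize : N ≤ 2 ^ (ℓ + c) * (A i).card := by
    have h1 : (N : ℝ) ≤ (512 * C₀) * (K * ((A i).card : ℝ)) := by
      have h3 := hFU.trans hi
      rw [div_le_iff₀ (by positivity)] at h3
      linarith
    have h3 : (K : ℝ) ≤ 2 ^ ℓ := by exact_mod_cast hK
    have h4 : (N : ℝ) ≤ 2 ^ (ℓ + c) * ((A i).card : ℝ) := by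
      calc (N : ℝ) ≤ (512 * C₀) * (K * ((A i).card : ℝ)) := h1
        _ ≤ 2 ^ c * (2 ^ ℓ * ((A i).card : ℝ)) := by
            apply mul_le_mul hc _ (by positivity) (by positivity)
            exact mul_le_mul_of_nonneg_right h3 (by positivity)
        _ = 2 ^ (ℓ + c) * ((A i).card : ℝ) := by rw [pow_add]; ring
    exact_mod_cast h4
  have hT3 := hKM (A i) hsize
  -- lower bound for the smoothed function
  have hlow := t3_le (smo B (a i)) (smo_nonneg B (a i) (ha i)) (A i) (1 / (16 * K)) (by positivity)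
    (fun x hx => (Finset.mem_filter.mp hx).2)
  -- upper bound for the function itself
  have hup : ∑ m ∈ A i, cvl (a i) (m + m) ≤ ε * (N : ℝ) ^ 2 := by
    calc ∑ m ∈ A i, cvl (a i) (m + m) ≤ ∑ m ∈ A i, (N : ℝ) / 2 ^ e := by
          apply Finset.sum_le_sum
          intro m hm
          have h1 := hAU hm
          rw [hUdef, Finset.mem_filter] at h1
          by_contra hlt
          push Not at hlt
          exact h1.2 ⟨i, hlt.le⟩
      _ = ((A i).card : ℝ) * (N * ε) := by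
          rw [Finset.sum_const, nsmul_eq_mul, hεdef]
          ring
      _ ≤ (N : ℝ) * (N * ε) := by
          apply mul_le_mul_of_nonneg_right _ (by positivity)
          have h1 : (A i).card ≤ N := by
            calc (A i).card ≤ (univ : Finset (ZMod N)).card := Finset.card_le_card (Finset.subset_univ _)
              _ = N := by rw [Finset.card_univ, ZMod.card]
          exact_mod_cast h1
      _ = ε * (N : ℝ) ^ 2 := by ring
  have hFC := h2 N (a i) Γ (A i) ε C₀ hodd (ha i) hε hε1 (by linarith) (hres i) (by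
    intro γ hγ
    rw [hΓdef, Finset.mem_filter]
    exact ⟨Finset.mem_univ _, i, hγ⟩)
  have hFC' := (abs_le.mp hFC).2
  rw [← hBdef] at hFC'
  -- combine
  have hKl : (K : ℝ) ≤ 2 ^ ℓ := by exact_mod_cast hK
  have hT : (0 : ℝ) ≤ (T3 (A i) : ℝ) := by positivity
  have key1 : (1 / (256 * (2 ^ ℓ) ^ 2) : ℝ) * T3 (A i) ≤ ε * (6 + 5 * C₀) * (N : ℝ) ^ 2 := by
    have h1 : (1 / (256 * (2 ^ ℓ) ^ 2) : ℝ) ≤ (1 / (16 * K)) ^ 2 := by
      rw [div_pow, one_pow, mul_pow]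
      apply one_div_le_one_div_of_le (by positivity)
      have : (K : ℝ) ^ 2 ≤ (2 ^ ℓ) ^ 2 := pow_le_pow_left₀ hKR.le hKl 2
      nlinarith
    have h3 := mul_le_mul_of_nonneg_right h1 hT
    nlinarith
  have key2 : (N : ℝ) ^ 2 ≤ 2 ^ E₁ * (256 * (2 ^ ℓ) ^ 2 * (ε * (6 + 5 * C₀) * (N : ℝ) ^ 2)) := by
    refine hT3.trans ?_
    apply mul_le_mul_of_nonneg_left _ (by positivity)
    rw [div_mul_eq_mul_div, one_mul, div_le_iff₀ (by positivity)] at key1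
    linarith
  have key3 : (2 : ℝ) ^ E₁ * (256 * (2 ^ ℓ) ^ 2) * ε * 2 ^ c = 1 := by
    rw [hεdef, he]
    have : (2 : ℝ) ^ (E₁ + 8 + 2 * ℓ + c) = 2 ^ E₁ * (256 * (2 ^ ℓ) ^ 2) * 2 ^ c := by
      rw [pow_add, pow_add, pow_add, mul_comm 2 ℓ, pow_mul]
      norm_num
      ring
    rw [this]
    field_simp
  have hN2 : (0 : ℝ) < (N : ℝ) ^ 2 := by positivity
  have hX : (0 : ℝ) < 2 ^ E₁ * (256 * (2 ^ ℓ) ^ 2) * ε := by positivity
  set X : ℝ := 2 ^ E₁ * (256 * (2 ^ ℓ) ^ 2) * ε with hXdef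
  have key4 : (N : ℝ) ^ 2 * 1 ≤ (N : ℝ) ^ 2 * (X * (6 + 5 * C₀)) := by
    calc (N : ℝ) ^ 2 * 1 = (N : ℝ) ^ 2 := mul_one _
      _ ≤ 2 ^ E₁ * (256 * (2 ^ ℓ) ^ 2 * (ε * (6 + 5 * C₀) * (N : ℝ) ^ 2)) := key2
      _ = (N : ℝ) ^ 2 * (X * (6 + 5 * C₀)) := by
        rw [hXdef]
        ring
  have key5 : 1 ≤ X * (6 + 5 * C₀) := le_of_mul_le_mul_left key4 hN2
  have key6 : X * (6 + 5 * C₀) ≤ X * (2 ^ c * (11 / 512)) := by
    apply mul_le_mul_of_nonneg_left _ hX.le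
    linarith
  nlinarith

/-- **TR** -/
theorem t_TR (h1 : S_KM) (h2 : S_FC) : S_TR := by
  intro C₀ hC₀
  obtain ⟨C₁, hC₁⟩ := h1
  obtain ⟨c, hc⟩ : ∃ c : ℕ, 512 * C₀ ≤ 2 ^ c := by
    obtain ⟨n, hn⟩ := pow_unbounded_of_one_lt (512 * C₀) (by norm_num : (1 : ℝ) < 2)
    exact ⟨n, hn.le⟩
  set M : ℕ := C₁ * (1 + c) ^ C₁ + 10 + c with hM
  refine ⟨1 + c + 6 * M + C₁ + 1, ?_⟩
  intro ℓ hℓ
  set E₁ : ℕ := C₁ * (ℓ + c) ^ C₁ with hE₁
  have hE : E₁ ≤ C₁ * (1 + c) ^ C₁ * ℓ ^ C₁ := by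
    rw [hE₁, mul_assoc, ← mul_pow]
    apply Nat.mul_le_mul_left
    apply Nat.pow_le_pow_left
    nlinarith
  have hp1 : ℓ ^ C₁ ≤ ℓ ^ (C₁ + 1) := Nat.pow_le_pow_right hℓ (Nat.le_succ _)
  have hp2 : ℓ ≤ ℓ ^ (C₁ + 1) := Nat.le_self_pow (by omega) ℓ
  have hp3 : 1 ≤ ℓ ^ (C₁ + 1) := Nat.one_le_pow _ _ hℓ
  have he : E₁ + 8 + 2 * ℓ + c ≤ M * ℓ ^ (C₁ + 1) := by
    have h3 : C₁ * (1 + c) ^ C₁ * ℓ ^ C₁ ≤ C₁ * (1 + c) ^ C₁ * ℓ ^ (C₁ + 1) :=
      Nat.mul_le_mul_left _ hp1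
    have h4 : c * 1 ≤ c * ℓ ^ (C₁ + 1) := Nat.mul_le_mul_left _ hp3
    calc E₁ + 8 + 2 * ℓ + c
        ≤ C₁ * (1 + c) ^ C₁ * ℓ ^ (C₁ + 1) + 8 * ℓ ^ (C₁ + 1) + 2 * ℓ ^ (C₁ + 1) + c * ℓ ^ (C₁ + 1) := by
          omega
      _ = M * ℓ ^ (C₁ + 1) := by rw [hM]; ring
  have hR : ℓ + c + 6 * (E₁ + 8 + 2 * ℓ + c) ≤ (1 + c + 6 * M) * ℓ ^ (C₁ + 1) := by
    have h4 : c * 1 ≤ c * ℓ ^ (C₁ + 1) := Nat.mul_le_mul_left _ hp3
    calc ℓ + c + 6 * (E₁ + 8 + 2 * ℓ + c)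
        ≤ ℓ ^ (C₁ + 1) + c * ℓ ^ (C₁ + 1) + 6 * (M * ℓ ^ (C₁ + 1)) := by omega
      _ = (1 + c + 6 * M) * ℓ ^ (C₁ + 1) := by ring
  set D : ℕ := 1 + c + 6 * M + C₁ + 1 with hD
  have hpow : ℓ ^ (C₁ + 1) ≤ ℓ ^ D := Nat.pow_le_pow_right hℓ (by omega)
  have hR' : ℓ + c + 6 * (E₁ + 8 + 2 * ℓ + c) ≤ D * ℓ ^ D := by
    refine hR.trans ?_
    exact Nat.mul_le_mul (by omega) hpow
  refine ⟨E₁ + 8 + 2 * ℓ + c, 2 ^ (ℓ + c + 6 * (E₁ + 8 + 2 * ℓ + c)), by omega,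
    Nat.pow_le_pow_right (by norm_num) hR', ?_⟩
  intro N _ K a hodd hK ha hmass hres h2nd
  exact core h2 C₀ hC₀ c E₁ ℓ hc N K a hodd hK
    (fun A hA => hC₁ N A (ℓ + c) hodd (by omega) hA) ha hmass hres h2nd

end Pool.Agent.H824.KM
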