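import Pool.Agent.H566.KMs

/-!
Project KM (helper566): unbalancing of moments.
-/

set_option autoImplicit false

namespace Pool.Agent.H81.KM

open Finset Pool.Agent.H566.KM

theorem young (u l : ℝ) (hu : 0 ≤ u) (hl : 0 ≤ l) (p : ℕ) :
    ((p : ℝ) + 1) * u ^ p * l ≤ p * u ^ (p + 1) + l ^ (p + 1) := by
  induction p with
  | zero => simp
  | succ p ih =>
    have h1 : 0 ≤ l * (p * u ^ (p + 1) + l ^ (p + 1) - ((p : ℝ) + 1) * u ^ p * l) :=
      mul_nonneg hl (by linarith)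
    have h2 : 0 ≤ ((p : ℝ) + 1) * u ^ p * (u - l) ^ 2 := by positivity
    have h3 : l * (p * u ^ (p + 1) + l ^ (p + 1) - ((p : ℝ) + 1) * u ^ p * l) +
        ((p : ℝ) + 1) * u ^ p * (u - l) ^ 2 =
        ((p : ℝ) + 1) * u ^ (p + 1 + 1) + l ^ (p + 1 + 1) -
          ((p : ℝ) + 1 + 1) * u ^ (p + 1) * l := by
      ring
    push_cast
    linarith

/-- the pointwise bound -/
theorem point (t φ : ℝ) (P : ℕ) (hP : 7 ≤ P) (ht : 1 / 5 ≤ t)
    (hφ : 17 / 18 * (1 + t) ≤ φ) :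
    (17 / 16 : ℝ) ^ (30 * P) * (4 * (4 ^ P * t ^ P)) ≤ φ ^ (30 * P) := by
  have h1 : (1 : ℝ) + 30 * ((8 * t - 1) / 9) ≤ (1 + (8 * t - 1) / 9) ^ 30 :=
    one_add_mul_le_pow (by linarith) 30
  have h2 : (4.88 : ℝ) * t ≤ (1 + (8 * t - 1) / 9) ^ 30 := by
    refine le_trans ?_ h1
    linarith
  have h3 : ((4.88 : ℝ) * t) ^ P ≤ ((1 + (8 * t - 1) / 9) ^ 30) ^ P :=
    pow_le_pow_left₀ (by linarith) h2 P
  have h4 : (4 : ℝ) ≤ (1.22 : ℝ) ^ P := by
    calc (4 : ℝ) ≤ (1.22 : ℝ) ^ 7 := by norm_num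
      _ ≤ (1.22 : ℝ) ^ P := pow_le_pow_right₀ (by norm_num) hP
  have h5 : (4 : ℝ) * (4 ^ P * t ^ P) ≤ ((4.88 : ℝ) * t) ^ P := by
    have e : ((4.88 : ℝ) * t) ^ P = (1.22 : ℝ) ^ P * (4 ^ P * t ^ P) := by
      rw [← mul_pow, ← mul_pow]
      congr 1
      ring
    rw [e]
    have : (0 : ℝ) ≤ 4 ^ P * t ^ P := by positivity
    exact mul_le_mul_of_nonneg_right h4 this
  have h6 : (4 : ℝ) * (4 ^ P * t ^ P) ≤ (8 / 9 * (1 + t)) ^ (30 * P) := by
    have e : ((8 : ℝ) / 9 * (1 + t)) ^ (30 * P) = ((1 + (8 * t - 1) / 9) ^ 30) ^ P := by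
      rw [← pow_mul]
      congr 1
      ring
    rw [e]
    exact h5.trans h3
  have h7 : (17 / 16 : ℝ) ^ (30 * P) * (8 / 9 * (1 + t)) ^ (30 * P) =
      (17 / 18 * (1 + t)) ^ (30 * P) := by
    rw [← mul_pow]
    congr 1
    ring
  calc (17 / 16 : ℝ) ^ (30 * P) * (4 * (4 ^ P * t ^ P))
      ≤ (17 / 16 : ℝ) ^ (30 * P) * (8 / 9 * (1 + t)) ^ (30 * P) :=
        mul_le_mul_of_nonneg_left h6 (by positivity)
    _ = (17 / 18 * (1 + t)) ^ (30 * P) := h7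
    _ ≤ φ ^ (30 * P) := pow_le_pow_left₀ (by positivity) hφ _

theorem t_UNB : S_UNB := by
  intro X _ ν f φ p hp hp6 hν hν1 hodd heven hφ hφf
  have hPodd : Odd (p + 1) := hp.add_one
  -- first step
  have s1 : (1 / 4 : ℝ) ^ (p + 1) ≤ ∑ x, ν x * |f x| ^ (p + 1) := by
    have h1 : ∀ x, ν x * (((p : ℝ) + 1) * |f x| ^ p * (1 / 4)) ≤
        ν x * (p * |f x| ^ (p + 1) + (1 / 4) ^ (p + 1)) := fun x =>
      mul_le_mul_of_nonneg_left (young _ _ (abs_nonneg _) (by norm_num) p) (hν x)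
    have h2 := Finset.sum_le_sum (fun x (_ : x ∈ (Finset.univ : Finset X)) => h1 x)
    have h3 : ∑ x, ν x * (((p : ℝ) + 1) * |f x| ^ p * (1 / 4)) =
        ((p : ℝ) + 1) * (1 / 4) * ∑ x, ν x * f x ^ p := by
      rw [Finset.mul_sum]
      refine Finset.sum_congr rfl fun x _ => ?_
      rw [hp.pow_abs]
      ring
    have h4 : ∑ x, ν x * (p * |f x| ^ (p + 1) + (1 / 4) ^ (p + 1)) =
        p * ∑ x, ν x * |f x| ^ (p + 1) + (1 / 4) ^ (p + 1) := by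
      calc ∑ x, ν x * (p * |f x| ^ (p + 1) + (1 / 4) ^ (p + 1))
          = ∑ x, (p * (ν x * |f x| ^ (p + 1)) + (1 / 4) ^ (p + 1) * ν x) :=
            Finset.sum_congr rfl fun x _ => by ring
        _ = p * ∑ x, ν x * |f x| ^ (p + 1) + (1 / 4) ^ (p + 1) := by
            rw [Finset.sum_add_distrib, ← Finset.mul_sum, ← Finset.mul_sum, hν1, mul_one]
    rw [h3, h4] at h2
    have hp0 : (0 : ℝ) < p := by
      have : 0 < p := by omega
      exact_mod_cast this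
    have h5 : ((p : ℝ) + 1) * (1 / 4) * (1 / 4) ^ p ≤
        ((p : ℝ) + 1) * (1 / 4) * ∑ x, ν x * f x ^ p :=
      mul_le_mul_of_nonneg_left heven (by positivity)
    have h6 : ((p : ℝ) + 1) * (1 / 4) * (1 / 4) ^ p = ((p : ℝ) + 1) * (1 / 4) ^ (p + 1) := by
      ring
    have h7 : (p : ℝ) * (1 / 4) ^ (p + 1) ≤ p * ∑ x, ν x * |f x| ^ (p + 1) := by
      rw [h6] at h5
      linarith
    exact le_of_mul_le_mul_left h7 hp0
  -- second step
  have s2 : (1 / 4 : ℝ) ^ (p + 1) / 2 ≤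
      ∑ x, ν x * ((|f x| ^ (p + 1) + f x ^ (p + 1)) / 2) := by
    have e : ∑ x, ν x * ((|f x| ^ (p + 1) + f x ^ (p + 1)) / 2) =
        (∑ x, ν x * |f x| ^ (p + 1) + ∑ x, ν x * f x ^ (p + 1)) / 2 := by
      rw [← Finset.sum_add_distrib, Finset.sum_div]
      exact Finset.sum_congr rfl fun x _ => by ring
    rw [e]
    linarith
  have s3 : (1 / 5 : ℝ) ^ (p + 1) ≤ (1 / 4) ^ (p + 1) / 4 := by
    have h1 : (4 / 5 : ℝ) ^ (p + 1) ≤ 1 / 4 := by
      calc (4 / 5 : ℝ) ^ (p + 1) ≤ (4 / 5 : ℝ) ^ 7 :=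
            pow_le_pow_of_le_one (by norm_num) (by norm_num) (by omega)
        _ ≤ 1 / 4 := by norm_num
    have h2 : (1 / 5 : ℝ) ^ (p + 1) = (4 / 5) ^ (p + 1) * (1 / 4) ^ (p + 1) := by
      rw [← mul_pow]
      congr 1
      norm_num
    rw [h2]
    have h3 : (0 : ℝ) ≤ (1 / 4) ^ (p + 1) := by positivity
    nlinarith
  -- pointwise comparison
  have s4 : ∀ x, ν x * ((|f x| ^ (p + 1) + f x ^ (p + 1)) / 2) ≤
      ν x * (if 1 / 5 ≤ f x then f x ^ (p + 1) else 0) + (1 / 5) ^ (p + 1) * ν x := by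
    intro x
    rw [mul_comm ((1 / 5 : ℝ) ^ (p + 1)) (ν x), ← mul_add]
    refine mul_le_mul_of_nonneg_left ?_ (hν x)
    split_ifs with h
    · have : |f x| = f x := abs_of_nonneg (by linarith)
      rw [this]
      have h5 : (0 : ℝ) ≤ (1 / 5) ^ (p + 1) := by positivity
      linarith
    · rcases le_total 0 (f x) with h0 | h0
      · rw [abs_of_nonneg h0]
        have : f x ^ (p + 1) ≤ (1 / 5) ^ (p + 1) :=
          pow_le_pow_left₀ h0 (by linarith [not_le.1 h]) _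
        linarith
      · rw [abs_of_nonpos h0, hPodd.neg_pow]
        have h5 : (0 : ℝ) ≤ (1 / 5) ^ (p + 1) := by positivity
        linarith
  have s5 : (1 / 4 : ℝ) ^ (p + 1) / 4 ≤
      ∑ x, ν x * (if 1 / 5 ≤ f x then f x ^ (p + 1) else 0) := by
    have h1 := Finset.sum_le_sum (fun x (_ : x ∈ (Finset.univ : Finset X)) => s4 x)
    rw [Finset.sum_add_distrib, ← Finset.mul_sum, hν1, mul_one] at h1
    linarith
  have s6 : ∀ x, (17 / 16 : ℝ) ^ (30 * (p + 1)) * (4 * 4 ^ (p + 1)) *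
      (ν x * (if 1 / 5 ≤ f x then f x ^ (p + 1) else 0)) ≤ ν x * φ x ^ (30 * (p + 1)) := by
    intro x
    rcases (hν x).eq_or_lt with h0 | h0
    · rw [← h0]; simp
    · split_ifs with h
      · have := point (f x) (φ x) (p + 1) (by omega) h (hφf x h0 h)
        calc (17 / 16 : ℝ) ^ (30 * (p + 1)) * (4 * 4 ^ (p + 1)) * (ν x * f x ^ (p + 1))
            = ν x * ((17 / 16 : ℝ) ^ (30 * (p + 1)) * (4 * (4 ^ (p + 1) * f x ^ (p + 1)))) := by
              ring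
          _ ≤ ν x * φ x ^ (30 * (p + 1)) := mul_le_mul_of_nonneg_left this h0.le
      · have : 0 ≤ ν x * φ x ^ (30 * (p + 1)) := mul_nonneg h0.le (pow_nonneg (hφ x) _)
        simpa using this
  have s7 := Finset.sum_le_sum (fun x (_ : x ∈ (Finset.univ : Finset X)) => s6 x)
  rw [← Finset.mul_sum] at s7
  refine le_trans ?_ s7
  have h8 : (17 / 16 : ℝ) ^ (30 * (p + 1)) * (4 * 4 ^ (p + 1)) * ((1 / 4 : ℝ) ^ (p + 1) / 4) =
      (17 / 16 : ℝ) ^ (30 * (p + 1)) := by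
    have : (4 : ℝ) ^ (p + 1) * (1 / 4) ^ (p + 1) = 1 := by
      rw [← mul_pow]; norm_num
    calc (17 / 16 : ℝ) ^ (30 * (p + 1)) * (4 * 4 ^ (p + 1)) * ((1 / 4 : ℝ) ^ (p + 1) / 4)
        = (17 / 16 : ℝ) ^ (30 * (p + 1)) * ((4 : ℝ) ^ (p + 1) * (1 / 4) ^ (p + 1)) := by ring
      _ = _ := by rw [this, mul_one]
  refine h8.symm.le.trans ?_
  exact mul_le_mul_of_nonneg_left s5 (by positivity)

end Pool.Agent.H81.KM
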