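import Mathlib
import Pool.Agent.H566.KTs

/-!
# Project KM (helper566): UPP
-/

set_option autoImplicit false

namespace Pool.Agent.H385.KM

open Finset Pool.Agent.H566.KM

/-- the primes up to `w` -/
def PP (w : ℕ) : Finset ℕ := (range (w + 1)).filter Nat.Prime

theorem mem_PP {w p : ℕ} : p ∈ PP w ↔ p ≤ w ∧ p.Prime := by
  unfold PP
  rw [mem_filter, mem_range, Nat.lt_succ_iff]

theorem pW_eq (w : ℕ) : pW w = ∏ p ∈ PP w, p := rfl

theorem pW_pos (w : ℕ) : 0 < pW w := by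
  rw [pW_eq]
  exact Finset.prod_pos fun p hp => (mem_PP.1 hp).2.pos

theorem tot_pW (w : ℕ) :
    ((pW w).totient : ℝ) = (pW w : ℝ) * ∏ p ∈ PP w, (1 - (p : ℝ)⁻¹) := by
  have h1 := Nat.totient_eq_mul_prod_factors (pW w)
  have h2 : (pW w).primeFactors = PP w :=
    Nat.primeFactors_prod fun p hp => (mem_PP.1 hp).2
  rw [h2] at h1
  have h3 := congrArg (fun x : ℚ => (x : ℝ)) h1
  push_cast at h3
  exact h3

/-- the reciprocals -/
noncomputable def fr : ℕ →* ℝ where
  toFun n := (n : ℝ)⁻¹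
  map_one' := by simp
  map_mul' a b := by
    push_cast
    rw [mul_inv]

theorem harm (w : ℕ) : Real.log ((w : ℝ) + 1) ≤ ∏ p ∈ PP w, (1 - (p : ℝ)⁻¹)⁻¹ := by
  classical
  have h : ∀ {p : ℕ}, p.Prime → ‖fr p‖ < 1 := by
    intro p hp
    have h1 : (1 : ℝ) < p := by exact_mod_cast hp.one_lt
    show ‖(p : ℝ)⁻¹‖ < 1
    rw [norm_inv, Real.norm_of_nonneg (by linarith)]
    exact inv_lt_one_of_one_lt₀ h1
  obtain ⟨-, hh⟩ := EulerProduct.summable_and_hasSum_smoothNumbers_prod_primesBelow_geometric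
    (f := fr) h (w + 1)
  have h1 := sum_le_hasSum ((Icc 1 w).subtype (· ∈ (w + 1).smoothNumbers))
    (fun i _ => (by
      show (0 : ℝ) ≤ ((i : ℕ) : ℝ)⁻¹
      positivity)) hh
  have h2 : ∑ x ∈ (Icc 1 w).subtype (· ∈ (w + 1).smoothNumbers), fr (x : ℕ) =
      ∑ x ∈ Icc 1 w, fr x :=
    Finset.sum_subtype_of_mem (fun x => fr x) (fun x hx => Nat.mem_smoothNumbers_of_lt
      (by rw [mem_Icc] at hx; omega) (by rw [mem_Icc] at hx; omega))
  rw [h2] at h1
  have h3 := log_add_one_le_harmonic w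
  rw [harmonic_eq_sum_Icc] at h3
  push_cast at h3
  exact h3.trans h1

theorem pos_PP (w : ℕ) : ∀ p ∈ PP w, (0 : ℝ) < 1 - (p : ℝ)⁻¹ := by
  intro p hp
  have h1 : (1 : ℝ) < p := by exact_mod_cast (mem_PP.1 hp).2.one_lt
  have := inv_lt_one_of_one_lt₀ h1
  linarith

theorem phi_le {w : ℕ} (hw : 1 ≤ w) :
    ((pW w).totient : ℝ) / (pW w : ℝ) ≤ 1 / Real.log ((w : ℝ) + 1) := by
  have hW : (0 : ℝ) < pW w := by exact_mod_cast pW_pos w
  have hlog : 0 < Real.log ((w : ℝ) + 1) := Real.log_pos (by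
    have : (1 : ℝ) ≤ w := by exact_mod_cast hw
    linarith)
  have h1 := harm w
  have h2 : 0 < ∏ p ∈ PP w, (1 - (p : ℝ)⁻¹) := Finset.prod_pos (pos_PP w)
  rw [Finset.prod_inv_distrib] at h1
  rw [tot_pW, mul_div_cancel_left₀ _ hW.ne', le_div_iff₀ hlog]
  calc (∏ p ∈ PP w, (1 - (p : ℝ)⁻¹)) * Real.log ((w : ℝ) + 1) ≤
        (∏ p ∈ PP w, (1 - (p : ℝ)⁻¹)) * (∏ p ∈ PP w, (1 - (p : ℝ)⁻¹))⁻¹ :=
        mul_le_mul_of_nonneg_left h1 h2.le
    _ = 1 := mul_inv_cancel₀ h2.ne'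

/-- the odd part of the primorial -/
def oM (w : ℕ) : ℕ := ∏ p ∈ (PP w).erase 2, p

theorem pW_oM {w : ℕ} (hw : 2 ≤ w) : pW w = 2 * oM w := by
  rw [pW_eq, oM]
  exact (Finset.mul_prod_erase (PP w) (fun p => p) (mem_PP.2 ⟨hw, Nat.prime_two⟩)).symm

theorem oM_cop (w : ℕ) : Nat.Coprime 2 (oM w) := by
  rw [oM]
  refine Nat.Coprime.prod_right fun p hp => ?_
  rw [mem_erase, mem_PP] at hp
  exact (Nat.coprime_primes Nat.prime_two hp.2.2).2 (Ne.symm hp.1)

theorem tot_oM {w : ℕ} (hw : 2 ≤ w) : (pW w).totient = (oM w).totient := by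
  rw [pW_oM hw, Nat.totient_mul (oM_cop w), Nat.totient_two, one_mul]

theorem prime_dvd {w p : ℕ} (hp : p.Prime) (h : p ∣ pW w) : p ≤ w := by
  rw [pW_eq, Prime.dvd_finsetProd_iff hp.prime] at h
  obtain ⟨q, hq, hpq⟩ := h
  rw [mem_PP] at hq
  rw [(Nat.prime_dvd_prime_iff_eq hp hq.2).1 hpq]
  exact hq.1

/-- a sum of two congruent primes -/
theorem sum_cop {w p q m : ℕ} (hw : 2 ≤ w) (hp : p.Prime) (hq : q.Prime) (hpq : p % pW w = q % pW w)
    (hm : p + q = 2 * m) : 2 * m ≤ 2 * w ∨ (oM w).Coprime m := by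
  by_cases hpW : p ∣ pW w
  · left
    have h1 : p ≡ q [MOD p] := Nat.ModEq.of_dvd hpW hpq
    have h2 : p ∣ q := by
      have h3 : q % p = p % p := h1.symm
      rw [Nat.mod_self] at h3
      exact Nat.dvd_of_mod_eq_zero h3
    have h3 : p = q := (Nat.prime_dvd_prime_iff_eq hp hq).1 h2
    have h4 := prime_dvd hp hpW
    omega
  · right
    by_contra hcon
    obtain ⟨l, hl, hlM, hlm⟩ := Nat.Prime.not_coprime_iff_dvd.1 hcon
    have hlW : l ∣ pW w := by
      rw [pW_oM hw]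
      exact Dvd.dvd.mul_left hlM 2
    have h1 : p ≡ q [MOD l] := Nat.ModEq.of_dvd hlW hpq
    have h2 : l ∣ p + q := by
      rw [hm]
      exact Dvd.dvd.mul_left hlm 2
    have h3 : p + p ≡ p + q [MOD l] := h1.add_left p
    have h4 : l ∣ p + p := (Nat.ModEq.dvd_iff h3 dvd_rfl).2 h2
    have h5 : l ∣ 2 * p := by
      rw [two_mul]
      exact h4
    rcases (Nat.Prime.dvd_mul hl).1 h5 with h6 | h6
    · have h7 : l = 2 := (Nat.prime_dvd_prime_iff_eq hl Nat.prime_two).1 h6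
      rw [h7] at hlM
      have h8 := Nat.Coprime.eq_one_of_dvd (oM_cop w) hlM
      omega
    · have h7 : l = p := (Nat.prime_dvd_prime_iff_eq hl hp).1 h6
      rw [h7] at hlW
      exact hpW hlW

theorem count {K : ℕ} (χ : ℕ → Fin K) {w : ℕ} (hw : 2 ≤ w)
    (hχ : ∀ p q, χ p = χ q → p % pW w = q % pW w) (N : ℕ) :
    ((Icc 1 N).filter fun n => Even n ∧ 0 < rp χ n).card ≤
      (2 * w + 1) + (pW w).totient * (N / pW w + 1) := by
  classical
  have hM0 : oM w ≠ 0 := by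
    intro h
    have := pW_pos w
    rw [pW_oM hw, h] at this
    omega
  have hsub : ((Icc 1 N).filter fun n => Even n ∧ 0 < rp χ n) ⊆ range (2 * w + 1) ∪
      ((Ico 1 (1 + N / 2)).filter fun x => (oM w).Coprime x).image (fun m => 2 * m) := by
    intro n hn
    rw [mem_filter, mem_Icc] at hn
    obtain ⟨⟨hn1, hnN⟩, hev, hrp⟩ := hn
    obtain ⟨m, hm⟩ := hev
    have hm' : n = 2 * m := by omega
    unfold rp at hrp
    obtain ⟨⟨p, q⟩, hpq⟩ := Finset.card_pos.1 hrp
    rw [mem_filter, HasAntidiagonal.mem_antidiagonal] at hpq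
    obtain ⟨hsum, hp, hq, hc⟩ := hpq
    simp only at hsum hp hq hc
    rcases sum_cop hw hp hq (hχ p q hc) (hsum.trans hm') with h | h
    · exact mem_union_left _ (mem_range.2 (by omega))
    · refine mem_union_right _ (mem_image.2 ⟨m, ?_, hm'.symm⟩)
      rw [mem_filter, mem_Ico]
      exact ⟨⟨by omega, by omega⟩, h⟩
  refine (card_le_card hsub).trans ((card_union_le _ _).trans ?_)
  rw [card_range]
  refine add_le_add le_rfl (card_image_le.trans ?_)
  refine (Nat.Ico_filter_coprime_le 1 (N / 2) hM0).trans ?_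
  rw [tot_oM hw, pW_oM hw, Nat.div_div_eq_div_mul]

theorem log_bd {K w : ℕ} (hK : 0 < K) (hw : 2 ≤ w) (h : K < 4 ^ (w + 1)) :
    Real.log (Real.log K + 1) ≤ 3 * Real.log ((w : ℝ) + 1) := by
  have hw' : (2 : ℝ) ≤ w := by exact_mod_cast hw
  have hK' : (0 : ℝ) < K := by exact_mod_cast hK
  have hK1 : (1 : ℝ) ≤ K := by exact_mod_cast hK
  have h1 : Real.log K ≤ (w + 1) * Real.log 4 := by
    have h2 : (K : ℝ) ≤ 4 ^ (w + 1) := by exact_mod_cast h.le
    have h3 := Real.log_le_log hK' h2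
    rw [Real.log_pow] at h3
    push_cast at h3
    exact h3
  have h2 : Real.log 4 ≤ 2 := by
    have e : (4 : ℝ) = 2 ^ 2 := by norm_num
    rw [e, Real.log_pow]
    have := Real.log_two_lt_d9
    push_cast
    linarith
  have h3 : 0 ≤ Real.log K := Real.log_nonneg hK1
  have h4 : Real.log K + 1 ≤ ((w : ℝ) + 1) ^ 3 := by
    have h5 : Real.log K ≤ ((w : ℝ) + 1) * 2 :=
      h1.trans (mul_le_mul_of_nonneg_left h2 (by linarith))
    have h6 : (9 : ℝ) ≤ ((w : ℝ) + 1) ^ 2 := by nlinarith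
    have h7 : ((w : ℝ) + 1) * 9 ≤ ((w : ℝ) + 1) * ((w : ℝ) + 1) ^ 2 :=
      mul_le_mul_of_nonneg_left h6 (by linarith)
    nlinarith
  have h5 := Real.log_le_log (by linarith) h4
  rw [Real.log_pow] at h5
  push_cast at h5
  exact h5

theorem t_UPP : S_UPP := by
  classical
  refine ⟨6, by norm_num, ?_⟩
  intro K hK
  have hK0 : 0 < K := by omega
  have hK3 : (3 : ℝ) ≤ K := by exact_mod_cast hK
  have hlogK1 : 1 < Real.log K := by
    rw [Real.lt_log_iff_exp_lt (by linarith)]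
    have := Real.exp_one_lt_d9
    linarith
  have hLL : 0 < Real.log (Real.log K + 1) := Real.log_pos (by linarith)
  by_cases hK16 : K < 16
  · -- small `K`
    refine ⟨fun _ => ⟨0, hK0⟩, fun c hc => ⟨1, fun N hN => ?_⟩⟩
    have h1 : ((((Icc 1 N).filter fun n => Even n ∧ c * (N : ℝ) / Real.log N ^ 2 ≤
        (rp (fun _ => (⟨0, hK0⟩ : Fin K)) n : ℝ)).card : ℝ)) ≤ N := by
      have h2 := Finset.card_filter_le (Icc 1 N) (fun n => Even n ∧ c * (N : ℝ) / Real.log N ^ 2 ≤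
        (rp (fun _ => (⟨0, hK0⟩ : Fin K)) n : ℝ))
      rw [Nat.card_Icc] at h2
      have h3 : N + 1 - 1 = N := by omega
      rw [h3] at h2
      exact_mod_cast h2
    refine h1.trans ?_
    rw [le_div_iff₀ hLL]
    have h4 : Real.log K ≤ 3 := by
      have h5 : (K : ℝ) ≤ 16 := by exact_mod_cast hK16.le
      have h6 := Real.log_le_log (by linarith) h5
      have e : (16 : ℝ) = 2 ^ 4 := by norm_num
      rw [e, Real.log_pow] at h6
      have := Real.log_two_lt_d9
      push_cast at h6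
      linarith
    have h5 : Real.log (Real.log K + 1) ≤ 6 := by
      have := Real.log_le_sub_one_of_pos (show 0 < Real.log K + 1 by linarith)
      linarith
    have h6 : (0 : ℝ) ≤ N := Nat.cast_nonneg N
    have h7 := mul_le_mul_of_nonneg_left h5 h6
    push_cast
    linarith
  · -- large `K`
    push Not at hK16
    set w : ℕ := Nat.log 4 K with hw
    have hw2 : 2 ≤ w := by
      rw [hw]
      exact Nat.le_log_of_pow_le (by norm_num) (by linarith)
    have hKw : K < 4 ^ (w + 1) := Nat.lt_pow_succ_log_self (by norm_num) K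
    have hWK : pW w ≤ K := by
      have h1 : pW w ≤ 4 ^ w := primorial_le_four_pow w
      exact h1.trans (Nat.pow_log_le_self 4 (by omega))
    have hW0 := pW_pos w
    refine ⟨fun p => ⟨p % pW w, (Nat.mod_lt p hW0).trans_le hWK⟩, fun c hc =>
      ⟨(2 * w + 1 + pW w) * pW w + 2, fun N hN => ?_⟩⟩
    set χ : ℕ → Fin K := fun p => ⟨p % pW w, (Nat.mod_lt p hW0).trans_le hWK⟩ with hχ
    have hN2 : 2 ≤ N := by omega
    have hN2' : (2 : ℝ) ≤ N := by exact_mod_cast hN2
    have hlogN : 0 < Real.log N := Real.log_pos (by linarith)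
    have hcount := count χ hw2 (fun p q h => by
      have := congrArg Fin.val h
      exact this) N
    have hle : ((Icc 1 N).filter fun n => Even n ∧ c * (N : ℝ) / Real.log N ^ 2 ≤
        (rp χ n : ℝ)).card ≤ ((Icc 1 N).filter fun n => Even n ∧ 0 < rp χ n).card := by
      refine card_le_card fun n hn => ?_
      rw [mem_filter] at hn ⊢
      refine ⟨hn.1, hn.2.1, ?_⟩
      have h1 : 0 < c * (N : ℝ) / Real.log N ^ 2 := by positivity
      have h2 := lt_of_lt_of_le h1 hn.2.2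
      exact_mod_cast h2
    have hle' := hle.trans hcount
    have hW0' : (0 : ℝ) < pW w := by exact_mod_cast hW0
    have hW1' : (1 : ℝ) ≤ pW w := by exact_mod_cast hW0
    have htot1 : (1 : ℝ) ≤ ((pW w).totient : ℝ) := by
      exact_mod_cast Nat.totient_pos.2 hW0
    have htotW : ((pW w).totient : ℝ) ≤ pW w := by exact_mod_cast Nat.totient_le _
    have h1 : ((((Icc 1 N).filter fun n => Even n ∧ c * (N : ℝ) / Real.log N ^ 2 ≤
        (rp χ n : ℝ)).card : ℝ)) ≤ (2 * w + 1) + ((pW w).totient : ℝ) * ((N : ℝ) / pW w + 1) := by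
      have h2 : ((((Icc 1 N).filter fun n => Even n ∧ c * (N : ℝ) / Real.log N ^ 2 ≤
        (rp χ n : ℝ)).card : ℝ)) ≤
          (((2 * w + 1) + (pW w).totient * (N / pW w + 1) : ℕ) : ℝ) := by exact_mod_cast hle'
      refine h2.trans ?_
      push_cast
      have h3 : ((N / pW w : ℕ) : ℝ) ≤ (N : ℝ) / pW w := Nat.cast_div_le
      have h4 : ((pW w).totient : ℝ) * (((N / pW w : ℕ) : ℝ) + 1) ≤
          ((pW w).totient : ℝ) * ((N : ℝ) / pW w + 1) :=
        mul_le_mul_of_nonneg_left (by linarith) (by linarith)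
      linarith
    refine h1.trans ?_
    have h2 : (2 * (w : ℝ) + 1 + pW w) ≤ (N : ℝ) / pW w := by
      rw [le_div_iff₀ hW0']
      have : (((2 * w + 1 + pW w) * pW w + 2 : ℕ) : ℝ) ≤ N := by exact_mod_cast hN
      push_cast at this
      linarith
    have hNW : (0 : ℝ) ≤ (N : ℝ) / pW w := by positivity
    have h3 : (2 * (w : ℝ) + 1) + ((pW w).totient : ℝ) * ((N : ℝ) / pW w + 1) ≤
        2 * (((pW w).totient : ℝ) * ((N : ℝ) / pW w)) := by
      have h4 : (N : ℝ) / pW w ≤ ((pW w).totient : ℝ) * ((N : ℝ) / pW w) :=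
        le_mul_of_one_le_left hNW htot1
      linarith
    refine h3.trans ?_
    have h4 := phi_le (w := w) (by omega)
    have h5 := log_bd hK0 hw2 hKw
    have hw0 : (2 : ℝ) ≤ w := by exact_mod_cast hw2
    have hlw : 0 < Real.log ((w : ℝ) + 1) := Real.log_pos (by linarith)
    have h6 : 1 / Real.log ((w : ℝ) + 1) ≤ 3 / Real.log (Real.log K + 1) := by
      rw [div_le_div_iff₀ hlw hLL]
      linarith
    have h7 : 2 * (((pW w).totient : ℝ) * ((N : ℝ) / pW w)) =
        2 * N * (((pW w).totient : ℝ) / pW w) := by ring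
    rw [h7]
    have hN0 : (0 : ℝ) ≤ 2 * N := by positivity
    calc 2 * (N : ℝ) * (((pW w).totient : ℝ) / pW w) ≤
          2 * N * (3 / Real.log (Real.log K + 1)) :=
          mul_le_mul_of_nonneg_left (h4.trans h6) hN0
      _ = ((6 : ℕ) : ℝ) * (N : ℝ) / Real.log (Real.log K + 1) := by
          push_cast
          ring

end Pool.Agent.H385.KM
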