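import Mathlib
import Pool.Agent.H566.KM.Pos
import Pool.Agent.H566.KM.Unb
import Pool.Agent.H566.KM.Mom
import Pool.Agent.H566.KM.Sift
import Pool.Agent.H566.KM.Ap
import Pool.Agent.H566.KM.Inc
import Pool.Agent.H566.KM.Dbl
import Pool.Agent.H566.KM.Step
import Pool.Agent.H566.KM.Iter
import Pool.Agent.H566.KM.Fc
import Pool.Agent.H566.KM.Tr
import Pool.Agent.H566.KM.Gm
import Pool.Agent.H566.KM.H3m
import Pool.Agent.H566.KM.Phi
import Pool.Agent.H566.KM.Fin
import Pool.Agent.H566.KM.Low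
import Pool.Agent.H566.KM.Upp
import Pool.Agent.H566.KM.Pair
import Pool.Agent.H566.KM.Prm

/-!
Project KM: assembly. A theorem of Kelley-Meka type for `x + y = 2 m` in cyclic groups of odd order and the lower
and upper bounds for the proportion of monochromatic sums of two primes.
-/

set_option autoImplicit false

namespace Pool.Agent.H566.KM

theorem f_MOM : S_MOM :=
  Pool.Agent.H289.KM.t_MOM Pool.Agent.H585.KM.t_POS.1 Pool.Agent.H585.KM.t_POS.2 Pool.Agent.H81.KM.t_UNB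

theorem f_INC : S_INC := Pool.Agent.H825.KM.t_INC Pool.Agent.H914.KM.t_SIFT Pool.Agent.H441.KM.t_AP

theorem f_REG : S_REG := Pool.Agent.H115.KM.t_REG Pool.Agent.H115.KM.t_DBL

theorem f_STEP : S_STEP := Pool.Agent.H227.KM.t_STEP f_MOM f_INC f_REG

/-- the theorem of Kelley-Meka type -/
theorem f_KM : S_KM := Pool.Agent.H980.KM.t_KM f_STEP Pool.Agent.H115.KM.t_DBL

theorem f_TR : S_TR := Pool.Agent.H824.KM.t_TR f_KM Pool.Agent.H289.KM.t_FC

theorem f_H3 : S_H3 := Pool.Agent.H588.KM.t_H3 t_PAIR Pool.Agent.H122.KM.t_GM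

theorem f_FIN : S_FIN := Pool.Agent.H441.KM.t_FIN f_TR f_H3 t_RES t_MAS Pool.Agent.H115.KM.t_DBL

theorem f_LOW : S_LOW := Pool.Agent.H253.KM.t_LOW f_FIN Pool.Agent.H277.KM.t_PHI

theorem f_UPP : S_UPP := Pool.Agent.H385.KM.t_UPP

end Pool.Agent.H566.KM
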