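import Pool.Agent.H566.KTs

set_option autoImplicit false

namespace Pool.Agent.H253.KM

open Finset Pool.Agent.H566.KM

theorem pW_eq (w : ℕ) (hw : 2 ≤ w) : ∃ V : ℕ, Odd V ∧ pW w = 2 * V := by
  classical
  have h2 : 2 ∈ (range (w + 1)).filter Nat.Prime := by
    rw [mem_filter, mem_range]
    exact ⟨by omega, Nat.prime_two⟩
  refine ⟨∏ p ∈ ((range (w + 1)).filter Nat.Prime).erase 2, p, ?_, ?_⟩
  · apply Finset.prod_induction _ Odd (fun _ _ => Odd.mul) odd_one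
    intro p hp
    rw [mem_erase, mem_filter] at hp
    exact hp.2.2.odd_of_ne_two hp.1
  · unfold pW
    exact (Finset.mul_prod_erase _ (fun p => p) h2).symm

theorem inj_lem (V s s' b b' : ℕ) (hV : Odd V) (hb : Odd b) (hb' : Odd b') (h1 : b < 2 * V)
    (h2 : b' < 2 * V) (h : 2 * V * s + 2 * b = 2 * V * s' + 2 * b') : b = b' ∧ s = s' := by
  have h0 : V * s + b = V * s' + b' := by
    have : 2 * (V * s + b) = 2 * (V * s' + b') := by
      rw [mul_add, mul_add, ← mul_assoc, ← mul_assoc, h]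
    omega
  have hm1 : b ≡ b' [MOD V] := by
    have h3 : V * s + b ≡ V * s' + b' [MOD V] := by rw [h0]
    have h4 : V * s + b ≡ b [MOD V] := by
      unfold Nat.ModEq
      rw [Nat.mul_add_mod]
    have h5 : V * s' + b' ≡ b' [MOD V] := by
      unfold Nat.ModEq
      rw [Nat.mul_add_mod]
    exact h4.symm.trans (h3.trans h5)
  have hm2 : b ≡ b' [MOD 2] := by
    unfold Nat.ModEq
    rw [Nat.odd_iff.1 hb, Nat.odd_iff.1 hb']
  have hcop : Nat.Coprime V 2 := Nat.coprime_two_right.2 hV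
  have hm : b ≡ b' [MOD (V * 2)] := (Nat.modEq_and_modEq_iff_modEq_mul hcop).1 ⟨hm1, hm2⟩
  have hbb : b = b' := Nat.ModEq.eq_of_lt_of_lt hm (by omega) (by omega)
  refine ⟨hbb, ?_⟩
  subst hbb
  have h6 : V * s = V * s' := by omega
  exact Nat.eq_of_mul_eq_mul_left (by omega) h6

theorem count (W V L N : ℕ) (D cL cN : ℝ) {K : ℕ} (χ : ℕ → Fin K) (hV : Odd V) (hW : W = 2 * V)
    (hN : W * (4 * L) + 2 * W ≤ N) (hcomp : cN ≤ cL)
    (h : ∀ b : ℕ, b.Coprime W → b < W → D ≤ (((Ioc (2 * L) (4 * L)).filter fun s =>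
      cL ≤ (rp χ (W * s + 2 * b) : ℝ)).card : ℝ)) :
    (W.totient : ℝ) * D ≤ (((Icc 1 N).filter fun n => Even n ∧ cN ≤ (rp χ n : ℝ)).card : ℝ) := by
  classical
  have hVpos : 0 < V := hV.pos
  set T := (range W).filter fun b => W.Coprime b with hT
  let S : ℕ → Finset ℕ := fun b =>
    (Ioc (2 * L) (4 * L)).filter fun s => cL ≤ (rp χ (W * s + 2 * b) : ℝ)
  have hodd : ∀ b ∈ T, Odd b ∧ b < 2 * V := by
    intro b hb
    rw [hT, mem_filter, mem_range] at hb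
    refine ⟨?_, by omega⟩
    apply Nat.coprime_two_right.1
    apply Nat.Coprime.coprime_dvd_right _ hb.2.symm
    exact ⟨V, hW⟩
  have hinj : Set.InjOn (fun x : (_ : ℕ) × ℕ => W * x.2 + 2 * x.1) (T.sigma S : Set _) := by
    rintro ⟨b, s⟩ hx ⟨b', s'⟩ hx' heq
    rw [Finset.mem_coe, mem_sigma] at hx hx'
    have h1 := hodd b hx.1
    have h2 := hodd b' hx'.1
    simp only at heq
    rw [hW] at heq
    obtain ⟨h3, h4⟩ := inj_lem V s s' b b' hV h1.1 h2.1 h1.2 h2.2 heq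
    subst h3
    subst h4
    rfl
  have hsub : (T.sigma S).image (fun x : (_ : ℕ) × ℕ => W * x.2 + 2 * x.1) ⊆
      (Icc 1 N).filter fun n => Even n ∧ cN ≤ (rp χ n : ℝ) := by
    intro n hn
    rw [mem_image] at hn
    obtain ⟨⟨b, s⟩, hx, rfl⟩ := hn
    rw [mem_sigma] at hx
    obtain ⟨hb, hs⟩ := hx
    have h1 := hodd b hb
    simp only [S, mem_filter, mem_Ioc] at hs
    rw [mem_filter, mem_Icc]
    have hs1 : 1 ≤ s := by omega
    have hWpos : 0 < W := by omega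
    refine ⟨⟨?_, ?_⟩, ?_, ?_⟩
    · have : 1 * 1 ≤ W * s := Nat.mul_le_mul hWpos hs1
      simp only
      omega
    · have h3 : W * s ≤ W * (4 * L) := Nat.mul_le_mul_left W hs.1.2
      simp only
      omega
    · simp only
      rw [hW]
      exact ⟨V * s + b, by ring⟩
    · exact hcomp.trans hs.2
  have hcard : (T.sigma S).card ≤
      ((Icc 1 N).filter fun n => Even n ∧ cN ≤ (rp χ n : ℝ)).card := by
    rw [← card_image_of_injOn hinj]
    exact card_le_card hsub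
  have hsum : (W.totient : ℝ) * D ≤ ((T.sigma S).card : ℝ) := by
    rw [card_sigma]
    push_cast
    have h1 : ∑ b ∈ T, D ≤ ∑ b ∈ T, ((S b).card : ℝ) := by
      apply sum_le_sum
      intro b hb
      rw [hT, mem_filter, mem_range] at hb
      exact h b hb.2.symm hb.1
    rw [sum_const, nsmul_eq_mul] at h1
    rw [Nat.totient_eq_card_coprime]
    exact h1
  exact hsum.trans (by exact_mod_cast hcard)

theorem log_bd (K : ℕ) (hK : 1 ≤ K) : ((Nat.log 2 K + 1 : ℕ) : ℝ) ≤ 2 * (1 + Real.log K) := by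
  have h1 : (2 : ℝ) ^ Nat.log 2 K ≤ K := by
    exact_mod_cast Nat.pow_log_le_self 2 (by omega)
  have h2 : (Nat.log 2 K : ℝ) * Real.log 2 ≤ Real.log K := by
    rw [← Real.log_pow]
    exact Real.log_le_log (by positivity) h1
  have h3 : (0.5 : ℝ) ≤ Real.log 2 := by
    have := Real.log_two_gt_d9
    linarith
  have h4 : (Nat.log 2 K : ℝ) * 0.5 ≤ (Nat.log 2 K : ℝ) * Real.log 2 :=
    mul_le_mul_of_nonneg_left h3 (Nat.cast_nonneg _)
  push_cast
  linarith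

theorem const_bd (C C' j ℓ : ℕ) (A : ℝ) (hA : 1 ≤ A) (hj : j ≤ C * ℓ ^ C) (hℓ : (ℓ : ℝ) ≤ 2 * A) :
    8 * (C : ℝ) * (C' * (j : ℝ) ^ C') ≤
      ((8 * C * C' * C ^ C' * 2 ^ (C * C') + C * C' + 1 : ℕ) : ℝ) *
        A ^ (8 * C * C' * C ^ C' * 2 ^ (C * C') + C * C' + 1) := by
  have hA0 : (0 : ℝ) ≤ A := by linarith
  have h1 : (j : ℝ) ≤ C * (2 * A) ^ C := by
    have h2 : (j : ℝ) ≤ C * (ℓ : ℝ) ^ C := by exact_mod_cast hj
    have h3 : (ℓ : ℝ) ^ C ≤ (2 * A) ^ C := pow_le_pow_left₀ (Nat.cast_nonneg _) hℓ C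
    exact h2.trans (mul_le_mul_of_nonneg_left h3 (Nat.cast_nonneg _))
  have h4 : (j : ℝ) ^ C' ≤ (C * (2 * A) ^ C) ^ C' := pow_le_pow_left₀ (Nat.cast_nonneg _) h1 C'
  have h5 : ((C : ℝ) * (2 * A) ^ C) ^ C' = (C : ℝ) ^ C' * 2 ^ (C * C') * A ^ (C * C') := by
    rw [mul_pow, mul_pow, mul_pow, ← pow_mul, ← pow_mul]
    ring
  rw [h5] at h4
  have h6 : A ^ (C * C') ≤ A ^ (8 * C * C' * C ^ C' * 2 ^ (C * C') + C * C' + 1) :=
    pow_le_pow_right₀ hA (by omega)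
  have h7 : (8 * (C : ℝ) * C' * (C : ℝ) ^ C' * 2 ^ (C * C')) ≤
      ((8 * C * C' * C ^ C' * 2 ^ (C * C') + C * C' + 1 : ℕ) : ℝ) := by
    push_cast
    have : (0 : ℝ) ≤ (C : ℝ) * C' := by positivity
    linarith
  calc 8 * (C : ℝ) * (C' * (j : ℝ) ^ C')
      ≤ 8 * (C : ℝ) * (C' * ((C : ℝ) ^ C' * 2 ^ (C * C') * A ^ (C * C'))) := by
        gcongr
    _ = (8 * (C : ℝ) * C' * (C : ℝ) ^ C' * 2 ^ (C * C')) * A ^ (C * C') := by ring
    _ ≤ _ := mul_le_mul h7 h6 (by positivity) (Nat.cast_nonneg _)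

theorem t_LOW (h1 : S_FIN) (h2 : S_PHI) : S_LOW := by
  obtain ⟨C, hC, hF⟩ := h1
  obtain ⟨C', hP⟩ := h2
  refine ⟨8 * C * C' * C ^ C' * 2 ^ (C * C') + C * C' + 1, by omega, ?_⟩
  intro K hK
  obtain ⟨ℓ, hℓ⟩ : ∃ ℓ, ℓ = Nat.log 2 K + 1 := ⟨_, rfl⟩
  have hℓ1 : 1 ≤ ℓ := by omega
  have hKℓ : K ≤ 2 ^ ℓ := by
    rw [hℓ]
    exact (Nat.lt_pow_succ_log_self (by norm_num) K).le
  have hℓA : (ℓ : ℝ) ≤ 2 * (1 + Real.log K) := by
    rw [hℓ]
    exact log_bd K hK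
  obtain ⟨j, hj1, hj2, c, hc, hb⟩ := hF ℓ hℓ1
  have hP' := hP j hj1
  obtain ⟨V, hV, hW⟩ := pW_eq (2 ^ j) (by
    calc 2 = 2 ^ 1 := by norm_num
      _ ≤ 2 ^ j := Nat.pow_le_pow_right (by norm_num) hj1)
  generalize pW (2 ^ j) = W at hP' hW hb
  have hVpos : 0 < V := hV.pos
  have hWpos : 0 < W := by omega
  have hWr : (0 : ℝ) < W := by exact_mod_cast hWpos
  have hch : ∀ b : ℕ, ∃ L0 : ℕ, b.Coprime W → b < W → ∀ L : ℕ, L0 ≤ L →
    ∀ (K : ℕ) (χ : ℕ → Fin K), K ≤ 2 ^ ℓ →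
      (L : ℝ) / C ≤ (((Ioc (2 * L) (4 * L)).filter fun s =>
        c * (L : ℝ) / Real.log L ^ 2 ≤ (rp χ (W * s + 2 * b) : ℝ)).card : ℝ) := by
    intro b
    by_cases hcop : b.Coprime W
    · by_cases hlt : b < W
      · obtain ⟨L0, hL0⟩ := hb b hcop hlt
        exact ⟨L0, fun _ _ => hL0⟩
      · exact ⟨0, fun _ h => absurd h hlt⟩
    · exact ⟨0, fun h => absurd h hcop⟩
  choose L0 hL0 using hch
  obtain ⟨M, hM⟩ : ∃ M, M = (range W).sup L0 := ⟨_, rfl⟩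
  refine ⟨c / (8 * W), by positivity, 2 * W + 4 * W * (M + 2) + 12 * W, ?_⟩
  intro N hN χ
  obtain ⟨L, hLdef⟩ : ∃ L, L = (N - 2 * W) / (4 * W) := ⟨_, rfl⟩
  have hLM : M + 2 ≤ L := by
    rw [hLdef, Nat.le_div_iff_mul_le (by omega)]
    have : (M + 2) * (4 * W) = 4 * W * (M + 2) := by ring
    rw [this]
    omega
  have hLN : W * (4 * L) + 2 * W ≤ N := by
    have h3 := Nat.div_mul_le_self (N - 2 * W) (4 * W)
    rw [← hLdef] at h3
    have h4 : W * (4 * L) = L * (4 * W) := by ring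
    rw [h4]
    omega
  have hLup : N < 2 * W + 4 * W * (L + 1) := by
    have h3 := Nat.lt_mul_div_succ (N - 2 * W) (b := 4 * W) (by omega)
    rw [← hLdef] at h3
    omega
  have hLr : (N : ℝ) ≤ 8 * W * L := by
    have h3 : (N : ℝ) ≤ 2 * W + 4 * W * (L + 1) := by exact_mod_cast hLup.le
    have h4 : (12 : ℝ) * W ≤ N := by
      have : 12 * W ≤ N := by omega
      exact_mod_cast this
    linarith
  have hL2 : 2 ≤ L := by omega
  have hL2r : (2 : ℝ) ≤ L := by exact_mod_cast hL2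
  have hLNle : L ≤ N := by
    have h3 : 1 * L ≤ W * (4 * L) := Nat.mul_le_mul hWpos (by omega)
    omega
  have hlogL : 0 < Real.log L := Real.log_pos (by linarith)
  have hlogLN : Real.log L ≤ Real.log N :=
    Real.log_le_log (by linarith) (by exact_mod_cast hLNle)
  have hcomp : c / (8 * W) * (N : ℝ) / Real.log N ^ 2 ≤ c * (L : ℝ) / Real.log L ^ 2 := by
    have h3 : c / (8 * W) * (N : ℝ) ≤ c * L := by
      rw [div_mul_eq_mul_div, div_le_iff₀ (by positivity)]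
      calc c * N ≤ c * (8 * W * L) := mul_le_mul_of_nonneg_left hLr hc.le
        _ = c * L * (8 * W) := by ring
    have h4 : Real.log L ^ 2 ≤ Real.log N ^ 2 := pow_le_pow_left₀ hlogL.le hlogLN 2
    exact div_le_div₀ (by positivity) h3 (by positivity) h4
  have hcount := count W V L N (L / C) (c * (L : ℝ) / Real.log L ^ 2)
    (c / (8 * W) * (N : ℝ) / Real.log N ^ 2) χ hV hW hLN hcomp (fun b hb1 hb2 => by
      apply hL0 b hb1 hb2 L _ K χ hKℓ
      have h3 : L0 b ≤ M := by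
        rw [hM]
        exact Finset.le_sup (f := L0) (mem_range.2 hb2)
      omega)
  refine le_trans ?_ hcount
  have hlogK : 0 ≤ Real.log K := Real.log_natCast_nonneg K
  have hA : (1 : ℝ) ≤ 1 + Real.log K := by linarith
  have hbd := const_bd C C' j ℓ (1 + Real.log K) hA hj2 hℓA
  have hCr : (0 : ℝ) < C := by exact_mod_cast hC
  have hφ : (0 : ℝ) < W.totient := by exact_mod_cast Nat.totient_pos.2 hWpos
  have hE : 0 < (C' : ℝ) * (j : ℝ) ^ C' := by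
    by_contra hcon
    have h3 : (C' : ℝ) * (j : ℝ) ^ C' * W.totient ≤ 0 :=
      mul_nonpos_of_nonpos_of_nonneg (not_lt.1 hcon) hφ.le
    linarith
  have h5 : (N : ℝ) / (8 * (C : ℝ) * (C' * (j : ℝ) ^ C')) ≤ (W.totient : ℝ) * (L / C) := by
    rw [div_le_iff₀ (by positivity)]
    calc (N : ℝ) ≤ 8 * W * L := hLr
      _ ≤ 8 * (C' * (j : ℝ) ^ C' * W.totient) * L := by
        gcongr
      _ = (W.totient : ℝ) * (L / C) * (8 * (C : ℝ) * (C' * (j : ℝ) ^ C')) := by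
        field_simp
  refine le_trans ?_ h5
  exact div_le_div_of_nonneg_left (Nat.cast_nonneg _) (by positivity) hbd

end Pool.Agent.H253.KM
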