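import Mathlib
import Pool.Agent.H566.KM.Upp

/-!
The upper bound of project KM, for integers with at least one representation.
-/

set_option autoImplicit false

namespace Pool.Agent.H566.KM

open Finset Pool.Agent.H385.KM

/-- upper bound for the number of even integers with at least one monochromatic representation -/
theorem upp2 : ∃ C : ℕ, 0 < C ∧ ∀ K : ℕ, 3 ≤ K → ∃ χ : ℕ → Fin K, ∃ N0 : ℕ, ∀ N : ℕ, N0 ≤ N →
    ((((Icc 1 N).filter fun n => Even n ∧ 0 < rp χ n).card : ℝ)) ≤ C * (N : ℝ) / Real.log (Real.log K + 1) := by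
  classical
  refine ⟨6, by norm_num, ?_⟩
  intro K hK
  have hK0 : 0 < K := by omega
  have hK3 : (3 : ℝ) ≤ K := by exact_mod_cast hK
  have hlogK1 : 1 < Real.log K := by
    rw [Real.lt_log_iff_exp_lt (by linarith)]
    have := Real.exp_one_lt_d9
    linarith
  have hLL : 0 < Real.log (Real.log K + 1) := Real.log_pos (by linarith)
  by_cases hK16 : K < 16
  · -- small `K`
    refine ⟨fun _ => ⟨0, hK0⟩, 1, fun N hN => ?_⟩
    have h1 : ((((Icc 1 N).filter fun n => Even n ∧ 0 < rp (fun _ => (⟨0, hK0⟩ : Fin K)) n).card : ℝ)) ≤ N := by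
      have h2 := Finset.card_filter_le (Icc 1 N) (fun n => Even n ∧ 0 < rp (fun _ => (⟨0, hK0⟩ : Fin K)) n)
      rw [Nat.card_Icc] at h2
      have h3 : N + 1 - 1 = N := by omega
      rw [h3] at h2
      exact_mod_cast h2
    refine h1.trans ?_
    rw [le_div_iff₀ hLL]
    have h4 : Real.log K ≤ 3 := by
      have h5 : (K : ℝ) ≤ 16 := by exact_mod_cast hK16.le
      have h6 := Real.log_le_log (by linarith) h5
      have e : (16 : ℝ) = 2 ^ 4 := by norm_num
      rw [e, Real.log_pow] at h6
      have := Real.log_two_lt_d9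
      push_cast at h6
      linarith
    have h5 : Real.log (Real.log K + 1) ≤ 6 := by
      have := Real.log_le_sub_one_of_pos (show 0 < Real.log K + 1 by linarith)
      linarith
    have h6 : (0 : ℝ) ≤ N := Nat.cast_nonneg N
    have h7 := mul_le_mul_of_nonneg_left h5 h6
    push_cast
    linarith
  · -- large `K`
    push Not at hK16
    set w : ℕ := Nat.log 4 K with hw
    have hw2 : 2 ≤ w := by
      rw [hw]
      exact Nat.le_log_of_pow_le (by norm_num) (by linarith)
    have hKw : K < 4 ^ (w + 1) := Nat.lt_pow_succ_log_self (by norm_num) K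
    have hWK : pW w ≤ K := by
      have h1 : pW w ≤ 4 ^ w := primorial_le_four_pow w
      exact h1.trans (Nat.pow_log_le_self 4 (by omega))
    have hW0 := pW_pos w
    refine ⟨fun p => ⟨p % pW w, (Nat.mod_lt p hW0).trans_le hWK⟩, (2 * w + 1 + pW w) * pW w + 2, fun N hN => ?_⟩
    set χ : ℕ → Fin K := fun p => ⟨p % pW w, (Nat.mod_lt p hW0).trans_le hWK⟩ with hχ
    have hN2 : 2 ≤ N := by omega
    have hN2' : (2 : ℝ) ≤ N := by exact_mod_cast hN2
    have hcount := count χ hw2 (fun p q h => by
      have := congrArg Fin.val h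
      exact this) N
    have hle' := hcount
    have hW0' : (0 : ℝ) < pW w := by exact_mod_cast hW0
    have hW1' : (1 : ℝ) ≤ pW w := by exact_mod_cast hW0
    have htot1 : (1 : ℝ) ≤ ((pW w).totient : ℝ) := by
      exact_mod_cast Nat.totient_pos.2 hW0
    have htotW : ((pW w).totient : ℝ) ≤ pW w := by exact_mod_cast Nat.totient_le _
    have h1 : ((((Icc 1 N).filter fun n => Even n ∧ 0 < rp χ n).card : ℝ)) ≤
        (2 * w + 1) + ((pW w).totient : ℝ) * ((N : ℝ) / pW w + 1) := by
      have h2 : ((((Icc 1 N).filter fun n => Even n ∧ 0 < rp χ n).card : ℝ)) ≤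
          (((2 * w + 1) + (pW w).totient * (N / pW w + 1) : ℕ) : ℝ) := by exact_mod_cast hle'
      refine h2.trans ?_
      push_cast
      have h3 : ((N / pW w : ℕ) : ℝ) ≤ (N : ℝ) / pW w := Nat.cast_div_le
      have h4 : ((pW w).totient : ℝ) * (((N / pW w : ℕ) : ℝ) + 1) ≤
          ((pW w).totient : ℝ) * ((N : ℝ) / pW w + 1) :=
        mul_le_mul_of_nonneg_left (by linarith) (by linarith)
      linarith
    refine h1.trans ?_
    have h2 : (2 * (w : ℝ) + 1 + pW w) ≤ (N : ℝ) / pW w := by
      rw [le_div_iff₀ hW0']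
      have : (((2 * w + 1 + pW w) * pW w + 2 : ℕ) : ℝ) ≤ N := by exact_mod_cast hN
      push_cast at this
      linarith
    have hNW : (0 : ℝ) ≤ (N : ℝ) / pW w := by positivity
    have h3 : (2 * (w : ℝ) + 1) + ((pW w).totient : ℝ) * ((N : ℝ) / pW w + 1) ≤
        2 * (((pW w).totient : ℝ) * ((N : ℝ) / pW w)) := by
      have h4 : (N : ℝ) / pW w ≤ ((pW w).totient : ℝ) * ((N : ℝ) / pW w) :=
        le_mul_of_one_le_left hNW htot1
      linarith
    refine h3.trans ?_
    have h4 := phi_le (w := w) (by omega)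
    have h5 := log_bd hK0 hw2 hKw
    have hw0 : (2 : ℝ) ≤ w := by exact_mod_cast hw2
    have hlw : 0 < Real.log ((w : ℝ) + 1) := Real.log_pos (by linarith)
    have h6 : 1 / Real.log ((w : ℝ) + 1) ≤ 3 / Real.log (Real.log K + 1) := by
      rw [div_le_div_iff₀ hlw hLL]
      linarith
    have h7 : 2 * (((pW w).totient : ℝ) * ((N : ℝ) / pW w)) =
        2 * N * (((pW w).totient : ℝ) / pW w) := by ring
    rw [h7]
    have hN0 : (0 : ℝ) ≤ 2 * N := by positivity
    calc 2 * (N : ℝ) * (((pW w).totient : ℝ) / pW w) ≤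
          2 * N * (3 / Real.log (Real.log K + 1)) :=
          mul_le_mul_of_nonneg_left (h4.trans h6) hN0
      _ = ((6 : ℕ) : ℝ) * (N : ℝ) / Real.log (Real.log K + 1) := by
          push_cast
          ring

end Pool.Agent.H566.KM
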